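import Pool.Agent.H7.PB.Basic

/-! The events `E1` and `E2` (P1, P2). -/

namespace PropB

noncomputable section

open Finset Classical

variable {V : Type*} [Fintype V] [DecidableEq V] {n : ℕ}

theorem PE_exp_sub (hn : 0 < n) (T : ℕ) :
    (((n - T : ℕ) : ℝ) / n) ^ n ≤ Real.exp (-(T : ℝ)) := by
  have hn' : (0 : ℝ) < n := by exact_mod_cast hn
  rcases le_or_gt T n with hT | hT
  · have h1 : (((n - T : ℕ) : ℝ) / n) ≤ Real.exp (-((T : ℝ) / n)) := by
      rw [Nat.cast_sub hT, sub_div, div_self hn'.ne']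
      have := Real.add_one_le_exp (-((T : ℝ) / n))
      linarith
    have h0 : (0 : ℝ) ≤ (((n - T : ℕ) : ℝ) / n) := by positivity
    refine (pow_le_pow_left₀ h0 h1 n).trans ?_
    rw [← Real.exp_nat_mul]
    apply le_of_eq
    congr 1
    field_simp
  · have : n - T = 0 := by omega
    rw [this]
    simp only [Nat.cast_zero, zero_div]
    rw [zero_pow hn.ne']
    exact (Real.exp_pos _).le

theorem PE_exp_add (hn : 0 < n) (M i : ℕ) :
    (1 + (M : ℝ) / n) ^ (n - i) ≤ Real.exp (M : ℝ) := by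
  have hn' : (0 : ℝ) < n := by exact_mod_cast hn
  have h1 : 1 + (M : ℝ) / n ≤ Real.exp ((M : ℝ) / n) := by
    have := Real.add_one_le_exp ((M : ℝ) / n)
    linarith
  have h0 : (0 : ℝ) ≤ 1 + (M : ℝ) / n := by positivity
  refine (pow_le_pow_left₀ h0 h1 (n - i)).trans ?_
  rw [← Real.exp_nat_mul]
  apply Real.exp_le_exp.mpr
  have h2 : ((n - i : ℕ) : ℝ) ≤ n := by exact_mod_cast Nat.sub_le n i
  calc ((n - i : ℕ) : ℝ) * ((M : ℝ) / n) ≤ n * ((M : ℝ) / n) :=
        mul_le_mul_of_nonneg_right h2 (by positivity)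
    _ = M := by field_simp

theorem Pr_E1 (hn : 0 < n) (H : Finset (Finset V)) (hH : ∀ A ∈ H, A.card = n) (T1 : ℕ) :
    Pr (fun ω : Cfg V n => E1 H T1 ω) ≤ 2 * ((H.card : ℝ) / 2 ^ n) * Real.exp (-(T1 : ℝ)) := by
  have hn' : (0 : ℝ) < n := by exact_mod_cast hn
  have h1 : ∀ q ∈ (univ : Finset Bool) ×ˢ H,
      Pr (fun ω : Cfg V n => ∀ v ∈ q.2, col ω v = q.1 ∧ T1 ≤ lev ω v) ≤
        (1 / 2 ^ n) * Real.exp (-(T1 : ℝ)) := by
    rintro ⟨c, A⟩ hq
    have hA : A.card = n := hH A (mem_product.mp hq).2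
    refine (Pr_le_prod_const hn A _
      (fun _ => (univ : Finset (Bool × Fin n)).filter (fun x => x.1 = c ∧ T1 ≤ (x.2 : ℕ)))
      ?_).trans ?_
    · intro ω hω w hw
      rw [mem_filter]
      exact ⟨mem_univ _, hω w hw⟩
    · rw [prod_const, hA, card_ge]
      have h2 : (((n - T1 : ℕ) : ℝ) / (2 * n)) = (1 / 2) * (((n - T1 : ℕ) : ℝ) / n) := by
        field_simp
      rw [h2, mul_pow, one_div, inv_pow, ← one_div]
      exact mul_le_mul_of_nonneg_left (PE_exp_sub hn T1) (by positivity)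
  have h2 := Pr_exists_mem_le_card ((univ : Finset Bool) ×ˢ H) _ _ h1
  refine (Pr_mono ?_).trans (h2.trans (le_of_eq ?_))
  · rintro ω ⟨c, A, hA, h⟩
    exact ⟨(c, A), mem_product.mpr ⟨mem_univ c, hA⟩, h⟩
  · rw [card_product, card_univ, Fintype.card_bool]
    push_cast
    ring

theorem PE_card_lt (c : Bool) (M : ℕ) :
    (((univ : Finset (Bool × Fin n)).filter (fun x => x.1 = c ∧ (x.2 : ℕ) < M)).card) ≤ M := by
  rcases Nat.eq_zero_or_pos M with h | h
  · subst h
    simp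
  · refine le_trans (card_le_card ?_) ((card_window_le (n := n) c 0 (M - 1)).trans (by omega))
    intro x hx
    rw [mem_filter] at hx ⊢
    exact ⟨hx.1, hx.2.1, Nat.zero_le _, by omega⟩

theorem PE_card_or (c : Bool) (P : ℕ → Prop) (m : ℕ) (hm : ∀ j, P j → j < m) :
    (((univ : Finset (Bool × Fin n)).filter (fun x => x.1 = c → P (x.2 : ℕ))).card) ≤ n + m :=
  (card_other_or_le c P m hm).trans
    (Nat.add_le_add_left ((card_filter_le _ _).trans_eq (card_range m)) n)

theorem PE_pair (hn : 0 < n) {A B : Finset V} (hA : A.card = n) (hB : B.card = n) (M : ℕ)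
    (hM : 2 * M ≤ n) (c : Bool) :
    Pr (fun ω : Cfg V n => 2 ≤ (A ∩ B).card ∧ (∀ v ∈ A, col ω v = c) ∧
      ∀ v ∈ B, col ω v = c → lev ω v < M) ≤
      (1 / 2 ^ n) ^ 2 * (4 * (M : ℝ) ^ 2 / (n : ℝ) ^ 2) * Real.exp (M : ℝ) := by
  have hn' : (0 : ℝ) < n := by exact_mod_cast hn
  by_cases h2 : 2 ≤ (A ∩ B).card
  swap
  · have : Pr (fun ω : Cfg V n => 2 ≤ (A ∩ B).card ∧ (∀ v ∈ A, col ω v = c) ∧
        ∀ v ∈ B, col ω v = c → lev ω v < M) ≤ 0 := by
      unfold Pr
      refine (Ex_mono (g := fun _ => 0) ?_).trans (Ex_const_le 0 le_rfl)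
      intro ω
      rw [if_neg]
      exact fun h => h2 h.1
    exact this.trans (by positivity)
  set a1 : ℝ := (M : ℝ) / (2 * n) with ha1
  set a2 : ℝ := 1 / 2 with ha2
  set a3 : ℝ := ((n : ℝ) + M) / (2 * n) with ha3
  have hp := Pr_le_prod_const (V := V) hn (A ∪ B)
    (fun ω : Cfg V n => 2 ≤ (A ∩ B).card ∧ (∀ v ∈ A, col ω v = c) ∧
      ∀ v ∈ B, col ω v = c → lev ω v < M)
    (fun w => if w ∈ A then
      (if w ∈ B then (univ : Finset (Bool × Fin n)).filter (fun x => x.1 = c ∧ (x.2 : ℕ) < M)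
        else (univ : Finset (Bool × Fin n)).filter (fun x => x.1 = c ∧ 0 ≤ (x.2 : ℕ)))
      else (univ : Finset (Bool × Fin n)).filter (fun x => x.1 = c → (x.2 : ℕ) < M)) ?_
  · refine hp.trans ?_
    have h3 : ∏ w ∈ A ∪ B, ((((if w ∈ A then
      (if w ∈ B then (univ : Finset (Bool × Fin n)).filter (fun x => x.1 = c ∧ (x.2 : ℕ) < M)
        else (univ : Finset (Bool × Fin n)).filter (fun x => x.1 = c ∧ 0 ≤ (x.2 : ℕ)))
      else (univ : Finset (Bool × Fin n)).filter (fun x => x.1 = c → (x.2 : ℕ) < M))).card : ℝ)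
        / (2 * n)) ≤ ∏ w ∈ A ∪ B, (if w ∈ A then (if w ∈ B then a1 else a2) else a3) := by
      apply prod_le_prod
      · intro w _
        positivity
      · intro w _
        split_ifs with hwA hwB
        · rw [ha1]
          apply div_le_div_of_nonneg_right _ (by positivity)
          exact_mod_cast PE_card_lt c M
        · rw [card_ge, ha2, Nat.sub_zero]
          apply le_of_eq
          field_simp
        · rw [ha3]
          apply div_le_div_of_nonneg_right _ (by positivity)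
          have h4 : ((univ : Finset (Bool × Fin n)).filter
              (fun x => x.1 = c → (x.2 : ℕ) < M)).card ≤ n + M := by
            refine le_trans (le_of_eq (congrArg Finset.card ?_))
              (PE_card_or c (fun j => j < M) M (fun j hj => hj))
            ext x
            simp only [Finset.mem_filter]
          exact_mod_cast h4
    refine h3.trans ?_
    have h6 : ∏ w ∈ A ∪ B, (if w ∈ A then (if w ∈ B then a1 else a2) else a3) =
        (a1 ^ (A ∩ B).card * a2 ^ (n - (A ∩ B).card)) * a3 ^ (n - (A ∩ B).card) := by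
      rw [← union_sdiff_self_eq_union, prod_union disjoint_sdiff]
      congr 1
      · have : ∀ w ∈ A, (if w ∈ A then (if w ∈ B then a1 else a2) else a3) =
            (if w ∈ B then a1 else a2) := fun w hw => if_pos hw
        rw [prod_congr rfl this, prod_ite, prod_const, prod_const, filter_mem_eq_inter]
        congr 2
        have h7 := card_filter_add_card_filter_not (s := A) (fun w => w ∈ B)
        rw [filter_mem_eq_inter] at h7
        omega
      · have : ∀ w ∈ B \ A, (if w ∈ A then (if w ∈ B then a1 else a2) else a3) = a3 :=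
          fun w hw => if_neg (mem_sdiff.mp hw).2
        rw [prod_congr rfl this, prod_const]
        congr 1
        rw [card_sdiff, hB]
    rw [h6]
    set i := (A ∩ B).card with hi
    have hin : i ≤ n := by rw [hi, ← hA]; exact card_le_card inter_subset_left
    obtain ⟨m, hm⟩ : ∃ m, n = i + m := ⟨n - i, by omega⟩
    have hnm : n - i = m := by omega
    rw [hnm]
    have h8 : a3 = (1 / 2) * (1 + (M : ℝ) / n) := by
      rw [ha3]
      field_simp
    have h9 : a1 = (1 / 2) * (1 / 2) * (2 * (M : ℝ) / n) := by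
      rw [ha1]
      field_simp
    have h10 : (a1 ^ i * a2 ^ m) * a3 ^ m =
        (1 / 2 ^ n) ^ 2 * (2 * (M : ℝ) / n) ^ i * (1 + (M : ℝ) / n) ^ m := by
      rw [h8, h9, ha2, mul_pow, mul_pow, mul_pow]
      have h11 : (1 / (2 : ℝ) ^ n) ^ 2 = (1 / 2) ^ i * (1 / 2) ^ i * (1 / 2) ^ m * (1 / 2) ^ m := by
        have : (1 / (2 : ℝ) ^ n) = (1 / 2) ^ i * (1 / 2) ^ m := by
          rw [← pow_add, ← hm, one_div, one_div, inv_pow]
        rw [this]
        ring
      rw [h11]
      ring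
    rw [h10]
    have h12 : (2 * (M : ℝ) / n) ^ i ≤ 4 * (M : ℝ) ^ 2 / (n : ℝ) ^ 2 := by
      have h13 : (2 * (M : ℝ) / n) ≤ 1 := by
        rw [div_le_one hn']
        exact_mod_cast hM
      refine (pow_le_pow_of_le_one (by positivity) h13 h2).trans (le_of_eq ?_)
      rw [div_pow, mul_pow]
      norm_num
    have h14 : (1 + (M : ℝ) / n) ^ m ≤ Real.exp (M : ℝ) := by
      have := PE_exp_add hn M i
      rwa [hnm] at this
    gcongr
  · rintro ω ⟨-, h3, h4⟩ w hw
    by_cases hwA : w ∈ A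
    · rw [if_pos hwA]
      by_cases hwB : w ∈ B
      · rw [if_pos hwB, mem_filter]
        exact ⟨mem_univ _, h3 w hwA, h4 w hwB (h3 w hwA)⟩
      · rw [if_neg hwB, mem_filter]
        exact ⟨mem_univ _, h3 w hwA, Nat.zero_le _⟩
    · rw [if_neg hwA, mem_filter]
      have hwB : w ∈ B := (mem_union.mp hw).resolve_left hwA
      exact ⟨mem_univ _, fun h => h4 w hwB h⟩

theorem Pr_E2 (hn : 0 < n) (H : Finset (Finset V)) (hH : ∀ A ∈ H, A.card = n) (M : ℕ)
    (hM : 2 * M ≤ n) :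
    Pr (fun ω : Cfg V n => E2 H M ω) ≤
      8 * ((H.card : ℝ) / 2 ^ n) ^ 2 * (M : ℝ) ^ 2 * Real.exp (M : ℝ) / (n : ℝ) ^ 2 := by
  have hn' : (0 : ℝ) < n := by exact_mod_cast hn
  have h2 := Pr_exists_mem_le_card (n := n) ((univ : Finset Bool) ×ˢ (H ×ˢ H))
    (fun q ω => 2 ≤ (q.2.1 ∩ q.2.2).card ∧ (∀ v ∈ q.2.1, col ω v = q.1) ∧
      ∀ v ∈ q.2.2, col ω v = q.1 → lev ω v < M)
    ((1 / 2 ^ n) ^ 2 * (4 * (M : ℝ) ^ 2 / (n : ℝ) ^ 2) * Real.exp (M : ℝ)) ?_
  · refine (Pr_mono ?_).trans (h2.trans (le_of_eq ?_))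
    · rintro ω ⟨c, A, hA, B, hB, h⟩
      exact ⟨(c, A, B), mem_product.mpr ⟨mem_univ c, mem_product.mpr ⟨hA, hB⟩⟩, h⟩
    · rw [card_product, card_univ, Fintype.card_bool, card_product]
      push_cast
      field_simp
      ring
  · rintro ⟨c, A, B⟩ hq
    have h3 := mem_product.mp (mem_product.mp hq).2
    exact PE_pair hn (hH A h3.1) (hH B h3.2) M hM c

end

end PropB
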