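import Pool.Agent.H7.PB.Defs

/-! Product lemma and counting lemmas (second half of the module Basic). -/

namespace PropB

noncomputable section

open Finset Classical

variable {V : Type*} [Fintype V] [DecidableEq V] {n : ℕ}

/-- resampling one coordinate does not change the sum -/
theorem B2_resample (a : V) (g : Cfg V n → ℝ) :
    ∑ ω : Cfg V n, ∑ x : Bool × Fin n, g (Function.update ω a x) =
      (2 * n : ℝ) * ∑ ω : Cfg V n, g ω := by
  have h1 : ∑ ω : Cfg V n, ∑ x : Bool × Fin n, g (Function.update ω a x) =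
      ∑ q : Cfg V n × (Bool × Fin n), g (Function.update q.1 a q.2) := by
    rw [Fintype.sum_prod_type]
  have hinv : Function.Involutive
      (fun q : Cfg V n × (Bool × Fin n) => (Function.update q.1 a q.2, q.1 a)) := by
    intro q
    simp
  have h2 : ∑ q : Cfg V n × (Bool × Fin n), g (Function.update q.1 a q.2) =
      ∑ q : Cfg V n × (Bool × Fin n), g q.1 := by
    refine Fintype.sum_equiv hinv.toPerm _ _ ?_
    intro q
    rfl
  rw [h1, h2, Fintype.sum_prod_type]
  simp only [Finset.sum_const, Finset.card_univ, Fintype.card_prod, Fintype.card_bool,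
    Fintype.card_fin, nsmul_eq_mul, Nat.cast_mul, Nat.cast_ofNat]
  rw [Finset.mul_sum]

theorem B2_single (a : V) (F : Cfg V n → ℝ) (hF : IndepOf {a} F)
    (P : Cfg V n → Finset (Bool × Fin n)) (hP : IndepOf {a} P) :
    ∑ ω : Cfg V n, F ω * (if ω a ∈ P ω then (1 : ℝ) else 0) =
      ∑ ω : Cfg V n, F ω * (((P ω).card : ℝ) / (2 * n)) := by
  rcases Nat.eq_zero_or_pos n with hn | hn
  · subst hn
    have : IsEmpty (Cfg V 0) := ⟨fun ω => (ω a).2.elim0⟩
    simp
  · have h := B2_resample a (fun ω : Cfg V n => F ω * (if ω a ∈ P ω then (1 : ℝ) else 0))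
    have h3 : ∀ ω : Cfg V n, ∑ x : Bool × Fin n,
        (fun ω : Cfg V n => F ω * (if ω a ∈ P ω then (1 : ℝ) else 0)) (Function.update ω a x) =
        F ω * ((P ω).card : ℝ) := by
      intro ω
      have h4 : ∀ x : Bool × Fin n,
          (fun ω : Cfg V n => F ω * (if ω a ∈ P ω then (1 : ℝ) else 0))
            (Function.update ω a x) = F ω * (if x ∈ P ω then (1 : ℝ) else 0) := by
        intro x
        have e1 : F (Function.update ω a x) = F ω := by
          apply hF
          intro v hv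
          have hva : v ≠ a := by simpa using hv
          simp [Function.update_of_ne hva]
        have e2 : P (Function.update ω a x) = P ω := by
          apply hP
          intro v hv
          have hva : v ≠ a := by simpa using hv
          simp [Function.update_of_ne hva]
        simp only [e1, e2, Function.update_self]
      rw [Finset.sum_congr rfl (fun x _ => h4 x), ← Finset.mul_sum]
      congr 1
      rw [Finset.sum_ite_mem]
      simp
    rw [Finset.sum_congr rfl (fun ω _ => h3 ω)] at h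
    have hn' : (0 : ℝ) < 2 * n := by positivity
    have h5 : ∑ ω : Cfg V n, F ω * (((P ω).card : ℝ) / (2 * n)) =
        (∑ ω : Cfg V n, F ω * ((P ω).card : ℝ)) / (2 * n) := by
      rw [Finset.sum_div]
      refine Finset.sum_congr rfl (fun ω _ => ?_)
      ring
    rw [h5, h]
    field_simp

theorem B2_sum (P : V → Cfg V n → Finset (Bool × Fin n)) (W : Finset V) :
    ∀ G : Cfg V n → ℝ, IndepOf W G → (∀ w ∈ W, IndepOf W (P w)) →
    ∑ ω : Cfg V n, G ω * ∏ w ∈ W, (if ω w ∈ P w ω then (1 : ℝ) else 0) =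
      ∑ ω : Cfg V n, G ω * ∏ w ∈ W, (((P w ω).card : ℝ) / (2 * n)) := by
  induction W using Finset.induction_on with
  | empty =>
    intro G _ _
    simp
  | insert a W ha ih =>
    intro G hG hP
    have hmono : ∀ {α : Type _} (f : Cfg V n → α), IndepOf (insert a W) f → IndepOf W f := by
      intro α f hf ω ω' h
      refine hf ω ω' (fun v hv => h v (fun hvW => hv (Finset.mem_insert_of_mem hvW)))
    have hmonoa : ∀ {α : Type _} (f : Cfg V n → α), IndepOf (insert a W) f → IndepOf {a} f := by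
      intro α f hf ω ω' h
      refine hf ω ω' (fun v hv => h v (fun hva => hv ?_))
      rw [Finset.mem_singleton] at hva
      rw [hva]
      exact Finset.mem_insert_self a W
    -- step 1
    have s1 : ∑ ω : Cfg V n, G ω * ∏ w ∈ insert a W, (if ω w ∈ P w ω then (1 : ℝ) else 0) =
        ∑ ω : Cfg V n, (G ω * (if ω a ∈ P a ω then (1 : ℝ) else 0)) *
          ∏ w ∈ W, (if ω w ∈ P w ω then (1 : ℝ) else 0) := by
      refine Finset.sum_congr rfl (fun ω _ => ?_)
      rw [Finset.prod_insert ha]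
      ring
    have s2 := ih (fun ω => G ω * (if ω a ∈ P a ω then (1 : ℝ) else 0)) (by
      intro ω ω' h
      have e1 : G ω = G ω' := hmono G hG ω ω' h
      have e2 : P a ω = P a ω' := hmono _ (hP a (Finset.mem_insert_self a W)) ω ω' h
      have e3 : ω a = ω' a := h a ha
      simp only [e1, e2, e3]) (fun w hw => hmono _ (hP w (Finset.mem_insert_of_mem hw)))
    have s3 : ∑ ω : Cfg V n, (G ω * (if ω a ∈ P a ω then (1 : ℝ) else 0)) *
          ∏ w ∈ W, (((P w ω).card : ℝ) / (2 * n)) =
        ∑ ω : Cfg V n, (G ω * ∏ w ∈ W, (((P w ω).card : ℝ) / (2 * n))) *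
          (if ω a ∈ P a ω then (1 : ℝ) else 0) := by
      refine Finset.sum_congr rfl (fun ω _ => ?_)
      ring
    have s4 := B2_single a (fun ω => G ω * ∏ w ∈ W, (((P w ω).card : ℝ) / (2 * n))) (by
      intro ω ω' h
      have e1 : G ω = G ω' := hmonoa G hG ω ω' h
      have e2 : ∀ w ∈ W, P w ω = P w ω' := fun w hw =>
        hmonoa _ (hP w (Finset.mem_insert_of_mem hw)) ω ω' h
      show G ω * ∏ w ∈ W, (((P w ω).card : ℝ) / (2 * n)) =
        G ω' * ∏ w ∈ W, (((P w ω').card : ℝ) / (2 * n))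
      rw [e1, Finset.prod_congr rfl (fun w hw => by rw [e2 w hw])])
      (P a) (hmonoa _ (hP a (Finset.mem_insert_self a W)))
    rw [s1, s2, s3, s4]
    refine Finset.sum_congr rfl (fun ω _ => ?_)
    rw [Finset.prod_insert ha]
    ring

/-- product lemma: the coordinates in `W` are independent and uniform given the others. -/
theorem Ex_prod (W : Finset V) (G : Cfg V n → ℝ) (hG : IndepOf W G)
    (P : V → Cfg V n → Finset (Bool × Fin n)) (hP : ∀ w ∈ W, IndepOf W (P w)) :
    Ex (fun ω => G ω * ∏ w ∈ W, (if ω w ∈ P w ω then (1 : ℝ) else 0)) =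
      Ex (fun ω => G ω * ∏ w ∈ W, (((P w ω).card : ℝ) / (2 * n))) := by
  unfold Ex
  rw [B2_sum P W G hG hP]

theorem B2_Ex_mono {f g : Cfg V n → ℝ} (h : ∀ ω, f ω ≤ g ω) : Ex f ≤ Ex g := by
  unfold Ex
  exact div_le_div_of_nonneg_right (Finset.sum_le_sum fun ω _ => h ω) (by positivity)

/-- inequality form of the product lemma -/
theorem Pr_le_prod (W : Finset V) (p : Cfg V n → Prop) (G : Cfg V n → ℝ) (h0 : ∀ ω, 0 ≤ G ω)
    (hG : IndepOf W G) (P : V → Cfg V n → Finset (Bool × Fin n))
    (hP : ∀ w ∈ W, IndepOf W (P w)) (hp : ∀ ω, p ω → 1 ≤ G ω ∧ ∀ w ∈ W, ω w ∈ P w ω) :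
    Pr p ≤ Ex (fun ω => G ω * ∏ w ∈ W, (((P w ω).card : ℝ) / (2 * n))) := by
  rw [← Ex_prod W G hG P hP]
  unfold Pr
  refine B2_Ex_mono (fun ω => ?_)
  by_cases h : p ω
  · rw [if_pos h]
    obtain ⟨h1, h2⟩ := hp ω h
    rw [Finset.prod_congr rfl (fun w hw => if_pos (h2 w hw))]
    simpa using h1
  · rw [if_neg h]
    refine mul_nonneg (h0 ω) (Finset.prod_nonneg (fun w _ => ?_))
    split_ifs <;> norm_num

/-- constant form: `p` forces `ω w ∈ P w` for `w ∈ W`. -/
theorem Pr_le_prod_const (hn : 0 < n) (W : Finset V) (p : Cfg V n → Prop)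
    (P : V → Finset (Bool × Fin n)) (hp : ∀ ω, p ω → ∀ w ∈ W, ω w ∈ P w) :
    Pr p ≤ ∏ w ∈ W, (((P w).card : ℝ) / (2 * n)) := by
  have h := Pr_le_prod W p (fun _ => (1 : ℝ)) (fun _ => by norm_num) (fun _ _ _ => rfl)
    (fun w _ => P w) (fun w _ => fun _ _ _ => rfl) (fun ω hω => ⟨le_refl _, hp ω hω⟩)
  refine h.trans (le_of_eq ?_)
  have : Nonempty (Fin n) := ⟨⟨0, hn⟩⟩
  have hc : (0 : ℝ) < (Fintype.card (Cfg V n) : ℝ) := by
    have : 0 < Fintype.card (Cfg V n) := Fintype.card_pos
    exact_mod_cast this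
  unfold Ex
  simp only [one_mul, Finset.sum_const, Finset.card_univ, nsmul_eq_mul]
  rw [mul_comm, mul_div_assoc, div_self (ne_of_gt hc), mul_one]

/-- independence: `p` is a product event on `W`, `q` does not look at `W`. -/
theorem Pr_and_le_prod (W : Finset V) (p q : Cfg V n → Prop) (hq : IndepOf W q)
    (P : V → Finset (Bool × Fin n)) (hp : ∀ ω, p ω → ∀ w ∈ W, ω w ∈ P w) :
    Pr (fun ω => p ω ∧ q ω) ≤ (∏ w ∈ W, (((P w).card : ℝ) / (2 * n))) * Pr q := by
  have h := Pr_le_prod W (fun ω => p ω ∧ q ω) (fun ω => if q ω then (1 : ℝ) else 0)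
    (fun ω => by split_ifs <;> norm_num) (fun ω ω' h => by
      have : q ω = q ω' := hq ω ω' h
      simp only [this]) (fun w _ => P w) (fun w _ => fun _ _ _ => rfl)
    (fun ω hω => ⟨by simp only [if_pos hω.2]; exact le_refl _, hp ω hω.1⟩)
  refine h.trans (le_of_eq ?_)
  unfold Pr Ex
  rw [← Finset.sum_mul]
  ring

/-- counting: colour `c`, level `≥ a` -/
theorem card_ge (c : Bool) (a : ℕ) :
    (((univ : Finset (Bool × Fin n)).filter (fun x => x.1 = c ∧ a ≤ (x.2 : ℕ))).card) = n - a := by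
  have h1 : ((univ : Finset (Bool × Fin n)).filter (fun x => x.1 = c ∧ a ≤ (x.2 : ℕ))).card =
      (Finset.Ico a n).card := by
    refine Finset.card_bij (fun x _ => (x.2 : ℕ)) ?_ ?_ ?_
    · intro x hx
      rw [Finset.mem_filter] at hx
      rw [Finset.mem_Ico]
      exact ⟨hx.2.2, x.2.2⟩
    · intro x hx x' hx' h
      rw [Finset.mem_filter] at hx hx'
      exact Prod.ext (hx.2.1.trans hx'.2.1.symm) (Fin.ext h)
    · intro j hj
      rw [Finset.mem_Ico] at hj
      refine ⟨(c, ⟨j, hj.2⟩), ?_, rfl⟩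
      rw [Finset.mem_filter]
      exact ⟨Finset.mem_univ _, rfl, hj.1⟩
  rw [h1, Nat.card_Ico]

/-- counting: colour `c`, level in `[a, b]` -/
theorem card_window_le (c : Bool) (a b : ℕ) :
    (((univ : Finset (Bool × Fin n)).filter
      (fun x => x.1 = c ∧ a ≤ (x.2 : ℕ) ∧ (x.2 : ℕ) ≤ b)).card) ≤ b + 1 - a := by
  have h1 : ((univ : Finset (Bool × Fin n)).filter
      (fun x => x.1 = c ∧ a ≤ (x.2 : ℕ) ∧ (x.2 : ℕ) ≤ b)).card ≤ (Finset.Ico a (b + 1)).card := by
    refine Finset.card_le_card_of_injOn (fun x => (x.2 : ℕ)) ?_ ?_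
    · intro x hx
      rw [Finset.mem_coe, Finset.mem_filter] at hx
      rw [Finset.mem_coe, Finset.mem_Ico]
      exact ⟨hx.2.2.1, Nat.lt_succ_of_le hx.2.2.2⟩
    · intro x hx x' hx' h
      rw [Finset.mem_coe, Finset.mem_filter] at hx hx'
      exact Prod.ext (hx.2.1.trans hx'.2.1.symm) (Fin.ext h)
  rw [Nat.card_Ico] at h1
  exact h1

/-- counting: colour `≠ c`, or level in a set given by a predicate on levels -/
theorem card_other_or_le (c : Bool) (P : ℕ → Prop) (m : ℕ) (hm : ∀ j, P j → j < m) :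
    (((univ : Finset (Bool × Fin n)).filter (fun x => x.1 = c → P (x.2 : ℕ))).card) ≤
      n + ((range m).filter P).card := by
  have hsub : (univ : Finset (Bool × Fin n)).filter (fun x => x.1 = c → P (x.2 : ℕ)) ⊆
      ((univ : Finset (Bool × Fin n)).filter (fun x => x.1 = !c)) ∪
      ((univ : Finset (Bool × Fin n)).filter (fun x => x.1 = c ∧ P (x.2 : ℕ))) := by
    intro x hx
    rw [Finset.mem_filter] at hx
    rw [Finset.mem_union, Finset.mem_filter, Finset.mem_filter]
    by_cases h : x.1 = c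
    · exact Or.inr ⟨Finset.mem_univ _, h, hx.2 h⟩
    · refine Or.inl ⟨Finset.mem_univ _, ?_⟩
      revert h
      cases x.1 <;> cases c <;> simp
  have hA : ((univ : Finset (Bool × Fin n)).filter (fun x => x.1 = !c)).card ≤ n := by
    have : ((univ : Finset (Bool × Fin n)).filter (fun x => x.1 = !c)).card ≤
        (univ : Finset (Fin n)).card := by
      refine Finset.card_le_card_of_injOn (fun x => x.2) (fun x _ => Finset.mem_coe.2 (Finset.mem_univ _)) ?_
      intro x hx x' hx' h
      rw [Finset.mem_coe, Finset.mem_filter] at hx hx'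
      exact Prod.ext (hx.2.trans hx'.2.symm) h
    simpa using this
  have hB : ((univ : Finset (Bool × Fin n)).filter (fun x => x.1 = c ∧ P (x.2 : ℕ))).card ≤
      ((range m).filter P).card := by
    refine Finset.card_le_card_of_injOn (fun x => (x.2 : ℕ)) ?_ ?_
    · intro x hx
      rw [Finset.mem_coe, Finset.mem_filter] at hx
      rw [Finset.mem_coe, Finset.mem_filter, Finset.mem_range]
      exact ⟨hm _ hx.2.2, hx.2.2⟩
    · intro x hx x' hx' h
      rw [Finset.mem_coe, Finset.mem_filter] at hx hx'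
      exact Prod.ext (hx.2.1.trans hx'.2.1.symm) (Fin.ext h)
  exact (Finset.card_le_card hsub).trans ((Finset.card_union_le _ _).trans (Nat.add_le_add hA hB))

end

end PropB
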