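import Pool.Agent.H7.PB.Basic1
import Pool.Agent.H7.PB.Basic2

/-! Expectation, probability, product lemma: see `Basic1` and `Basic2`. -/
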