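import Pool.Agent.H7.PB.Defs

/-! Expectation and probability over the uniform configuration (first half of Basic). -/

namespace PropB

noncomputable section

open Finset Classical

variable {V : Type*} [Fintype V] [DecidableEq V] {n : ℕ}

theorem Ex_mono {f g : Cfg V n → ℝ} (h : ∀ ω, f ω ≤ g ω) : Ex f ≤ Ex g := by
  unfold Ex
  exact div_le_div_of_nonneg_right (Finset.sum_le_sum fun ω _ => h ω) (Nat.cast_nonneg _)

theorem Ex_nonneg {f : Cfg V n → ℝ} (h : ∀ ω, 0 ≤ f ω) : 0 ≤ Ex f := by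
  unfold Ex
  exact div_nonneg (Finset.sum_nonneg fun ω _ => h ω) (Nat.cast_nonneg _)

theorem Ex_add (f g : Cfg V n → ℝ) : Ex (fun ω => f ω + g ω) = Ex f + Ex g := by
  unfold Ex
  rw [Finset.sum_add_distrib, add_div]

theorem Ex_const_mul (a : ℝ) (f : Cfg V n → ℝ) : Ex (fun ω => a * f ω) = a * Ex f := by
  unfold Ex
  rw [← Finset.mul_sum, mul_div_assoc]

theorem Ex_sum {ι : Type*} (s : Finset ι) (f : ι → Cfg V n → ℝ) :
    Ex (fun ω => ∑ i ∈ s, f i ω) = ∑ i ∈ s, Ex (f i) := by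
  unfold Ex
  rw [Finset.sum_comm, Finset.sum_div]

theorem Ex_const (hn : 0 < n) (a : ℝ) : Ex (fun _ : Cfg V n => a) = a := by
  unfold Ex
  have : Nonempty (Fin n) := ⟨⟨0, hn⟩⟩
  have hc : (Fintype.card (Cfg V n) : ℝ) ≠ 0 := by
    have : 0 < Fintype.card (Cfg V n) := Fintype.card_pos
    exact_mod_cast this.ne'
  rw [Finset.sum_const, nsmul_eq_mul, Finset.card_univ]
  field_simp

theorem Ex_const_le (a : ℝ) (ha : 0 ≤ a) : Ex (fun _ : Cfg V n => a) ≤ a := by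
  unfold Ex
  rw [Finset.sum_const, nsmul_eq_mul, Finset.card_univ]
  rcases Nat.eq_zero_or_pos (Fintype.card (Cfg V n)) with h | h
  · rw [h]; simpa using ha
  · have hc : (Fintype.card (Cfg V n) : ℝ) ≠ 0 := by exact_mod_cast h.ne'
    rw [mul_comm, mul_div_assoc, div_self hc, mul_one]

theorem Pr_nonneg (p : Cfg V n → Prop) : 0 ≤ Pr p := by
  unfold Pr
  exact Ex_nonneg fun ω => by split_ifs <;> norm_num

theorem Pr_le_one (p : Cfg V n → Prop) : Pr p ≤ 1 := by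
  unfold Pr
  exact (Ex_mono fun ω => by split_ifs <;> norm_num).trans (Ex_const_le 1 zero_le_one)

theorem Pr_mono {p q : Cfg V n → Prop} (h : ∀ ω, p ω → q ω) : Pr p ≤ Pr q := by
  unfold Pr
  refine Ex_mono fun ω => ?_
  by_cases hp : p ω
  · simp [hp, h ω hp]
  · simp only [hp, if_false]
    split_ifs <;> norm_num

theorem Pr_or_le (p q : Cfg V n → Prop) : Pr (fun ω => p ω ∨ q ω) ≤ Pr p + Pr q := by
  unfold Pr
  rw [← Ex_add]
  refine Ex_mono fun ω => ?_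
  by_cases hp : p ω <;> by_cases hq : q ω <;> simp [hp, hq]

theorem Pr_exists_mem_le {ι : Type*} (s : Finset ι) (p : ι → Cfg V n → Prop) :
    Pr (fun ω => ∃ i ∈ s, p i ω) ≤ ∑ i ∈ s, Pr (p i) := by
  unfold Pr
  rw [← Ex_sum]
  refine Ex_mono fun ω => ?_
  have hnn : ∀ i ∈ s, (0 : ℝ) ≤ (if p i ω then (1 : ℝ) else 0) := fun i _ => by
    split_ifs <;> norm_num
  by_cases h : ∃ i ∈ s, p i ω
  · obtain ⟨i, hi, hpi⟩ := h
    refine (le_of_eq (if_pos ⟨i, hi, hpi⟩)).trans ?_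
    calc (1 : ℝ) = (if p i ω then (1 : ℝ) else 0) := by rw [if_pos hpi]
      _ ≤ ∑ i ∈ s, (if p i ω then (1 : ℝ) else 0) :=
        Finset.single_le_sum (f := fun i => if p i ω then (1 : ℝ) else 0) hnn hi
  · refine (le_of_eq (if_neg h)).trans ?_
    exact Finset.sum_nonneg hnn

/-- union bound with constant bound -/
theorem Pr_exists_mem_le_card {ι : Type*} (s : Finset ι) (p : ι → Cfg V n → Prop) (a : ℝ)
    (h : ∀ i ∈ s, Pr (p i) ≤ a) : Pr (fun ω => ∃ i ∈ s, p i ω) ≤ (s.card : ℝ) * a := by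
  refine (Pr_exists_mem_le s p).trans ?_
  refine (Finset.sum_le_sum h).trans ?_
  rw [Finset.sum_const, nsmul_eq_mul]

theorem Pr_le_Ex {p : Cfg V n → Prop} {f : Cfg V n → ℝ} (h0 : ∀ ω, 0 ≤ f ω)
    (h : ∀ ω, p ω → 1 ≤ f ω) : Pr p ≤ Ex f := by
  unfold Pr
  refine Ex_mono fun ω => ?_
  by_cases hp : p ω
  · rw [if_pos hp]; exact h ω hp
  · rw [if_neg hp]; exact h0 ω

/-- Markov -/
theorem Pr_markov {f : Cfg V n → ℝ} (h0 : ∀ ω, 0 ≤ f ω) {a : ℝ} (ha : 0 < a) :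
    Pr (fun ω => a ≤ f ω) ≤ Ex f / a := by
  have : Pr (fun ω => a ≤ f ω) ≤ Ex (fun ω => a⁻¹ * f ω) := by
    refine Pr_le_Ex (fun ω => mul_nonneg (inv_nonneg.mpr ha.le) (h0 ω)) fun ω hω => ?_
    rw [inv_mul_eq_div, le_div_iff₀ ha, one_mul]
    exact hω
  rwa [Ex_const_mul, inv_mul_eq_div] at this

theorem exists_not_of_Pr_lt_one (hn : 0 < n) {p : Cfg V n → Prop} (h : Pr p < 1) :
    ∃ ω, ¬ p ω := by
  by_contra hcon
  push Not at hcon
  have h1 : Pr p = 1 := by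
    unfold Pr
    have : (fun ω : Cfg V n => if p ω then (1 : ℝ) else 0) = fun _ => 1 := by
      funext ω; rw [if_pos (hcon ω)]
    rw [this]
    exact Ex_const hn 1
  linarith

end

end PropB
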