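import Mathlib

/-!
# Property B: definitions (random object, bad events)

See /team-store/propB_spec.md.  `r` below is `R - 1`: every leader edge flips its `r + 1` lowest
vertices (or only its lowest one).  `n` is the uniformity.  A configuration gives every vertex a
colour and a level in `Fin n`.
-/

namespace PropB

noncomputable section

open Finset Classical

/-- A family of sets has property B: some 2-colouring of the points makes no member
monochromatic. -/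
def HasPropertyB {V : Type*} (H : Finset (Finset V)) : Prop :=
  ∃ χ : V → Bool, ∀ A ∈ H, (∃ v ∈ A, χ v = true) ∧ (∃ v ∈ A, χ v = false)

/-- configurations -/
abbrev Cfg (V : Type*) (n : ℕ) := V → Bool × Fin n

section Events

variable {V : Type*} [Fintype V] [DecidableEq V] {n : ℕ}

def col (ω : Cfg V n) (v : V) : Bool := (ω v).1

def lev (ω : Cfg V n) (v : V) : ℕ := ((ω v).2 : ℕ)

/-- `E1`: some monochromatic edge has all levels `≥ T1`. -/
def E1 (H : Finset (Finset V)) (T1 : ℕ) (ω : Cfg V n) : Prop :=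
  ∃ c : Bool, ∃ A ∈ H, ∀ v ∈ A, col ω v = c ∧ T1 ≤ lev ω v

/-- `E2`. -/
def E2 (H : Finset (Finset V)) (M : ℕ) (ω : Cfg V n) : Prop :=
  ∃ c : Bool, ∃ A ∈ H, ∃ B ∈ H, 2 ≤ (A ∩ B).card ∧ (∀ v ∈ A, col ω v = c) ∧
    ∀ v ∈ B, col ω v = c → lev ω v < M

/-- near-monochromatic: `v ∈ B` has colour `c` and level `T`, every other vertex of `B` of colour
`c` has level `≤ T`. -/
def NM (ω : Cfg V n) (c : Bool) (B : Finset V) (v : V) (T : ℕ) : Prop :=
  v ∈ B ∧ col ω v = c ∧ lev ω v = T ∧ ∀ w ∈ B, w ≠ v → col ω w = c → lev ω w ≤ T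

/-- number of edges meeting `B` in one vertex, all of colour `c` and level `≥ s - D` off `B`. -/
def Nhat (H : Finset (Finset V)) (D : ℕ) (c : Bool) (B : Finset V) (s : ℕ) (ω : Cfg V n) : ℕ :=
  (H.filter (fun A' => (A' ∩ B).card = 1 ∧ ∀ u ∈ A' \ B, col ω u = c ∧ s ≤ lev ω u + D)).card

def Dense (H : Finset (Finset V)) (M D : ℕ) (Q : ℝ) (c : Bool) (ω : Cfg V n) : Prop :=
  ∃ B ∈ H, ∃ T ∈ range M, (∃ v ∈ B, NM ω c B v T) ∧ (n : ℝ) * Q < (Nhat H D c B (T - D) ω : ℝ)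

/-- exceptional event at fixed `A, B, v, T` -/
def ExcAt (r D : ℕ) (c : Bool) (A B : Finset V) (v : V) (T : ℕ) (ω : Cfg V n) : Prop :=
  NM ω c B v T ∧ (∀ u ∈ A, col ω u = c ∧ T ≤ lev ω u) ∧
    ((A.erase v).filter (fun u => lev ω u ≤ T + D)).card < r

def Exc (H : Finset (Finset V)) (r M D : ℕ) (c : Bool) (ω : Cfg V n) : Prop :=
  ∃ A ∈ H, ∃ B ∈ H, ∃ v, A ∩ B = {v} ∧ ∃ T ∈ range M, ExcAt r D c A B v T ω

/-- `W(w)`: some edge `A'` meeting `B` exactly in `w`, disjoint from `S`, of colour `c` off `w` with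
levels `≥ lev w - D`. -/
def Wit (H : Finset (Finset V)) (D : ℕ) (c : Bool) (B S : Finset V) (w : V) (ω : Cfg V n) : Prop :=
  ∃ A' ∈ H, A' ∩ B = {w} ∧ Disjoint A' S ∧
    ∀ u ∈ A', u ≠ w → col ω u = c ∧ lev ω w ≤ lev ω u + D

/-- normal event at fixed `A, B, v, T, S` -/
def NormalAt (H : Finset (Finset V)) (D : ℕ) (Q : ℝ) (c : Bool) (A B : Finset V) (v : V) (T : ℕ)
    (S : Finset V) (ω : Cfg V n) : Prop :=
  NM ω c B v T ∧ (Nhat H D c B (T - D) ω : ℝ) ≤ (n : ℝ) * Q ∧ (∀ u ∈ A, col ω u = c) ∧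
    (∀ u ∈ S, T ≤ lev ω u + D ∧ lev ω u ≤ T + D) ∧ (∀ u ∈ A, u ∉ S → T ≤ lev ω u) ∧
    (∀ w ∈ B, w ≠ v → col ω w = c → T ≤ lev ω w + D ∨ Wit H D c B S w ω)

def Normal (H : Finset (Finset V)) (r M D : ℕ) (Q : ℝ) (c : Bool) (ω : Cfg V n) : Prop :=
  ∃ A ∈ H, ∃ B ∈ H, ∃ v, A ∩ B = {v} ∧ ∃ T ∈ range M, ∃ S ∈ (A.erase v).powersetCard r,
    NormalAt H D Q c A B v T S ω

/-! ### quantities used for the event `Normal` (they depend only on the coordinates outside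
`A ∪ B`) -/

def out (D : ℕ) (c : Bool) (A B A' : Finset V) (s : ℕ) (ω : Cfg V n) : Prop :=
  ∀ u ∈ A' \ (A ∪ B), col ω u = c ∧ s ≤ lev ω u + D

def NN (H : Finset (Finset V)) (D : ℕ) (c : Bool) (A B : Finset V) (s : ℕ) (ω : Cfg V n) : ℕ :=
  (H.filter (fun A' => (A' ∩ B).card = 1 ∧ out D c A B A' s ω)).card

def UU (H : Finset (Finset V)) (D : ℕ) (c : Bool) (A B S : Finset V) (w : V) (j : ℕ)
    (ω : Cfg V n) : Prop :=
  ∃ A' ∈ H, A' ∩ B = {w} ∧ Disjoint A' S ∧ out D c A B A' j ω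

def ff (H : Finset (Finset V)) (D : ℕ) (c : Bool) (A B : Finset V) (v : V) (S : Finset V) (j : ℕ)
    (ω : Cfg V n) : ℝ :=
  (((B.erase v).filter (fun w => UU H D c A B S w j ω)).card : ℝ) / (n : ℝ)

/-- near edges disjoint from `S` -/
def aS (H : Finset (Finset V)) (D y : ℕ) (c : Bool) (A B S : Finset V) (s : ℕ)
    (ω : Cfg V n) : ℕ :=
  (H.filter (fun A' => (A' \ A).card ≤ y ∧ (A' ∩ B).card = 1 ∧ Disjoint A' S ∧
    out D c A B A' s ω)).card

/-- far edges -/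
def bb (H : Finset (Finset V)) (D y : ℕ) (c : Bool) (A B : Finset V) (s : ℕ)
    (ω : Cfg V n) : ℕ :=
  (H.filter (fun A' => y < (A' \ A).card ∧ (A' ∩ B).card = 1 ∧ out D c A B A' s ω)).card

/-! ### expectation and probability -/

/-- expectation over the uniform configuration -/
def Ex (f : Cfg V n → ℝ) : ℝ := (∑ ω, f ω) / (Fintype.card (Cfg V n) : ℝ)

/-- probability -/
def Pr (p : Cfg V n → Prop) : ℝ := Ex (fun ω => if p ω then (1 : ℝ) else 0)

/-- `f` does not depend on the coordinates in `W` -/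
def IndepOf {α : Type*} (W : Finset V) (f : Cfg V n → α) : Prop :=
  ∀ ω ω' : Cfg V n, (∀ v, v ∉ W → ω v = ω' v) → f ω = f ω'

end Events

end

end PropB
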