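import Pool.Agent.H7.PB.Basic

/-! The deterministic lemma: if no bad event happens then the new colouring is proper. -/

namespace PropB

noncomputable section

open Finset Classical

variable {V : Type*} [Fintype V] [DecidableEq V] {n : ℕ}

/-- lexicographic keys -/
theorem Det_key (l : V → ℕ) :
    ∃ key : V → ℕ, Function.Injective key ∧ ∀ u v, l u < l v → key u < key v := by
  let N := Fintype.card V
  let e : V ≃ Fin N := Fintype.equivFin V
  refine ⟨fun v => l v * N + (e v : ℕ), ?_, ?_⟩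
  · intro u v huv
    have h1 : l u * N + (e u : ℕ) = l v * N + (e v : ℕ) := huv
    have hu := (e u).isLt
    have hv := (e v).isLt
    have hl : l u = l v := by
      rcases lt_trichotomy (l u) (l v) with h | h | h
      · have : (l u + 1) * N ≤ l v * N := Nat.mul_le_mul_right _ h
        rw [add_mul] at this; omega
      · exact h
      · have : (l v + 1) * N ≤ l u * N := Nat.mul_le_mul_right _ h
        rw [add_mul] at this; omega
    rw [hl] at h1
    exact e.injective (Fin.ext (by omega))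
  · intro u v h
    have hu := (e u).isLt
    have : (l u + 1) * N ≤ l v * N := Nat.mul_le_mul_right _ h
    rw [add_mul] at this
    show l u * N + (e u : ℕ) < l v * N + (e v : ℕ)
    omega

omit [Fintype V] in
/-- the `k` lowest vertices -/
theorem Det_lowest (key : V → ℕ) (hk : Function.Injective key) (A : Finset V) (k : ℕ)
    (h : k ≤ A.card) :
    ∃ S ⊆ A, S.card = k ∧ ∀ u ∈ A, u ∉ S → ∀ w ∈ S, key w < key u := by
  induction k with
  | zero => exact ⟨∅, Finset.empty_subset _, rfl, fun u _ _ w hw => absurd hw (by simp)⟩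
  | succ k ih =>
    obtain ⟨S, hSA, hSc, hS⟩ := ih (by omega)
    have hne : (A \ S).Nonempty := by
      rw [← Finset.card_pos, Finset.card_sdiff_of_subset hSA]
      omega
    obtain ⟨x, hx, hmin⟩ := Finset.exists_min_image (A \ S) key hne
    rw [Finset.mem_sdiff] at hx
    refine ⟨insert x S, ?_, ?_, ?_⟩
    · intro y hy
      rcases Finset.mem_insert.mp hy with h | h
      · rw [h]; exact hx.1
      · exact hSA h
    · rw [Finset.card_insert_of_notMem hx.2, hSc]
    · intro u hu huS w hw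
      rw [Finset.mem_insert, not_or] at huS
      rcases Finset.mem_insert.mp hw with h | h
      · rw [h]
        have h1 := hmin u (Finset.mem_sdiff.mpr ⟨hu, huS.2⟩)
        exact lt_of_le_of_ne h1 fun h2 => huS.1 (hk h2).symm
      · exact hS u hu huS.2 w h

omit [Fintype V] in
/-- the set `S A` of flipped vertices of a leader and its tip -/
theorem Det_S (key l : V → ℕ) (hk : Function.Injective key)
    (hl : ∀ u v, l u < l v → key u < key v) (r D : ℕ) (A : Finset V) (h : r + 1 ≤ A.card) :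
    ∃ S : Finset V, ∃ t : V, S ⊆ A ∧ t ∈ S ∧ (∀ u ∈ A, key t ≤ key u) ∧
      (∀ w ∈ S, l w ≤ l t + D) ∧
      ((S.card = r + 1 ∧ ∀ u ∈ A, u ∉ S → ∀ w ∈ S, key w < key u) ∨
        (S = {t} ∧ (A.filter fun u => l u ≤ l t + D).card ≤ r)) := by
  have hAne : A.Nonempty := by rw [← Finset.card_pos]; omega
  obtain ⟨t, htA, ht⟩ := Finset.exists_min_image A key hAne
  obtain ⟨S, hSA, hSc, hS⟩ := Det_lowest key hk A (r + 1) h
  have htS : t ∈ S := by
    by_contra hcon
    have hSne : S.Nonempty := by rw [← Finset.card_pos]; omega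
    obtain ⟨w, hw⟩ := hSne
    exact absurd (hS t htA hcon w hw) (not_lt.mpr (ht w (hSA hw)))
  by_cases hD : ∀ w ∈ S, l w ≤ l t + D
  · exact ⟨S, t, hSA, htS, ht, hD, Or.inl ⟨hSc, hS⟩⟩
  · push Not at hD
    obtain ⟨x, hxS, hx⟩ := hD
    refine ⟨{t}, t, by simpa using htA, by simp, ht, by simp, Or.inr ⟨rfl, ?_⟩⟩
    have h1 : (A.filter fun u => l u ≤ l t + D) ⊆ S.erase x := by
      intro u hu
      rw [Finset.mem_filter] at hu
      rw [Finset.mem_erase]
      refine ⟨fun h2 => by rw [h2] at hu; omega, ?_⟩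
      by_contra hcon
      have h3 := hS u hu.1 hcon x hxS
      have h4 : l u < l x := by omega
      exact absurd (hl u x h4) (not_lt.mpr h3.le)
    have h2 := Finset.card_le_card h1
    rw [Finset.card_erase_of_mem hxS] at h2
    omega

omit [Fintype V] in
/-- greedy choice of the leaders -/
theorem Det_greedy (S : Finset V → Finset V) (κ : Finset V → ℕ) (m : ℕ) :
    ∀ 𝓜 : Finset (Finset V), 𝓜.card = m →
    (∀ A ∈ 𝓜, ∀ A' ∈ 𝓜, κ A = κ A' → ¬ Disjoint A (S A')) →
    ∃ Ld ⊆ 𝓜, (∀ A ∈ 𝓜, ∃ L ∈ Ld, ¬ Disjoint A (S L)) ∧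
      (∀ L ∈ Ld, ∀ L' ∈ Ld, L ≠ L' → κ L' ≤ κ L → Disjoint L' (S L)) := by
  induction m with
  | zero =>
    intro 𝓜 h0 _
    rw [Finset.card_eq_zero] at h0
    subst h0
    exact ⟨∅, Finset.Subset.refl _, fun A hA => absurd hA (by simp),
      fun L hL => absurd hL (by simp)⟩
  | succ m ih =>
    intro 𝓜 hm hκ
    have hne : 𝓜.Nonempty := by rw [← Finset.card_pos]; omega
    obtain ⟨A0, hA0, hmin⟩ := Finset.exists_min_image 𝓜 κ hne
    obtain ⟨Ld, hLd, hL1, hL2⟩ := ih (𝓜.erase A0)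
      (by rw [Finset.card_erase_of_mem hA0]; omega)
      (fun A hA A' hA' => hκ A (Finset.mem_of_mem_erase hA) A' (Finset.mem_of_mem_erase hA'))
    by_cases hdis : ∀ L ∈ Ld, Disjoint A0 (S L)
    · refine ⟨insert A0 Ld, ?_, ?_, ?_⟩
      · intro A hA
        rcases Finset.mem_insert.mp hA with h | h
        · rw [h]; exact hA0
        · exact Finset.mem_of_mem_erase (hLd h)
      · intro A hA
        by_cases hAA : A = A0
        · exact ⟨A0, Finset.mem_insert_self _ _, by rw [hAA]; exact hκ A0 hA0 A0 hA0 rfl⟩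
        · obtain ⟨L, hL, hL'⟩ := hL1 A (Finset.mem_erase.mpr ⟨hAA, hA⟩)
          exact ⟨L, Finset.mem_insert_of_mem hL, hL'⟩
      · intro L hL L' hL' hne' hle
        rcases Finset.mem_insert.mp hL with h | h
        · rcases Finset.mem_insert.mp hL' with h' | h'
          · exact absurd (h.trans h'.symm) hne'
          · exfalso
            have hL'M : L' ∈ 𝓜 := Finset.mem_of_mem_erase (hLd h')
            have h5 : κ A0 = κ L' := le_antisymm (hmin L' hL'M) (by rw [h] at hle; exact hle)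
            exact hκ A0 hA0 L' hL'M h5 (hdis L' h')
        · rcases Finset.mem_insert.mp hL' with h' | h'
          · rw [h']; exact hdis L h
          · exact hL2 L h L' h' hne' hle
    · push Not at hdis
      obtain ⟨L0, hL0, hL0'⟩ := hdis
      refine ⟨Ld, fun A hA => Finset.mem_of_mem_erase (hLd hA), ?_, hL2⟩
      intro A hA
      by_cases hAA : A = A0
      · exact ⟨L0, hL0, by rw [hAA]; exact hL0'⟩
      · exact hL1 A (Finset.mem_erase.mpr ⟨hAA, hA⟩)

theorem det_lemma (H : Finset (Finset V)) (r T1 D : ℕ) (Q : ℝ) (hH : ∀ A ∈ H, A.card = n)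
    (hr : r + 1 ≤ n) (ω : Cfg V n) (h1 : ¬ E1 H T1 ω) (h2 : ¬ E2 H (T1 + D + 1) ω)
    (h3 : ∀ c, ¬ Dense H (T1 + D + 1) D Q c ω) (h4 : ∀ c, ¬ Exc H r (T1 + D + 1) D c ω)
    (h5 : ∀ c, ¬ Normal H r (T1 + D + 1) D Q c ω) : HasPropertyB H := by
  obtain ⟨key, hk, hlt⟩ := Det_key (fun v => lev ω v)
  have hle : ∀ u v, key u ≤ key v → lev ω u ≤ lev ω v := fun u v huv => by
    by_contra hcon
    exact absurd (hlt v u (not_le.mp hcon)) (not_lt.mpr huv)
  -- the sets S A and the tips
  have hS : ∀ A : Finset V, ∃ S : Finset V, ∃ κ : ℕ, A ∈ H → ∃ t : V, κ = key t ∧ S ⊆ A ∧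
      t ∈ S ∧ (∀ u ∈ A, key t ≤ key u) ∧ (∀ w ∈ S, lev ω w ≤ lev ω t + D) ∧
      ((S.card = r + 1 ∧ ∀ u ∈ A, u ∉ S → ∀ w ∈ S, key w < key u) ∨
        (S = {t} ∧ (A.filter fun u => lev ω u ≤ lev ω t + D).card ≤ r)) := by
    intro A
    by_cases hA : A ∈ H
    · obtain ⟨S, t, h⟩ := Det_S key (fun v => lev ω v) hk hlt r D A (by rw [hH A hA]; exact hr)
      exact ⟨S, key t, fun _ => ⟨t, rfl, h⟩⟩
    · exact ⟨∅, 0, fun h => absurd h hA⟩
  choose S κ hSt using hS
  -- leaders
  have hlead : ∀ c : Bool, ∃ Ld ⊆ H.filter (fun A => ∀ v ∈ A, col ω v = c),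
      (∀ A ∈ H.filter (fun A => ∀ v ∈ A, col ω v = c), ∃ L ∈ Ld, ¬ Disjoint A (S L)) ∧
      (∀ L ∈ Ld, ∀ L' ∈ Ld, L ≠ L' → κ L' ≤ κ L → Disjoint L' (S L)) := by
    intro c
    refine Det_greedy S κ _ _ rfl ?_
    intro A hA A' hA' hκ hdis
    obtain ⟨t, ht, hSA, htS, -⟩ := hSt A (Finset.mem_filter.mp hA).1
    obtain ⟨t', ht', hSA', htS', -⟩ := hSt A' (Finset.mem_filter.mp hA').1
    have htt : t = t' := hk (by rw [← ht, ← ht', hκ])
    exact Finset.disjoint_left.mp hdis (hSA htS) (by rw [htt]; exact htS')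
  choose Ld hLdsub hL1 hL2 using hlead
  have hLdH : ∀ c, ∀ L ∈ Ld c, L ∈ H := fun c L hL => (Finset.mem_filter.mp (hLdsub c hL)).1
  have hLdc : ∀ c, ∀ L ∈ Ld c, ∀ v ∈ L, col ω v = c :=
    fun c L hL => (Finset.mem_filter.mp (hLdsub c hL)).2
  -- flipped vertices
  let F : V → Prop := fun v => ∃ c, ∃ L ∈ Ld c, v ∈ S L
  have hFcol : ∀ v c, (∃ L ∈ Ld c, v ∈ S L) → col ω v = c := by
    rintro v c ⟨L, hL, hv⟩
    obtain ⟨t, -, hSA, -⟩ := hSt L (hLdH c L hL)
    exact hLdc c L hL v (hSA hv)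
  let χ : V → Bool := fun v => if F v then !(col ω v) else col ω v
  have hχF : ∀ v, F v → χ v = !(col ω v) := fun v hv => if_pos hv
  have hχN : ∀ v, ¬ F v → χ v = col ω v := fun v hv => if_neg hv
  suffices hmain : ∀ B ∈ H, ∀ c : Bool, ∃ v ∈ B, χ v = c from
    ⟨χ, fun A hA => ⟨hmain A hA true, hmain A hA false⟩⟩
  intro B hB c
  by_contra hcon
  push Not at hcon
  -- every vertex of B of old colour c lies in S L for a leader L of colour c
  have hY : ∀ w ∈ B, col ω w = c → ∃ L ∈ Ld c, w ∈ S L := by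
    intro w hw hwc
    by_contra hno
    have : ¬ F w := by
      rintro ⟨c', L, hL, hwL⟩
      have hc' : col ω w = c' := hFcol w c' ⟨L, hL, hwL⟩
      rw [hwc] at hc'
      subst hc'
      exact hno ⟨L, hL, hwL⟩
    exact hcon w hw ((hχN w this).trans hwc)
  have hYne : (B.filter fun w => col ω w = c).Nonempty := by
    by_contra hemp
    rw [Finset.not_nonempty_iff_eq_empty] at hemp
    have hBc : ∀ v ∈ B, col ω v = !c := by
      intro v hv
      have hvn : col ω v ≠ c := fun h => by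
        have : v ∈ (B.filter fun w => col ω w = c) := Finset.mem_filter.mpr ⟨hv, h⟩
        rw [hemp] at this
        exact absurd this (by simp)
      exact Bool.eq_not.mpr hvn
    obtain ⟨L, hL, hdis⟩ := hL1 (!c) B (Finset.mem_filter.mpr ⟨hB, hBc⟩)
    rw [Finset.not_disjoint_iff] at hdis
    obtain ⟨v, hvB, hvL⟩ := hdis
    refine hcon v hvB ?_
    rw [hχF v ⟨!c, L, hL, hvL⟩, hBc v hvB, Bool.not_not]
  choose! Lw hLw hwL using hY
  -- facts on the edges Lw
  have htip : ∀ w ∈ B, col ω w = c → ∃ t, κ (Lw w) = key t ∧ S (Lw w) ⊆ Lw w ∧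
      t ∈ S (Lw w) ∧ (∀ u ∈ Lw w, key t ≤ key u) ∧
      (∀ x ∈ S (Lw w), lev ω x ≤ lev ω t + D) ∧
      ((S (Lw w)).card = r + 1 ∧ (∀ u ∈ Lw w, u ∉ S (Lw w) → ∀ x ∈ S (Lw w), key x < key u) ∨
        (S (Lw w) = {t} ∧ ((Lw w).filter fun u => lev ω u ≤ lev ω t + D).card ≤ r)) :=
    fun w hw hwc => hSt (Lw w) (hLdH c _ (hLw w hw hwc))
  have htT1 : ∀ w ∈ B, col ω w = c → ∀ t, (∀ u ∈ Lw w, key t ≤ key u) → lev ω t < T1 := by
    intro w hw hwc t ht
    by_contra hge
    refine h1 ⟨c, Lw w, hLdH c _ (hLw w hw hwc), fun u hu => ⟨hLdc c _ (hLw w hw hwc) u hu, ?_⟩⟩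
    exact (not_lt.mp hge).trans (hle t u (ht u hu))
  have hlevM : ∀ w ∈ B, col ω w = c → lev ω w < T1 + D + 1 := by
    intro w hw hwc
    obtain ⟨t, -, -, -, ht, htD, -⟩ := htip w hw hwc
    have ha := htD w (hwL w hw hwc)
    have hb := htT1 w hw hwc t ht
    omega
  have hint : ∀ w ∈ B, col ω w = c → Lw w ∩ B = {w} := by
    intro w hw hwc
    obtain ⟨t, -, hSA, -⟩ := htip w hw hwc
    have hwin : w ∈ Lw w ∩ B := Finset.mem_inter.mpr ⟨hSA (hwL w hw hwc), hw⟩
    have hcard : (Lw w ∩ B).card < 2 := by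
      by_contra hge
      exact h2 ⟨c, Lw w, hLdH c _ (hLw w hw hwc), B, hB, not_lt.mp hge,
        hLdc c _ (hLw w hw hwc), fun v hv hvc => hlevM v hv hvc⟩
    obtain ⟨x, hx⟩ := Finset.card_eq_one.mp (by
      have := Finset.card_pos.mpr ⟨w, hwin⟩
      omega : (Lw w ∩ B).card = 1)
    rw [hx] at hwin ⊢
    rw [Finset.mem_singleton.mp hwin]
  -- the vertex v with the largest key
  obtain ⟨v, hv, hvmax⟩ := Finset.exists_max_image (B.filter fun w => col ω w = c) key hYne
  rw [Finset.mem_filter] at hv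
  obtain ⟨hvB, hvc⟩ := hv
  obtain ⟨t, htκ, hSA, htS, htmin, htD, hcases⟩ := htip v hvB hvc
  have hAH : Lw v ∈ H := hLdH c _ (hLw v hvB hvc)
  have hvS : v ∈ S (Lw v) := hwL v hvB hvc
  have hvA : v ∈ Lw v := hSA hvS
  have hTs : lev ω v ≤ lev ω t + D := htD v hvS
  have hsT : lev ω t ≤ lev ω v := hle t v (htmin v hvA)
  have hNM : NM ω c B v (lev ω v) := by
    refine ⟨hvB, hvc, rfl, fun w hw _ hwc => hle w v (hvmax w (Finset.mem_filter.mpr ⟨hw, hwc⟩))⟩
  have hTM : lev ω v ∈ range (T1 + D + 1) := Finset.mem_range.mpr (hlevM v hvB hvc)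
  have hNhat : (Nhat H D c B (lev ω v - D) ω : ℝ) ≤ (n : ℝ) * Q := by
    by_contra hgt
    exact h3 c ⟨B, hB, lev ω v, hTM, ⟨v, hvB, hNM⟩, not_le.mp hgt⟩
  have hmono : ∀ u ∈ Lw v, col ω u = c := hLdc c _ (hLw v hvB hvc)
  rcases hcases with ⟨hcard, hlow⟩ | ⟨hsing, hcard⟩
  · -- normal case
    refine h5 c ⟨Lw v, hAH, B, hB, v, hint v hvB hvc, lev ω v, hTM, (S (Lw v)).erase v, ?_,
      hNM, hNhat, hmono, ?_, ?_, ?_⟩
    · rw [Finset.mem_powersetCard]
      refine ⟨Finset.erase_subset_erase _ hSA, ?_⟩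
      rw [Finset.card_erase_of_mem hvS, hcard]
      rfl
    · intro u hu
      have huS := Finset.mem_of_mem_erase hu
      have ha := hle t u (htmin u (hSA huS))
      have hb := htD u huS
      constructor <;> omega
    · intro u hu huS
      by_cases huv : u = v
      · rw [huv]
      · have : u ∉ S (Lw v) := fun h => huS (Finset.mem_erase.mpr ⟨huv, h⟩)
        exact hle v u (hlow u hu this v hvS).le
    · intro w hw _ hwc
      by_cases hwT : lev ω v ≤ lev ω w + D
      · exact Or.inl hwT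
      · right
        obtain ⟨t', ht'κ, hSA', htS', htmin', htD', -⟩ := htip w hw hwc
        have hwA' : w ∈ Lw w := hSA' (hwL w hw hwc)
        have ha : lev ω t' ≤ lev ω w := hle t' w (htmin' w hwA')
        have hb : lev ω t' < lev ω t := by omega
        have hc := hlt t' t hb
        have hne : Lw v ≠ Lw w := by
          intro heq
          have h6 := htmin t' (by rw [heq]; exact hSA' htS')
          omega
        have hdis := hL2 c (Lw v) (hLw v hvB hvc) (Lw w) (hLw w hw hwc) hne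
          (by rw [htκ, ht'κ]; exact hc.le)
        refine ⟨Lw w, hLdH c _ (hLw w hw hwc), hint w hw hwc,
          Finset.disjoint_of_subset_right (Finset.erase_subset _ _) hdis, ?_⟩
        intro u hu _
        refine ⟨hLdc c _ (hLw w hw hwc) u hu, ?_⟩
        have h7 := htD' w (hwL w hw hwc)
        have h8 := hle t' u (htmin' u hu)
        omega
  · -- exceptional case
    have hvt : v = t := by
      rw [hsing] at hvS
      exact Finset.mem_singleton.mp hvS
    refine h4 c ⟨Lw v, hAH, B, hB, v, hint v hvB hvc, lev ω v, hTM, hNM,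
      fun u hu => ⟨hmono u hu, ?_⟩, ?_⟩
    · have := hle t u (htmin u hu)
      rw [← hvt] at this
      exact this
    · rw [← hvt] at hcard
      have hmem : v ∈ (Lw v).filter fun u => lev ω u ≤ lev ω v + D :=
        Finset.mem_filter.mpr ⟨hvA, by omega⟩
      have heq : ((Lw v).erase v).filter (fun u => lev ω u ≤ lev ω v + D)
          = ((Lw v).filter fun u => lev ω u ≤ lev ω v + D).erase v := by
        ext u
        simp only [Finset.mem_filter, Finset.mem_erase]
        tauto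
      rw [heq, Finset.card_erase_of_mem hmem]
      have := Finset.card_pos.mpr ⟨v, hmem⟩
      omega

end

end PropB
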