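import Pool.Agent.H7.PB.Basic

/-! Module N2: the deterministic summation inequality. -/

namespace PropB

noncomputable section

open Finset Classical

variable {V : Type*} [Fintype V] [DecidableEq V] {n : ℕ}

theorem N2_shift (M D : ℕ) (g : ℕ → ℝ) (h0 : ∀ s, 0 ≤ g s) (h1 : g 0 ≤ 1) :
    ∑ T ∈ range M, g (T - D) ≤ (D : ℝ) + ∑ s ∈ range M, g s := by
  have hpos : ∀ k : ℕ, 0 ≤ ∑ s ∈ range k, g s := fun k => Finset.sum_nonneg (fun s _ => h0 s)
  rcases Nat.le_total M D with hMD | hMD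
  · have e1 : ∑ T ∈ range M, g (T - D) ≤ ∑ T ∈ range M, (1 : ℝ) := by
      apply Finset.sum_le_sum
      intro T hT
      have : T - D = 0 := by
        have := Finset.mem_range.mp hT
        omega
      rw [this]
      exact h1
    have e2 : ∑ T ∈ range M, (1 : ℝ) = (M : ℝ) := by simp
    have e3 : (M : ℝ) ≤ (D : ℝ) := by exact_mod_cast hMD
    have := hpos M
    linarith
  · obtain ⟨m, rfl⟩ := Nat.exists_eq_add_of_le hMD
    rw [Finset.sum_range_add]
    have e1 : ∑ T ∈ range D, g (T - D) ≤ ∑ T ∈ range D, (1 : ℝ) := by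
      apply Finset.sum_le_sum
      intro T hT
      have : T - D = 0 := by
        have := Finset.mem_range.mp hT
        omega
      rw [this]
      exact h1
    have e2 : ∑ T ∈ range D, (1 : ℝ) = (D : ℝ) := by simp
    have e3 : ∑ i ∈ range m, g (D + i - D) = ∑ i ∈ range m, g i := by
      apply Finset.sum_congr rfl
      intro i _
      congr 1
      omega
    have e4 : ∑ i ∈ range m, g i ≤ ∑ i ∈ range (D + m), g i := by
      apply Finset.sum_le_sum_of_subset_of_nonneg
      · intro i hi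
        have := Finset.mem_range.mp hi
        exact Finset.mem_range.mpr (by omega)
      · intro i _ _
        exact h0 i
    linarith

theorem N2_half : Real.exp (-(1 / 2 : ℝ)) ≤ 2 / 3 := by
  have h1 : (3 / 2 : ℝ) ≤ Real.exp (1 / 2) := by
    have := Real.add_one_le_exp (1 / 2 : ℝ)
    linarith
  rw [Real.exp_neg]
  have h2 : (Real.exp (1 / 2))⁻¹ ≤ (3 / 2 : ℝ)⁻¹ := by
    apply inv_anti₀ (by norm_num) h1
  calc (Real.exp (1 / 2))⁻¹ ≤ (3 / 2 : ℝ)⁻¹ := h2
    _ = 2 / 3 := by norm_num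

theorem N2_tail (M : ℕ) (f : ℕ → ℝ) (h1 : ∀ j, f j ≤ 1) :
    ∑ s ∈ range M, (if f s < 1 / 2 then Real.exp (-∑ j ∈ range s, (1 - f j)) else 0) ≤ 3 := by
  set h : ℕ → ℝ := fun s => Real.exp (-∑ j ∈ range s, (1 - f j)) with hh
  have hstep : ∀ s, h (s + 1) = h s * Real.exp (-(1 - f s)) := by
    intro s
    simp only [hh]
    rw [Finset.sum_range_succ, ← Real.exp_add]
    congr 1
    ring
  have hpos : ∀ s, 0 < h s := fun s => Real.exp_pos _
  have hterm : ∀ s, (if f s < 1 / 2 then h s else 0) ≤ 3 * (h s - h (s + 1)) := by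
    intro s
    split_ifs with hs
    · have e1 : Real.exp (-(1 - f s)) ≤ 2 / 3 := by
        refine le_trans (Real.exp_le_exp.mpr ?_) N2_half
        linarith
      rw [hstep s]
      have e2 : h s * Real.exp (-(1 - f s)) ≤ h s * (2 / 3) :=
        mul_le_mul_of_nonneg_left e1 (hpos s).le
      linarith
    · have e1 : Real.exp (-(1 - f s)) ≤ 1 := by
        apply Real.exp_le_one_iff.mpr
        have := h1 s
        linarith
      rw [hstep s]
      have e2 : h s * Real.exp (-(1 - f s)) ≤ h s * 1 :=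
        mul_le_mul_of_nonneg_left e1 (hpos s).le
      linarith
  have hsum : ∑ s ∈ range M, (if f s < 1 / 2 then h s else 0) ≤
      ∑ s ∈ range M, 3 * (h s - h (s + 1)) := Finset.sum_le_sum (fun s _ => hterm s)
  have htel : ∑ s ∈ range M, 3 * (h s - h (s + 1)) = 3 * (h 0 - h M) := by
    rw [← Finset.mul_sum, Finset.sum_range_sub']
  have h00 : h 0 = 1 := by simp [hh]
  have hM := hpos M
  calc ∑ s ∈ range M, (if f s < 1 / 2 then h s else 0) ≤ 3 * (h 0 - h M) := by
        rw [← htel]; exact hsum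
    _ ≤ 3 := by rw [h00]; linarith

/-- N2 -/
theorem sum_exp_le (M D : ℕ) (f : ℕ → ℝ) (hf : Antitone f) (h0 : ∀ j, 0 ≤ f j)
    (h1 : ∀ j, f j ≤ 1) (P : ℕ → Prop) :
    ∑ T ∈ range M, (if P (T - D) then Real.exp (-∑ j ∈ range (T - D), (1 - f j)) else 0) ≤
      (D : ℝ) + 3 + ∑ s ∈ range M, (if P s ∧ 1 / 2 ≤ f s then (1 : ℝ) else 0) := by
  set g : ℕ → ℝ := fun s => if P s then Real.exp (-∑ j ∈ range s, (1 - f j)) else 0 with hg
  have hle1 : ∀ s, Real.exp (-∑ j ∈ range s, (1 - f j)) ≤ 1 := by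
    intro s
    apply Real.exp_le_one_iff.mpr
    have : 0 ≤ ∑ j ∈ range s, (1 - f j) :=
      Finset.sum_nonneg (fun j _ => by have := h1 j; linarith)
    linarith
  have hg0 : ∀ s, 0 ≤ g s := by
    intro s
    simp only [hg]
    split_ifs
    · exact (Real.exp_pos _).le
    · exact le_refl _
  have hg1 : ∀ s, g s ≤ 1 := by
    intro s
    simp only [hg]
    split_ifs
    · exact hle1 s
    · exact zero_le_one
  have hshift := N2_shift M D g hg0 (hg1 0)
  have hterm : ∀ s, g s ≤ (if f s < 1 / 2 then Real.exp (-∑ j ∈ range s, (1 - f j)) else 0) +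
      (if P s ∧ 1 / 2 ≤ f s then (1 : ℝ) else 0) := by
    intro s
    have hx := hle1 s
    have hx0 := (Real.exp_pos (-∑ j ∈ range s, (1 - f j))).le
    simp only [hg]
    by_cases hP : P s
    · by_cases hs : f s < 1 / 2
      · have hn : ¬ (P s ∧ 1 / 2 ≤ f s) := fun h => absurd h.2 (not_le.mpr hs)
        rw [if_pos hP, if_pos hs, if_neg hn]
        linarith
      · have hn : (P s ∧ 1 / 2 ≤ f s) := ⟨hP, not_lt.mp hs⟩
        rw [if_pos hP, if_neg hs, if_pos hn]
        linarith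
    · have hn : ¬ (P s ∧ 1 / 2 ≤ f s) := fun h => hP h.1
      rw [if_neg hP, if_neg hn]
      split_ifs
      · linarith
      · linarith
  have hsum : ∑ s ∈ range M, g s ≤
      ∑ s ∈ range M, (if f s < 1 / 2 then Real.exp (-∑ j ∈ range s, (1 - f j)) else 0) +
      ∑ s ∈ range M, (if P s ∧ 1 / 2 ≤ f s then (1 : ℝ) else 0) := by
    rw [← Finset.sum_add_distrib]
    exact Finset.sum_le_sum (fun s _ => hterm s)
  have htail := N2_tail M f h1
  calc ∑ T ∈ range M, (if P (T - D) then Real.exp (-∑ j ∈ range (T - D), (1 - f j)) else 0)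
      = ∑ T ∈ range M, g (T - D) := rfl
    _ ≤ (D : ℝ) + ∑ s ∈ range M, g s := hshift
    _ ≤ (D : ℝ) + 3 + ∑ s ∈ range M, (if P s ∧ 1 / 2 ≤ f s then (1 : ℝ) else 0) := by linarith

end

end PropB
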