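import Pool.Agent.H7.PB.Basic

/-! Module N3: elementary properties of ff, and the splitting near / far. -/

namespace PropB

noncomputable section

open Finset Classical

variable {V : Type*} [Fintype V] [DecidableEq V] {n : ℕ}

theorem N3_out_mono (D : ℕ) (c : Bool) (A B A' : Finset V) {s t : ℕ} (hst : s ≤ t)
    (ω : Cfg V n) (h : out D c A B A' t ω) : out D c A B A' s ω :=
  fun u hu => ⟨(h u hu).1, le_trans hst (h u hu).2⟩

theorem N3_UU_mono (H : Finset (Finset V)) (D : ℕ) (c : Bool) (A B S : Finset V) (w : V)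
    {s t : ℕ} (hst : s ≤ t) (ω : Cfg V n) (h : UU H D c A B S w t ω) :
    UU H D c A B S w s ω := by
  obtain ⟨A', h1, h2, h3, h4⟩ := h
  exact ⟨A', h1, h2, h3, N3_out_mono D c A B A' hst ω h4⟩

/-- N3 -/
theorem ff_antitone (H : Finset (Finset V)) (D : ℕ) (c : Bool) (A B : Finset V) (v : V)
    (S : Finset V) (ω : Cfg V n) : Antitone (fun j => ff H D c A B v S j ω) := by
  intro s t hst
  simp only [ff]
  apply div_le_div_of_nonneg_right _ (Nat.cast_nonneg n)
  have : ((B.erase v).filter (fun w => UU H D c A B S w t ω)).card ≤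
      ((B.erase v).filter (fun w => UU H D c A B S w s ω)).card := by
    apply Finset.card_le_card
    intro w hw
    rw [Finset.mem_filter] at hw ⊢
    exact ⟨hw.1, N3_UU_mono H D c A B S w hst ω hw.2⟩
  exact_mod_cast this

theorem ff_nonneg (H : Finset (Finset V)) (D : ℕ) (c : Bool) (A B : Finset V) (v : V)
    (S : Finset V) (j : ℕ) (ω : Cfg V n) : 0 ≤ ff H D c A B v S j ω := by
  unfold ff
  exact div_nonneg (Nat.cast_nonneg _) (Nat.cast_nonneg _)

theorem ff_le_one (H : Finset (Finset V)) (D : ℕ) (c : Bool) (A B : Finset V) (v : V)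
    (S : Finset V) (j : ℕ) (ω : Cfg V n) (hB : B.card = n) : ff H D c A B v S j ω ≤ 1 := by
  unfold ff
  apply div_le_one_of_le₀ _ (Nat.cast_nonneg n)
  have h1 : ((B.erase v).filter (fun w => UU H D c A B S w j ω)).card ≤ n := by
    calc ((B.erase v).filter (fun w => UU H D c A B S w j ω)).card
        ≤ (B.erase v).card := Finset.card_filter_le _ _
      _ ≤ B.card := Finset.card_erase_le
      _ = n := hB
  exact_mod_cast h1

theorem N3_card (H : Finset (Finset V)) (D y : ℕ) (c : Bool) (A B : Finset V) (v : V)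
    (S : Finset V) (s : ℕ) (ω : Cfg V n) :
    ((B.erase v).filter (fun w => UU H D c A B S w s ω)).card ≤
      aS H D y c A B S s ω + bb H D y c A B s ω := by
  set X := (B.erase v).filter (fun w => UU H D c A B S w s ω) with hX
  have hch : ∀ w : V, ∃ A' : Finset V, w ∈ X →
      (A' ∈ H ∧ A' ∩ B = {w} ∧ Disjoint A' S ∧ out D c A B A' s ω) := by
    intro w
    by_cases hw : w ∈ X
    · obtain ⟨A', h1, h2, h3, h4⟩ := (Finset.mem_filter.mp hw).2
      exact ⟨A', fun _ => ⟨h1, h2, h3, h4⟩⟩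
    · exact ⟨∅, fun h => absurd h hw⟩
  choose φ hφ using hch
  have hinj : Set.InjOn φ (X : Set V) := by
    intro w hw w' hw' he
    have e1 := (hφ w hw).2.1
    have e2 := (hφ w' hw').2.1
    rw [he, e2] at e1
    exact (Finset.singleton_injective e1).symm
  have hsub : X.image φ ⊆
      (H.filter (fun A' => (A' \ A).card ≤ y ∧ (A' ∩ B).card = 1 ∧ Disjoint A' S ∧
        out D c A B A' s ω)) ∪
      (H.filter (fun A' => y < (A' \ A).card ∧ (A' ∩ B).card = 1 ∧ out D c A B A' s ω)) := by
    intro A' hA'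
    obtain ⟨w, hw, rfl⟩ := Finset.mem_image.mp hA'
    obtain ⟨h1, h2, h3, h4⟩ := hφ w hw
    have hc : (φ w ∩ B).card = 1 := by rw [h2]; exact Finset.card_singleton w
    rw [Finset.mem_union, Finset.mem_filter, Finset.mem_filter]
    by_cases hy : (φ w \ A).card ≤ y
    · exact Or.inl ⟨h1, hy, hc, h3, h4⟩
    · exact Or.inr ⟨h1, not_le.mp hy, hc, h4⟩
  have hcard : X.card = (X.image φ).card := (Finset.card_image_of_injOn hinj).symm
  rw [hcard]
  refine le_trans (Finset.card_le_card hsub) ?_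
  exact Finset.card_union_le _ _

theorem half_le (hn : 0 < n) (H : Finset (Finset V)) (D y : ℕ) (c : Bool) (A B : Finset V) (v : V)
    (S : Finset V) (s : ℕ) (ω : Cfg V n) (h : 1 / 2 ≤ ff H D c A B v S s ω) :
    (n : ℝ) / 4 ≤ (aS H D y c A B S s ω : ℝ) ∨ (n : ℝ) / 4 ≤ (bb H D y c A B s ω : ℝ) := by
  have hn' : (0 : ℝ) < n := by exact_mod_cast hn
  have h1 : (((B.erase v).filter (fun w => UU H D c A B S w s ω)).card : ℝ) ≤
      (aS H D y c A B S s ω : ℝ) + (bb H D y c A B s ω : ℝ) := by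
    exact_mod_cast N3_card H D y c A B v S s ω
  have h2 : (n : ℝ) / 2 ≤ (((B.erase v).filter (fun w => UU H D c A B S w s ω)).card : ℝ) := by
    unfold ff at h
    rw [le_div_iff₀ hn'] at h
    linarith
  by_contra hcon
  push Not at hcon
  obtain ⟨ha, hb⟩ := hcon
  linarith

end

end PropB
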