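import Pool.Agent.H7.PB.Basic

/-! # Module N4: the near edges, summed over the sets `S` -/

namespace PropB

noncomputable section

open Finset Classical

variable {V : Type*} [Fintype V] [DecidableEq V] {n : ℕ}

/-- The number of `r`-subsets of `A.erase v` which are disjoint from a near edge. -/
theorem N4_card (A A' : Finset V) (v : V) (r y : ℕ) (hA : A.card = n) (hA' : A'.card = n)
    (hy : (A' \ A).card ≤ y) :
    (((A.erase v).powersetCard r).filter (fun S => Disjoint A' S)).card ≤ y ^ r := by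
  have h1 : ((A.erase v).powersetCard r).filter (fun S => Disjoint A' S) ⊆
      (A \ A').powersetCard r := by
    intro S hS
    rw [mem_filter, mem_powersetCard] at hS
    rw [mem_powersetCard]
    refine ⟨fun u hu => ?_, hS.1.2⟩
    rw [mem_sdiff]
    exact ⟨mem_of_mem_erase (hS.1.1 hu), fun h => (Finset.disjoint_left.mp hS.2) h hu⟩
  have h2 : (A \ A').card ≤ y := by
    have e1 := Finset.card_sdiff_add_card_inter A A'
    have e2 := Finset.card_sdiff_add_card_inter A' A
    rw [Finset.inter_comm] at e2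
    omega
  calc (((A.erase v).powersetCard r).filter (fun S => Disjoint A' S)).card
      ≤ ((A \ A').powersetCard r).card := card_le_card h1
    _ = (A \ A').card.choose r := card_powersetCard _ _
    _ ≤ (A \ A').card ^ r := Nat.choose_le_pow _ _
    _ ≤ y ^ r := Nat.pow_le_pow_left h2 r

/-- Double counting. -/
theorem N4_sum (H : Finset (Finset V)) (hH : ∀ A ∈ H, A.card = n) (r D y : ℕ) (c : Bool)
    (A B : Finset V) (v : V) (hA : A ∈ H) (s : ℕ) (ω : Cfg V n) :
    ∑ S ∈ (A.erase v).powersetCard r, aS H D y c A B S s ω ≤ NN H D c A B s ω * y ^ r := by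
  have h1 : ∀ S : Finset V, aS H D y c A B S s ω =
      ∑ A' ∈ H.filter (fun A' => (A' \ A).card ≤ y ∧ (A' ∩ B).card = 1 ∧ out D c A B A' s ω),
        if Disjoint A' S then 1 else 0 := by
    intro S
    unfold aS
    rw [Finset.card_eq_sum_ones, Finset.sum_filter, Finset.sum_filter]
    apply Finset.sum_congr rfl
    intro A' _
    by_cases a1 : (A' \ A).card ≤ y <;> by_cases a2 : (A' ∩ B).card = 1 <;>
      by_cases a3 : Disjoint A' S <;> by_cases a4 : out D c A B A' s ω <;> simp [a1, a2, a3, a4]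
  rw [Finset.sum_congr rfl fun S _ => h1 S, Finset.sum_comm]
  have h2 : ∀ A' ∈ H.filter (fun A' => (A' \ A).card ≤ y ∧ (A' ∩ B).card = 1 ∧
      out D c A B A' s ω),
      (∑ S ∈ (A.erase v).powersetCard r, if Disjoint A' S then 1 else 0) ≤ y ^ r := by
    intro A' hA'
    rw [mem_filter] at hA'
    rw [← Finset.sum_filter, ← Finset.card_eq_sum_ones]
    exact N4_card A A' v r y (hH A hA) (hH A' hA'.1) hA'.2.1
  calc (∑ A' ∈ H.filter (fun A' => (A' \ A).card ≤ y ∧ (A' ∩ B).card = 1 ∧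
        out D c A B A' s ω), ∑ S ∈ (A.erase v).powersetCard r, if Disjoint A' S then 1 else 0)
      ≤ ∑ A' ∈ H.filter (fun A' => (A' \ A).card ≤ y ∧ (A' ∩ B).card = 1 ∧
        out D c A B A' s ω), y ^ r := Finset.sum_le_sum h2
    _ = (H.filter (fun A' => (A' \ A).card ≤ y ∧ (A' ∩ B).card = 1 ∧
        out D c A B A' s ω)).card * y ^ r := by rw [Finset.sum_const, smul_eq_mul]
    _ ≤ NN H D c A B s ω * y ^ r := by
        apply Nat.mul_le_mul_right
        unfold NN
        apply card_le_card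
        intro A' hA'
        rw [mem_filter] at hA' ⊢
        exact ⟨hA'.1, hA'.2.2⟩

/-- N4 -/
theorem near_sum (hn : 0 < n) (H : Finset (Finset V)) (hH : ∀ A ∈ H, A.card = n) (r D y : ℕ)
    (Q : ℝ) (hQ : 0 < Q) (c : Bool) (A B : Finset V) (v : V) (hA : A ∈ H) (s : ℕ)
    (ω : Cfg V n) :
    ∑ S ∈ (A.erase v).powersetCard r,
      (if (NN H D c A B s ω : ℝ) ≤ (n : ℝ) * Q ∧ (n : ℝ) / 4 ≤ (aS H D y c A B S s ω : ℝ)
        then (1 : ℝ) else 0) ≤ 4 * Q * (y : ℝ) ^ r := by
  have hn0 : (0 : ℝ) < n := by exact_mod_cast hn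
  by_cases hN : (NN H D c A B s ω : ℝ) ≤ (n : ℝ) * Q
  · have h1 : ∀ S ∈ (A.erase v).powersetCard r,
        (if (NN H D c A B s ω : ℝ) ≤ (n : ℝ) * Q ∧ (n : ℝ) / 4 ≤ (aS H D y c A B S s ω : ℝ)
          then (1 : ℝ) else 0) ≤ 4 / (n : ℝ) * (aS H D y c A B S s ω : ℝ) := by
      intro S _
      split_ifs with h
      · rw [div_mul_eq_mul_div, le_div_iff₀ hn0]
        linarith [h.2]
      · positivity
    refine (Finset.sum_le_sum h1).trans ?_
    rw [← Finset.mul_sum]
    have h2 : (∑ S ∈ (A.erase v).powersetCard r, (aS H D y c A B S s ω : ℝ)) ≤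
        (NN H D c A B s ω : ℝ) * (y : ℝ) ^ r := by
      exact_mod_cast N4_sum H hH r D y c A B v hA s ω
    have h3 : (NN H D c A B s ω : ℝ) * (y : ℝ) ^ r ≤ (n : ℝ) * Q * (y : ℝ) ^ r :=
      mul_le_mul_of_nonneg_right hN (by positivity)
    calc 4 / (n : ℝ) * ∑ S ∈ (A.erase v).powersetCard r, (aS H D y c A B S s ω : ℝ)
        ≤ 4 / (n : ℝ) * ((n : ℝ) * Q * (y : ℝ) ^ r) :=
          mul_le_mul_of_nonneg_left (h2.trans h3) (by positivity)
      _ = 4 * Q * (y : ℝ) ^ r := by
          field_simp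
  · have h1 : ∑ S ∈ (A.erase v).powersetCard r,
        (if (NN H D c A B s ω : ℝ) ≤ (n : ℝ) * Q ∧ (n : ℝ) / 4 ≤ (aS H D y c A B S s ω : ℝ)
          then (1 : ℝ) else 0) = 0 := by
      apply Finset.sum_eq_zero
      intro S _
      rw [if_neg]
      exact fun h => hN h.1
    rw [h1]
    positivity

end

end PropB
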