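import Pool.Agent.H7.PB.Basic

/-! # Module N5 of property B: far edges (`far_bound`), written by helper17. -/

namespace PropB

noncomputable section

open Finset Classical

variable {V : Type*} [Fintype V] [DecidableEq V] {n : ℕ}

/-- the far edges meeting `B` in one vertex -/
def N5F (H : Finset (Finset V)) (y : ℕ) (A B : Finset V) : Finset (Finset V) :=
  H.filter (fun A' => y < (A' \ A).card ∧ (A' ∩ B).card = 1)

theorem N5_bb_eq (H : Finset (Finset V)) (D y : ℕ) (c : Bool) (A B : Finset V) (s : ℕ)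
    (ω : Cfg V n) : (bb H D y c A B s ω : ℝ) =
      ∑ A' ∈ N5F H y A B, (if out D c A B A' s ω then (1 : ℝ) else 0) := by
  rw [Finset.sum_boole]
  unfold bb N5F
  rw [Finset.filter_filter]
  congr 2
  ext A'
  simp only [Finset.mem_filter]
  tauto

theorem N5_out_mono (D : ℕ) (c : Bool) (A B A' : Finset V) {s s' : ℕ} (h : s ≤ s') (ω : Cfg V n)
    (ho : out D c A B A' s' ω) : out D c A B A' s ω :=
  fun u hu => ⟨(ho u hu).1, h.trans (ho u hu).2⟩

theorem N5_bb_anti (H : Finset (Finset V)) (D y : ℕ) (c : Bool) (A B : Finset V) {s s' : ℕ}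
    (h : s ≤ s') (ω : Cfg V n) : bb H D y c A B s' ω ≤ bb H D y c A B s ω := by
  unfold bb
  refine Finset.card_le_card (fun A' hA' => ?_)
  rw [Finset.mem_filter] at hA' ⊢
  exact ⟨hA'.1, hA'.2.1, hA'.2.2.1, N5_out_mono D c A B A' h ω hA'.2.2.2⟩

/-- replace the coordinates in `Z` by colour `c` and the top level -/
def N5r (hn : 0 < n) (c : Bool) (Z : Finset V) (ω : Cfg V n) : Cfg V n :=
  fun v => if v ∈ Z then (c, ⟨n - 1, Nat.sub_lt hn one_pos⟩) else ω v

theorem N5_r_eq (hn : 0 < n) (c : Bool) (Z : Finset V) (ω ω' : Cfg V n)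
    (h : ∀ v, v ∉ Z → ω v = ω' v) : N5r hn c Z ω = N5r hn c Z ω' := by
  funext v
  unfold N5r
  by_cases hv : v ∈ Z
  · rw [if_pos hv, if_pos hv]
  · rw [if_neg hv, if_neg hv, h v hv]

theorem N5_bb_r (hn : 0 < n) (H : Finset (Finset V)) (D y : ℕ) (c : Bool) (A B A' : Finset V)
    (s s' : ℕ) (hs : s < n) (hss : s ≤ s') (ω : Cfg V n) (ho : out D c A B A' s' ω) :
    bb H D y c A B s (N5r hn c (A' \ (A ∪ B)) ω) = bb H D y c A B s ω := by
  have key : ∀ A'' : Finset V, out D c A B A'' s (N5r hn c (A' \ (A ∪ B)) ω) ↔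
      out D c A B A'' s ω := by
    intro A''
    unfold out
    refine forall₂_congr (fun u _ => ?_)
    by_cases hu : u ∈ A' \ (A ∪ B)
    · have h1 : N5r hn c (A' \ (A ∪ B)) ω u = (c, ⟨n - 1, Nat.sub_lt hn one_pos⟩) := by
        unfold N5r; rw [if_pos hu]
      have h2 := ho u hu
      unfold col lev at *
      rw [h1]
      simp only
      constructor
      · intro _
        exact ⟨h2.1, hss.trans h2.2⟩
      · intro _
        exact ⟨trivial, by omega⟩
    · have h1 : N5r hn c (A' \ (A ∪ B)) ω u = ω u := by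
        unfold N5r; rw [if_neg hu]
      unfold col lev
      rw [h1]
  unfold bb
  congr 1
  ext A''
  simp only [Finset.mem_filter, key A'']

/-- the allowed values of a coordinate -/
def N5P (n D : ℕ) (c : Bool) (s : ℕ) : Finset (Bool × Fin n) :=
  (univ : Finset (Bool × Fin n)).filter (fun x => x.1 = c ∧ s - D ≤ (x.2 : ℕ))

theorem N5_card (D : ℕ) (c : Bool) (s : ℕ) : (N5P n D c s).card = n - (s - D) := card_ge c (s - D)

theorem N5_out_iff (D : ℕ) (c : Bool) (A B A' : Finset V) (s : ℕ) (ω : Cfg V n) :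
    out D c A B A' s ω ↔ ∀ u ∈ A' \ (A ∪ B), ω u ∈ N5P n D c s := by
  unfold out N5P col lev
  refine forall₂_congr (fun u _ => ?_)
  rw [Finset.mem_filter]
  constructor
  · intro h
    exact ⟨Finset.mem_univ _, h.1, by omega⟩
  · intro h
    exact ⟨h.2.1, by omega⟩

theorem N5_prod_eq (D : ℕ) (c : Bool) (A B A' : Finset V) (s : ℕ) (ω : Cfg V n) :
    (∏ w ∈ A' \ (A ∪ B), (if ω w ∈ N5P n D c s then (1 : ℝ) else 0)) =
      if out D c A B A' s ω then (1 : ℝ) else 0 := by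
  by_cases h : out D c A B A' s ω
  · rw [if_pos h]
    rw [N5_out_iff] at h
    exact Finset.prod_eq_one (fun w hw => if_pos (h w hw))
  · rw [if_neg h]
    rw [N5_out_iff] at h
    push Not at h
    obtain ⟨u, hu, hu'⟩ := h
    exact Finset.prod_eq_zero hu (if_neg hu')

/-- the exact value of the joint expectation -/
theorem N5_joint (hn : 0 < n) (H : Finset (Finset V)) (D y : ℕ) (Q : ℝ) (c : Bool)
    (A B A' : Finset V) (s s' : ℕ) (hs : s < n) (hss : s ≤ s') :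
    Ex (fun ω : Cfg V n => (if out D c A B A' s' ω then (1 : ℝ) else 0) *
      (if (bb H D y c A B s ω : ℝ) ≤ (n : ℝ) * Q then (1 : ℝ) else 0)) =
    Ex (fun ω : Cfg V n =>
      (if (bb H D y c A B s (N5r hn c (A' \ (A ∪ B)) ω) : ℝ) ≤ (n : ℝ) * Q then (1 : ℝ) else 0) *
      ∏ _w ∈ A' \ (A ∪ B), (((N5P n D c s').card : ℝ) / (2 * n))) := by
  rw [← Ex_prod (A' \ (A ∪ B)) (fun ω : Cfg V n =>
      (if (bb H D y c A B s (N5r hn c (A' \ (A ∪ B)) ω) : ℝ) ≤ (n : ℝ) * Q then (1 : ℝ) else 0))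
    (fun ω ω' h => by
      have := N5_r_eq hn c (A' \ (A ∪ B)) ω ω' h
      simp only [this]) (fun _ _ => N5P n D c s') (fun _ _ _ _ _ => rfl)]
  congr 1
  funext ω
  rw [N5_prod_eq]
  by_cases h : out D c A B A' s' ω
  · rw [if_pos h, N5_bb_r hn H D y c A B A' s s' hs hss ω h, one_mul, mul_one]
  · rw [if_neg h, zero_mul, mul_zero]

theorem N5_card_le (D Dl : ℕ) (c : Bool) (s : ℕ) (hn : 0 < n) (hD : D ≤ s) (hs : s < n) :
    ((N5P n D c (s + Dl)).card : ℝ) ≤
      ((N5P n D c s).card : ℝ) * Real.exp (-((Dl : ℝ) / (n : ℝ))) := by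
  rw [N5_card, N5_card]
  have hn' : (0 : ℝ) < (n : ℝ) := by exact_mod_cast hn
  have hexp : 1 - (Dl : ℝ) / (n : ℝ) ≤ Real.exp (-((Dl : ℝ) / (n : ℝ))) := by
    have := Real.add_one_le_exp (-((Dl : ℝ) / (n : ℝ)))
    linarith
  have hpos := Real.exp_pos (-((Dl : ℝ) / (n : ℝ)))
  set N := n - (s - D) with hN
  have hNn : N ≤ n := Nat.sub_le _ _
  have hNpos : 0 < N := by omega
  have e1 : n - (s + Dl - D) = N - Dl := by omega
  rw [e1]
  have hNr : (0 : ℝ) < (N : ℝ) := by exact_mod_cast hNpos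
  have hNnr : (N : ℝ) ≤ (n : ℝ) := by exact_mod_cast hNn
  rcases le_total Dl N with h | h
  · rw [Nat.cast_sub h]
    have h2 : (N : ℝ) * ((Dl : ℝ) / (n : ℝ)) ≤ (Dl : ℝ) := by
      rw [mul_div_assoc', div_le_iff₀ hn']
      have : (0 : ℝ) ≤ (Dl : ℝ) := Nat.cast_nonneg _
      nlinarith
    have h3 := mul_le_mul_of_nonneg_left hexp hNr.le
    nlinarith
  · rw [Nat.sub_eq_zero_of_le h, Nat.cast_zero]
    positivity

theorem N5_one (hn : 0 < n) (H : Finset (Finset V)) (D y Dl : ℕ) (Q : ℝ) (c : Bool)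
    (A B A' : Finset V) (hA' : A' ∈ N5F H y A B) (s : ℕ) (hD : D ≤ s) (hs : s < n) :
    Ex (fun ω : Cfg V n => (if out D c A B A' (s + Dl) ω then (1 : ℝ) else 0) *
      (if (bb H D y c A B s ω : ℝ) ≤ (n : ℝ) * Q then (1 : ℝ) else 0)) ≤
    Real.exp (-((y : ℝ) * (Dl : ℝ) / (n : ℝ))) *
    Ex (fun ω : Cfg V n => (if out D c A B A' s ω then (1 : ℝ) else 0) *
      (if (bb H D y c A B s ω : ℝ) ≤ (n : ℝ) * Q then (1 : ℝ) else 0)) := by
  rw [N5_joint hn H D y Q c A B A' s (s + Dl) hs (Nat.le_add_right _ _),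
    N5_joint hn H D y Q c A B A' s s hs le_rfl, ← Ex_const_mul]
  refine Ex_mono (fun ω => ?_)
  have hn' : (0 : ℝ) < (n : ℝ) := by exact_mod_cast hn
  have hG : (0 : ℝ) ≤ (if (bb H D y c A B s (N5r hn c (A' \ (A ∪ B)) ω) : ℝ) ≤ (n : ℝ) * Q
      then (1 : ℝ) else 0) := by split_ifs <;> norm_num
  have hZ : y ≤ (A' \ (A ∪ B)).card := by
    unfold N5F at hA'
    rw [Finset.mem_filter] at hA'
    obtain ⟨_, h1, h2⟩ := hA'
    have h3 : (A' \ A) ⊆ (A' \ (A ∪ B)) ∪ (A' ∩ B) := by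
      intro u hu
      rw [Finset.mem_sdiff] at hu
      rw [Finset.mem_union, Finset.mem_sdiff, Finset.mem_union, Finset.mem_inter]
      by_cases hb : u ∈ B
      · exact Or.inr ⟨hu.1, hb⟩
      · exact Or.inl ⟨hu.1, fun h => h.elim hu.2 hb⟩
    have h4 := (Finset.card_le_card h3).trans (Finset.card_union_le _ _)
    omega
  have hprod : (∏ _w ∈ A' \ (A ∪ B), (((N5P n D c (s + Dl)).card : ℝ) / (2 * n))) ≤
      Real.exp (-((y : ℝ) * (Dl : ℝ) / (n : ℝ))) *
      ∏ _w ∈ A' \ (A ∪ B), (((N5P n D c s).card : ℝ) / (2 * n)) := by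
    rw [Finset.prod_const, Finset.prod_const]
    set m := (A' \ (A ∪ B)).card with hm
    have h1 : (((N5P n D c (s + Dl)).card : ℝ) / (2 * n)) ≤
        (((N5P n D c s).card : ℝ) / (2 * n)) * Real.exp (-((Dl : ℝ) / (n : ℝ))) := by
      rw [div_mul_eq_mul_div]
      exact div_le_div_of_nonneg_right (N5_card_le D Dl c s hn hD hs) (by positivity)
    have h2 : (((N5P n D c (s + Dl)).card : ℝ) / (2 * n)) ^ m ≤
        ((((N5P n D c s).card : ℝ) / (2 * n)) * Real.exp (-((Dl : ℝ) / (n : ℝ)))) ^ m :=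
      pow_le_pow_left₀ (by positivity) h1 m
    rw [mul_pow] at h2
    refine h2.trans ?_
    rw [mul_comm]
    refine mul_le_mul_of_nonneg_right ?_ (by positivity)
    rw [← Real.exp_nat_mul]
    refine Real.exp_le_exp.mpr ?_
    have hy : (y : ℝ) ≤ (m : ℝ) := by exact_mod_cast hZ
    have hq : (0 : ℝ) ≤ (Dl : ℝ) / (n : ℝ) := by positivity
    have := mul_le_mul_of_nonneg_right hy hq
    rw [mul_div_assoc]
    linarith
  calc _ ≤ (if (bb H D y c A B s (N5r hn c (A' \ (A ∪ B)) ω) : ℝ) ≤ (n : ℝ) * Q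
        then (1 : ℝ) else 0) * (Real.exp (-((y : ℝ) * (Dl : ℝ) / (n : ℝ))) *
      ∏ _w ∈ A' \ (A ∪ B), (((N5P n D c s).card : ℝ) / (2 * n))) :=
        mul_le_mul_of_nonneg_left hprod hG
    _ = _ := by ring

theorem N5_decay (hn : 0 < n) (H : Finset (Finset V)) (D y Dl : ℕ) (Q : ℝ) (hQ : 0 < Q)
    (c : Bool) (A B : Finset V) (s : ℕ) (hD : D ≤ s) (hs : s < n) :
    Ex (fun ω : Cfg V n => (bb H D y c A B (s + Dl) ω : ℝ) *
      (if (bb H D y c A B s ω : ℝ) ≤ (n : ℝ) * Q then (1 : ℝ) else 0)) ≤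
    Real.exp (-((y : ℝ) * (Dl : ℝ) / (n : ℝ))) * ((n : ℝ) * Q) := by
  have hn' : (0 : ℝ) < (n : ℝ) := by exact_mod_cast hn
  have e : ∀ s' : ℕ, Ex (fun ω : Cfg V n => (bb H D y c A B s' ω : ℝ) *
      (if (bb H D y c A B s ω : ℝ) ≤ (n : ℝ) * Q then (1 : ℝ) else 0)) =
      ∑ A' ∈ N5F H y A B, Ex (fun ω : Cfg V n => (if out D c A B A' s' ω then (1 : ℝ) else 0) *
      (if (bb H D y c A B s ω : ℝ) ≤ (n : ℝ) * Q then (1 : ℝ) else 0)) := by
    intro s'
    rw [← Ex_sum]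
    congr 1
    funext ω
    rw [N5_bb_eq H D y c A B s' ω, Finset.sum_mul]
  rw [e (s + Dl)]
  refine (Finset.sum_le_sum (fun A' hA' => N5_one hn H D y Dl Q c A B A' hA' s hD hs)).trans ?_
  rw [← Finset.mul_sum, ← e s]
  refine mul_le_mul_of_nonneg_left ?_ (Real.exp_pos _).le
  have hle : Ex (fun ω : Cfg V n => (bb H D y c A B s ω : ℝ) *
      (if (bb H D y c A B s ω : ℝ) ≤ (n : ℝ) * Q then (1 : ℝ) else 0)) ≤
      Ex (fun _ : Cfg V n => (n : ℝ) * Q) := by
    refine Ex_mono (fun ω => ?_)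
    by_cases h : (bb H D y c A B s ω : ℝ) ≤ (n : ℝ) * Q
    · rw [if_pos h, mul_one]; exact h
    · rw [if_neg h, mul_zero]; positivity
  exact hle.trans (Ex_const_le _ (by positivity))

/-- the bad event of the far part -/
def N5Bad (H : Finset (Finset V)) (M D y Dl : ℕ) (Q : ℝ) (c : Bool) (A B : Finset V)
    (ω : Cfg V n) : Prop :=
  ∃ s ∈ range M, D ≤ s ∧ (bb H D y c A B s ω : ℝ) ≤ (n : ℝ) * Q ∧
    (n : ℝ) / 4 ≤ (bb H D y c A B (s + Dl) ω : ℝ)

theorem N5_bad (hn : 0 < n) (H : Finset (Finset V)) (M D y Dl : ℕ) (Q : ℝ) (hQ : 0 < Q)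
    (c : Bool) (A B : Finset V) (hM : M ≤ n) :
    Pr (fun ω : Cfg V n => N5Bad H M D y Dl Q c A B ω) ≤
    (M : ℝ) * (4 * Q * Real.exp (-((y : ℝ) * (Dl : ℝ) / (n : ℝ)))) := by
  have hn' : (0 : ℝ) < (n : ℝ) := by exact_mod_cast hn
  have h := Pr_exists_mem_le_card (n := n) (range M) (fun s (ω : Cfg V n) => D ≤ s ∧
    (bb H D y c A B s ω : ℝ) ≤ (n : ℝ) * Q ∧ (n : ℝ) / 4 ≤ (bb H D y c A B (s + Dl) ω : ℝ))
    (4 * Q * Real.exp (-((y : ℝ) * (Dl : ℝ) / (n : ℝ)))) (fun s hs => ?_)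
  · rw [Finset.card_range] at h
    exact h
  rw [Finset.mem_range] at hs
  by_cases hD : D ≤ s
  · refine (Pr_le_Ex (f := fun ω : Cfg V n => (4 / (n : ℝ)) * ((bb H D y c A B (s + Dl) ω : ℝ) *
      (if (bb H D y c A B s ω : ℝ) ≤ (n : ℝ) * Q then (1 : ℝ) else 0))) (fun ω => ?_)
      (fun ω hω => ?_)).trans ?_
    · have : (0 : ℝ) ≤ (if (bb H D y c A B s ω : ℝ) ≤ (n : ℝ) * Q then (1 : ℝ) else 0) := by
        split_ifs <;> norm_num
      positivity
    · obtain ⟨_, h1, h2⟩ := hω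
      rw [if_pos h1, mul_one, div_mul_eq_mul_div, le_div_iff₀ hn']
      linarith
    · rw [Ex_const_mul]
      have h3 := N5_decay hn H D y Dl Q hQ c A B s hD (hs.trans_le hM)
      have h4 := mul_le_mul_of_nonneg_left h3 (show (0 : ℝ) ≤ 4 / (n : ℝ) by positivity)
      refine h4.trans (le_of_eq ?_)
      field_simp
  · have : Pr (fun ω : Cfg V n => D ≤ s ∧ (bb H D y c A B s ω : ℝ) ≤ (n : ℝ) * Q ∧
        (n : ℝ) / 4 ≤ (bb H D y c A B (s + Dl) ω : ℝ)) ≤ Ex (fun _ : Cfg V n => (0 : ℝ)) := by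
      unfold Pr
      refine Ex_mono (fun ω => ?_)
      rw [if_neg (fun h => hD h.1)]
    refine this.trans ((Ex_const_le 0 le_rfl).trans ?_)
    positivity

theorem N5_point (H : Finset (Finset V)) (M D y Dl : ℕ) (Q : ℝ) (c : Bool) (A B : Finset V)
    (ω : Cfg V n) :
    ∑ s ∈ range M, (if (n : ℝ) / 4 ≤ (bb H D y c A B s ω : ℝ) ∧
      (bb H D y c A B s ω : ℝ) ≤ (n : ℝ) * Q then (1 : ℝ) else 0) ≤
    ((D : ℝ) + (Dl : ℝ)) + (M : ℝ) * (if N5Bad H M D y Dl Q c A B ω then (1 : ℝ) else 0) := by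
  rw [Finset.sum_boole]
  by_cases hbad : N5Bad H M D y Dl Q c A B ω
  · rw [if_pos hbad, mul_one]
    have h1 : (((range M).filter (fun s => (n : ℝ) / 4 ≤ (bb H D y c A B s ω : ℝ) ∧
        (bb H D y c A B s ω : ℝ) ≤ (n : ℝ) * Q)).card : ℝ) ≤ (M : ℝ) := by
      have := Finset.card_filter_le (range M) (fun s => (n : ℝ) / 4 ≤ (bb H D y c A B s ω : ℝ) ∧
        (bb H D y c A B s ω : ℝ) ≤ (n : ℝ) * Q)
      rw [Finset.card_range] at this
      exact_mod_cast this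
    have h2 : (0 : ℝ) ≤ (D : ℝ) + (Dl : ℝ) := by positivity
    linarith
  · rw [if_neg hbad, mul_zero, add_zero]
    unfold N5Bad at hbad
    push Not at hbad
    -- all good levels `≥ D` lie in a window of length `Dl`
    set G := (range M).filter (fun s => (n : ℝ) / 4 ≤ (bb H D y c A B s ω : ℝ) ∧
        (bb H D y c A B s ω : ℝ) ≤ (n : ℝ) * Q) with hG
    have hwin : ∀ s ∈ G, D ≤ s → ∀ s' ∈ G, s' < s + Dl := by
      intro s hs hDs s' hs'
      rw [hG, Finset.mem_filter] at hs hs'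
      by_contra hcon
      push Not at hcon
      have h1 := hbad s hs.1 hDs hs.2.2
      have h2 : bb H D y c A B s' ω ≤ bb H D y c A B (s + Dl) ω := N5_bb_anti H D y c A B hcon ω
      have h3 : (bb H D y c A B s' ω : ℝ) ≤ (bb H D y c A B (s + Dl) ω : ℝ) := by exact_mod_cast h2
      linarith [hs'.2.1]
    have hcard : G.card ≤ D + Dl := by
      by_cases hne : (G.filter (fun s => D ≤ s)).Nonempty
      · set m := (G.filter (fun s => D ≤ s)).min' hne with hm
        have hmG := Finset.min'_mem _ hne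
        rw [← hm, Finset.mem_filter] at hmG
        have hsub : G ⊆ range D ∪ Finset.Ico m (m + Dl) := by
          intro s hs
          rw [Finset.mem_union, Finset.mem_range, Finset.mem_Ico]
          by_cases hsD : s < D
          · exact Or.inl hsD
          · push Not at hsD
            right
            exact ⟨Finset.min'_le _ _ (Finset.mem_filter.mpr ⟨hs, hsD⟩),
              hwin m hmG.1 hmG.2 s hs⟩
        have := (Finset.card_le_card hsub).trans (Finset.card_union_le _ _)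
        rw [Finset.card_range, Nat.card_Ico] at this
        omega
      · have hsub : G ⊆ range D := by
          intro s hs
          rw [Finset.mem_range]
          by_contra hcon
          push Not at hcon
          exact hne ⟨s, Finset.mem_filter.mpr ⟨hs, hcon⟩⟩
        have := Finset.card_le_card hsub
        rw [Finset.card_range] at this
        omega
    have : ((G.card : ℕ) : ℝ) ≤ ((D + Dl : ℕ) : ℝ) := by exact_mod_cast hcard
    rw [Nat.cast_add] at this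
    exact this

/-- N5 -/
theorem far_bound (hn : 0 < n) (H : Finset (Finset V)) (hH : ∀ A ∈ H, A.card = n)
    (M D y Dl : ℕ) (Q : ℝ) (hQ : 0 < Q) (c : Bool) (A B : Finset V) (hA : A ∈ H) (hM : M ≤ n)
    (hD : 4 * Q * (M : ℝ) ^ 2 * Real.exp (-((y : ℝ) * (Dl : ℝ) / (n : ℝ))) ≤ 1) :
    Ex (fun ω : Cfg V n => ∑ s ∈ range M,
      (if (n : ℝ) / 4 ≤ (bb H D y c A B s ω : ℝ) ∧ (bb H D y c A B s ω : ℝ) ≤ (n : ℝ) * Q
        then (1 : ℝ) else 0)) ≤ (D : ℝ) + (Dl : ℝ) + 1 := by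
  refine (Ex_mono (fun ω => N5_point H M D y Dl Q c A B ω)).trans ?_
  rw [Ex_add, Ex_const_mul, Ex_const hn]
  have h1 := N5_bad hn H M D y Dl Q hQ c A B hM
  unfold Pr at h1
  have h2 := mul_le_mul_of_nonneg_left h1 (Nat.cast_nonneg M : (0 : ℝ) ≤ (M : ℝ))
  have h3 : (M : ℝ) * ((M : ℝ) * (4 * Q * Real.exp (-((y : ℝ) * (Dl : ℝ) / (n : ℝ))))) =
      4 * Q * (M : ℝ) ^ 2 * Real.exp (-((y : ℝ) * (Dl : ℝ) / (n : ℝ))) := by ring
  rw [h3] at h2
  linarith

end

end PropB
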