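import Pool.Agent.H7.PB.N1
import Pool.Agent.H7.PB.N2
import Pool.Agent.H7.PB.N3
import Pool.Agent.H7.PB.N4
import Pool.Agent.H7.PB.N5

/-! Module N6: the bound for the probability of `Normal` (assembly of N1 .. N5). -/

namespace PropB

noncomputable section

open Finset Classical

variable {V : Type*} [Fintype V] [DecidableEq V] {n : ℕ}

theorem N6_bb_le (H : Finset (Finset V)) (D y : ℕ) (c : Bool) (A B : Finset V) (s : ℕ)
    (ω : Cfg V n) : bb H D y c A B s ω ≤ NN H D c A B s ω := by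
  unfold bb NN
  apply Finset.card_le_card
  intro A' hA'
  rw [Finset.mem_filter] at hA' ⊢
  exact ⟨hA'.1, hA'.2.2⟩

theorem N6_point (hn : 0 < n) (H : Finset (Finset V)) (M D y : ℕ) (Q : ℝ) (c : Bool)
    (A B : Finset V) (v : V) (S : Finset V) (hB : B.card = n) (ω : Cfg V n) :
    ∑ T ∈ range M, (if (NN H D c A B (T - D) ω : ℝ) ≤ (n : ℝ) * Q then
      Real.exp (-∑ j ∈ range (T - D), (1 - ff H D c A B v S j ω)) else 0) ≤
    ((D : ℝ) + 3) + (∑ s ∈ range M, (if (NN H D c A B s ω : ℝ) ≤ (n : ℝ) * Q ∧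
        (n : ℝ) / 4 ≤ (aS H D y c A B S s ω : ℝ) then (1 : ℝ) else 0) +
      ∑ s ∈ range M, (if (n : ℝ) / 4 ≤ (bb H D y c A B s ω : ℝ) ∧
        (bb H D y c A B s ω : ℝ) ≤ (n : ℝ) * Q then (1 : ℝ) else 0)) := by
  have h := sum_exp_le M D (fun j => ff H D c A B v S j ω) (ff_antitone H D c A B v S ω)
    (fun j => ff_nonneg H D c A B v S j ω) (fun j => ff_le_one H D c A B v S j ω hB)
    (fun s => (NN H D c A B s ω : ℝ) ≤ (n : ℝ) * Q)
  refine h.trans ?_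
  rw [← Finset.sum_add_distrib]
  gcongr with s hs
  by_cases h1 : (NN H D c A B s ω : ℝ) ≤ (n : ℝ) * Q ∧ 1 / 2 ≤ ff H D c A B v S s ω
  · rw [if_pos h1]
    rcases half_le hn H D y c A B v S s ω h1.2 with h2 | h2
    · rw [if_pos ⟨h1.1, h2⟩]
      have : (0 : ℝ) ≤ (if (n : ℝ) / 4 ≤ (bb H D y c A B s ω : ℝ) ∧
        (bb H D y c A B s ω : ℝ) ≤ (n : ℝ) * Q then (1 : ℝ) else 0) := by
        split_ifs <;> norm_num
      linarith
    · have h3 : (bb H D y c A B s ω : ℝ) ≤ (n : ℝ) * Q :=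
        le_trans (by exact_mod_cast N6_bb_le H D y c A B s ω) h1.1
      rw [if_pos (⟨h2, h3⟩ : (n : ℝ) / 4 ≤ (bb H D y c A B s ω : ℝ) ∧
        (bb H D y c A B s ω : ℝ) ≤ (n : ℝ) * Q)]
      have : (0 : ℝ) ≤ (if (NN H D c A B s ω : ℝ) ≤ (n : ℝ) * Q ∧
        (n : ℝ) / 4 ≤ (aS H D y c A B S s ω : ℝ) then (1 : ℝ) else 0) := by
        split_ifs <;> norm_num
      linarith
  · rw [if_neg h1]
    have h4 : (0 : ℝ) ≤ (if (n : ℝ) / 4 ≤ (bb H D y c A B s ω : ℝ) ∧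
        (bb H D y c A B s ω : ℝ) ≤ (n : ℝ) * Q then (1 : ℝ) else 0) := by
      split_ifs <;> norm_num
    have h5 : (0 : ℝ) ≤ (if (NN H D c A B s ω : ℝ) ≤ (n : ℝ) * Q ∧
        (n : ℝ) / 4 ≤ (aS H D y c A B S s ω : ℝ) then (1 : ℝ) else 0) := by
      split_ifs <;> norm_num
    linarith

theorem N6_pair (hn : 0 < n) (H : Finset (Finset V)) (hH : ∀ A ∈ H, A.card = n)
    (r M D y Dl : ℕ) (Q : ℝ) (hQ : 0 < Q) (hcond : (M + D + 1) * (r + 1) ≤ n)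
    (hD : 4 * Q * (M : ℝ) ^ 2 * Real.exp (-((y : ℝ) * (Dl : ℝ) / (n : ℝ))) ≤ 1) (c : Bool)
    (A B : Finset V) (v : V) (hA : A ∈ H) (hB : B ∈ H) (hAB : A ∩ B = {v}) :
    Pr (fun ω : Cfg V n => ∃ T ∈ range M, ∃ S ∈ (A.erase v).powersetCard r,
      NormalAt H D Q c A B v T S ω) ≤
      ((1 : ℝ) / 2 ^ n) ^ 2 * (2 * Real.exp 2 / (n : ℝ)) * (2 * (D : ℝ) + 1) ^ r *
        (2 * (D : ℝ) + (Dl : ℝ) + 4 + 4 * Q * (M : ℝ) * ((y : ℝ) / (n : ℝ)) ^ r) := by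
  have hn' : (0 : ℝ) < n := Nat.cast_pos.2 hn
  have hvA : v ∈ A := by
    have : v ∈ A ∩ B := by rw [hAB]; exact Finset.mem_singleton_self v
    exact (Finset.mem_inter.1 this).1
  have hcA : (A.erase v).card = n - 1 := by rw [Finset.card_erase_of_mem hvA, hH A hA]
  set PS := (A.erase v).powersetCard r with hPS
  set K : ℝ := (2 * Real.exp 2 / (n : ℝ)) * ((1 : ℝ) / 2 ^ n) ^ 2 *
    ((2 * (D : ℝ) + 1) / (n : ℝ)) ^ r with hK
  have hK0 : 0 ≤ K := by positivity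
  set X : ℕ → Finset V → Cfg V n → ℝ := fun T S ω =>
    if (NN H D c A B (T - D) ω : ℝ) ≤ (n : ℝ) * Q then
      Real.exp (-∑ j ∈ range (T - D), (1 - ff H D c A B v S j ω)) else 0 with hX
  have s1 : Pr (fun ω : Cfg V n => ∃ T ∈ range M, ∃ S ∈ PS, NormalAt H D Q c A B v T S ω) ≤
      ∑ T ∈ range M, ∑ S ∈ PS, K * Ex (X T S) := by
    refine (Pr_exists_mem_le _ _).trans (Finset.sum_le_sum (fun T hT => ?_))
    refine (Pr_exists_mem_le _ _).trans (Finset.sum_le_sum (fun S hS => ?_))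
    apply Pr_NormalAt hn H hH r D Q c A B v T S hA hB hAB hS
    have hTM : T ≤ M + D + 1 := by
      have := Finset.mem_range.1 hT
      omega
    exact (Nat.mul_le_mul_right _ hTM).trans hcond
  have s2 : ∑ T ∈ range M, ∑ S ∈ PS, K * Ex (X T S) =
      K * Ex (fun ω => ∑ S ∈ PS, ∑ T ∈ range M, X T S ω) := by
    rw [Ex_sum, Finset.sum_comm, Finset.mul_sum]
    apply Finset.sum_congr rfl
    intro S _
    rw [Ex_sum, Finset.mul_sum]
  set a : Finset V → ℕ → Cfg V n → ℝ := fun S s ω => if (NN H D c A B s ω : ℝ) ≤ (n : ℝ) * Q ∧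
        (n : ℝ) / 4 ≤ (aS H D y c A B S s ω : ℝ) then (1 : ℝ) else 0 with ha
  set b : ℕ → Cfg V n → ℝ := fun s ω => if (n : ℝ) / 4 ≤ (bb H D y c A B s ω : ℝ) ∧
        (bb H D y c A B s ω : ℝ) ≤ (n : ℝ) * Q then (1 : ℝ) else 0 with hb
  have s3 : Ex (fun ω => ∑ S ∈ PS, ∑ T ∈ range M, X T S ω) ≤
      Ex (fun ω => (PS.card : ℝ) * ((D : ℝ) + 3) + ((M : ℝ) * (4 * Q * (y : ℝ) ^ r) +
        (PS.card : ℝ) * ∑ s ∈ range M, b s ω)) := by
    apply Ex_mono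
    intro ω
    have h1 : ∑ S ∈ PS, ∑ T ∈ range M, X T S ω ≤
        ∑ S ∈ PS, (((D : ℝ) + 3) + (∑ s ∈ range M, a S s ω + ∑ s ∈ range M, b s ω)) :=
      Finset.sum_le_sum (fun S _ => N6_point hn H M D y Q c A B v S (hH B hB) ω)
    refine h1.trans ?_
    simp only [Finset.sum_add_distrib, Finset.sum_const, nsmul_eq_mul]
    have h2 : ∑ S ∈ PS, ∑ s ∈ range M, a S s ω ≤ (M : ℝ) * (4 * Q * (y : ℝ) ^ r) := by
      rw [Finset.sum_comm]
      have h3 : ∀ s ∈ range M, ∑ S ∈ PS, a S s ω ≤ 4 * Q * (y : ℝ) ^ r :=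
        fun s _ => near_sum hn H hH r D y Q hQ c A B v hA s ω
      refine (Finset.sum_le_sum h3).trans ?_
      rw [Finset.sum_const, nsmul_eq_mul, Finset.card_range]
    linarith
  have s4 : Ex (fun ω : Cfg V n => (PS.card : ℝ) * ((D : ℝ) + 3) + ((M : ℝ) * (4 * Q * (y : ℝ) ^ r) +
        (PS.card : ℝ) * ∑ s ∈ range M, b s ω)) ≤
      (PS.card : ℝ) * ((D : ℝ) + 3) + ((M : ℝ) * (4 * Q * (y : ℝ) ^ r) +
        (PS.card : ℝ) * ((D : ℝ) + (Dl : ℝ) + 1)) := by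
    rw [Ex_add, Ex_add, Ex_const hn, Ex_const hn, Ex_const_mul]
    have hMn : M ≤ n := by
      have : (M + D + 1) * 1 ≤ (M + D + 1) * (r + 1) := Nat.mul_le_mul_left _ (by omega)
      omega
    have := far_bound hn H hH M D y Dl Q hQ c A B hA hMn hD
    gcongr
  have hPSc : (PS.card : ℝ) ≤ (n : ℝ) ^ r := by
    rw [hPS, Finset.card_powersetCard, hcA]
    have h1 : (n - 1).choose r ≤ (n - 1) ^ r := Nat.choose_le_pow _ _
    have h2 : (n - 1) ^ r ≤ n ^ r := Nat.pow_le_pow_left (Nat.sub_le n 1) r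
    exact_mod_cast h1.trans h2
  have s5 : (PS.card : ℝ) * ((D : ℝ) + 3) + ((M : ℝ) * (4 * Q * (y : ℝ) ^ r) +
        (PS.card : ℝ) * ((D : ℝ) + (Dl : ℝ) + 1)) ≤
      (n : ℝ) ^ r * (2 * (D : ℝ) + (Dl : ℝ) + 4) + 4 * Q * (M : ℝ) * (y : ℝ) ^ r := by
    have h1 : (PS.card : ℝ) * (2 * (D : ℝ) + (Dl : ℝ) + 4) ≤
        (n : ℝ) ^ r * (2 * (D : ℝ) + (Dl : ℝ) + 4) := by gcongr
    linarith
  refine s1.trans ?_
  rw [s2]
  refine (mul_le_mul_of_nonneg_left (s3.trans (s4.trans s5)) hK0).trans (le_of_eq ?_)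
  have e1 : ((2 * (D : ℝ) + 1) / (n : ℝ)) ^ r = (2 * (D : ℝ) + 1) ^ r / (n : ℝ) ^ r := div_pow _ _ _
  have e2 : ((y : ℝ) / (n : ℝ)) ^ r = (y : ℝ) ^ r / (n : ℝ) ^ r := div_pow _ _ _
  rw [hK, e1, e2]
  have hnr : (n : ℝ) ^ r ≠ 0 := by positivity
  field_simp

/-- N6 (assembly of N1 .. N5) -/
theorem Pr_Normal (hn : 0 < n) (H : Finset (Finset V)) (hH : ∀ A ∈ H, A.card = n)
    (r M D y Dl : ℕ) (Q : ℝ) (hQ : 0 < Q) (hcond : (M + D + 1) * (r + 1) ≤ n)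
    (hD : 4 * Q * (M : ℝ) ^ 2 * Real.exp (-((y : ℝ) * (Dl : ℝ) / (n : ℝ))) ≤ 1) (c : Bool) :
    Pr (fun ω : Cfg V n => Normal H r M D Q c ω) ≤
      ((H.card : ℝ) / 2 ^ n) ^ 2 * (2 * Real.exp 2 / (n : ℝ)) * (2 * (D : ℝ) + 1) ^ r *
        (2 * (D : ℝ) + (Dl : ℝ) + 4 + 4 * Q * (M : ℝ) * ((y : ℝ) / (n : ℝ)) ^ r) := by
  have hn' : (0 : ℝ) < n := Nat.cast_pos.2 hn
  set X : ℝ := ((1 : ℝ) / 2 ^ n) ^ 2 * (2 * Real.exp 2 / (n : ℝ)) * (2 * (D : ℝ) + 1) ^ r *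
        (2 * (D : ℝ) + (Dl : ℝ) + 4 + 4 * Q * (M : ℝ) * ((y : ℝ) / (n : ℝ)) ^ r) with hX
  have hX0 : 0 ≤ X := by positivity
  have h1 : Pr (fun ω : Cfg V n => Normal H r M D Q c ω) ≤
      (H.card : ℝ) * ((H.card : ℝ) * X) := by
    unfold Normal
    apply Pr_exists_mem_le_card
    intro A hA
    apply Pr_exists_mem_le_card
    intro B hB
    by_cases hv : ∃ v, A ∩ B = {v}
    · obtain ⟨v, hv⟩ := hv
      refine le_trans (Pr_mono ?_) (N6_pair hn H hH r M D y Dl Q hQ hcond hD c A B v hA hB hv)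
      rintro ω ⟨v', hv', h2⟩
      have : v' = v := by
        rw [hv] at hv'
        exact (Finset.singleton_injective hv').symm
      subst this
      exact h2
    · refine le_trans (Pr_mono (q := fun _ => False) ?_) ?_
      · rintro ω ⟨v', hv', -⟩
        exact hv ⟨v', hv'⟩
      · refine le_trans (le_of_eq ?_) hX0
        unfold Pr
        simp only [if_false]
        exact Ex_const hn 0
  refine h1.trans (le_of_eq ?_)
  rw [hX]
  field_simp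

end

end PropB
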