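import Pool.Agent.H7.PB.Basic

/-! Module PD: the event `Dense`. -/

namespace PropB

noncomputable section

open Finset Classical

variable {V : Type*} [Fintype V] [DecidableEq V] {n : ℕ}

theorem PD_num (hn : 0 < n) (x : ℝ) (hx : 0 ≤ x) :
    (((n : ℝ) + x) / (2 * n)) ^ (n - 1) ≤ (1 / 2) ^ (n - 1) * Real.exp x := by
  have hn' : (0 : ℝ) < n := by exact_mod_cast hn
  have e : ((n : ℝ) + x) / (2 * n) = (1 / 2) * (1 + x / n) := by field_simp
  rw [e, mul_pow]
  have h1 : 1 + x / n ≤ Real.exp (x / n) := by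
    have := Real.add_one_le_exp (x / n); linarith
  have h2 : (1 + x / n) ^ (n - 1) ≤ Real.exp x := by
    calc (1 + x / n) ^ (n - 1) ≤ (Real.exp (x / n)) ^ (n - 1) :=
          pow_le_pow_left₀ (by positivity) h1 _
      _ = Real.exp ((n - 1 : ℕ) * (x / n)) := by rw [← Real.exp_nat_mul]
      _ ≤ Real.exp x := by
        apply Real.exp_le_exp.2
        have h3 : ((n - 1 : ℕ) : ℝ) ≤ n := by exact_mod_cast Nat.sub_le n 1
        calc ((n - 1 : ℕ) : ℝ) * (x / n) ≤ n * (x / n) := by gcongr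
          _ = x := by field_simp
  gcongr

theorem PD_NM (hn : 0 < n) (B : Finset V) (hB : B.card = n) (c : Bool) (v : V) (T : ℕ)
    (hv : v ∈ B) (q : Cfg V n → Prop) (hq : IndepOf B q) :
    Pr (fun ω : Cfg V n => NM ω c B v T ∧ q ω) ≤
      (1 / (n : ℝ)) * ((1 / 2 ^ n) * Real.exp ((T : ℝ) + 1)) * Pr q := by
  have hn' : (0 : ℝ) < n := by exact_mod_cast hn
  let P : V → Finset (Bool × Fin n) := fun w =>
    if w = v then (univ : Finset (Bool × Fin n)).filter (fun x => x.1 = c ∧ T ≤ (x.2 : ℕ) ∧ (x.2 : ℕ) ≤ T)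
    else (univ : Finset (Bool × Fin n)).filter (fun x => x.1 = c → (x.2 : ℕ) ≤ T)
  have h := Pr_and_le_prod B (fun ω : Cfg V n => NM ω c B v T) q hq P (by
    rintro ω ⟨h1, h2, h3, h4⟩ w hw
    by_cases hwv : w = v
    · subst hwv
      simp only [P, if_true, Finset.mem_filter, Finset.mem_univ, true_and]
      exact ⟨h2, h3.ge, h3.le⟩
    · simp only [P, if_neg hwv, Finset.mem_filter, Finset.mem_univ, true_and]
      exact fun hc => h4 w hw hwv hc)
  refine h.trans ?_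
  gcongr
  · exact Pr_nonneg q
  rw [← Finset.mul_prod_erase B _ hv]
  have h1 : ((P v).card : ℝ) / (2 * n) ≤ 1 / (2 * n) := by
    have h2 : (P v).card ≤ 1 := by
      simp only [P, if_true]
      have := card_window_le (n := n) c T T
      omega
    have h3 : ((P v).card : ℝ) ≤ 1 := by exact_mod_cast h2
    gcongr
  have h2 : ∏ w ∈ B.erase v, (((P w).card : ℝ) / (2 * n)) ≤ (((n : ℝ) + ((T : ℝ) + 1)) / (2 * n)) ^ (n - 1) := by
    have hc : (B.erase v).card = n - 1 := by rw [Finset.card_erase_of_mem hv, hB]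
    rw [← hc, ← Finset.prod_const]
    apply Finset.prod_le_prod
    · intro w _; positivity
    · intro w hw
      have hwv : w ≠ v := (Finset.mem_erase.1 hw).1
      have h3 : (P w).card ≤ n + (T + 1) := by
        simp only [P, if_neg hwv]
        have h5 := card_other_or_le (n := n) c (fun j => j ≤ T) (T + 1) (fun j hj => by omega)
        have h6 : ∀ inst : DecidablePred (fun j : ℕ => j ≤ T),
            (@Finset.filter ℕ (fun j => j ≤ T) inst (range (T + 1))).card ≤ T + 1 := fun inst =>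
          (Finset.card_le_card (@Finset.filter_subset _ _ inst _)).trans
            (le_of_eq (Finset.card_range _))
        refine le_trans (le_trans (le_of_eq ?_) h5) (Nat.add_le_add_left (h6 _) n)
        congr
      have h4 : ((P w).card : ℝ) ≤ (n : ℝ) + ((T : ℝ) + 1) := by exact_mod_cast h3
      gcongr
  have h3 := PD_num (n := n) hn ((T : ℝ) + 1) (by positivity)
  have h4 : (1 : ℝ) / 2 ^ n = (1 / 2) * (1 / 2) ^ (n - 1) := by
    have : n = (n - 1) + 1 := by omega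
    conv_lhs => rw [this]
    rw [pow_succ, one_div_pow]
    field_simp
  calc ((P v).card : ℝ) / (2 * n) * ∏ w ∈ B.erase v, (((P w).card : ℝ) / (2 * n))
      ≤ 1 / (2 * n) * ((1 / 2) ^ (n - 1) * Real.exp ((T : ℝ) + 1)) := by
        apply mul_le_mul h1 (h2.trans h3) (Finset.prod_nonneg fun w _ => by positivity) (by positivity)
    _ = 1 / (n : ℝ) * (1 / 2 ^ n * Real.exp ((T : ℝ) + 1)) := by
        rw [h4]; field_simp

theorem PD_one (hn : 0 < n) (A' B : Finset V) (hA : A'.card = n) (c : Bool) (D T : ℕ) (hT : T ≤ n) :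
    Pr (fun ω : Cfg V n => (A' ∩ B).card = 1 ∧ ∀ u ∈ A' \ B, col ω u = c ∧ T - D ≤ lev ω u + D) ≤
      (1 / 2) ^ (n - 1) * Real.exp (1 - (T : ℝ) + 2 * D) := by
  have hn' : (0 : ℝ) < n := by exact_mod_cast hn
  by_cases hAB : (A' ∩ B).card = 1
  swap
  · have : Pr (fun ω : Cfg V n => (A' ∩ B).card = 1 ∧ ∀ u ∈ A' \ B, col ω u = c ∧ T - D ≤ lev ω u + D) ≤ 0 := by
      have h := Pr_le_Ex (n := n) (V := V) (f := fun _ => (0 : ℝ))
        (p := fun ω : Cfg V n => (A' ∩ B).card = 1 ∧ ∀ u ∈ A' \ B, col ω u = c ∧ T - D ≤ lev ω u + D)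
        (fun _ => le_refl _) (fun ω h => absurd h.1 hAB)
      exact h.trans (Ex_const_le 0 (le_refl _))
    refine this.trans (by positivity)
  have hcard : (A' \ B).card = n - 1 := by
    have := Finset.card_sdiff_add_card_inter A' B
    omega
  have h := Pr_le_prod_const hn (A' \ B)
    (fun ω : Cfg V n => (A' ∩ B).card = 1 ∧ ∀ u ∈ A' \ B, col ω u = c ∧ T - D ≤ lev ω u + D)
    (fun _ => (univ : Finset (Bool × Fin n)).filter (fun x => x.1 = c ∧ T - D - D ≤ (x.2 : ℕ))) (by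
      rintro ω ⟨_, h2⟩ w hw
      obtain ⟨h3, h4⟩ := h2 w hw
      simp only [Finset.mem_filter, Finset.mem_univ, true_and]
      refine ⟨h3, ?_⟩
      have : lev ω w = ((ω w).2 : ℕ) := rfl
      omega)
  refine h.trans ?_
  rw [Finset.prod_const, hcard, card_ge]
  set a : ℕ := T - D - D with ha
  have han : a ≤ n := by omega
  have e1 : ((n - a : ℕ) : ℝ) = (n : ℝ) - a := Nat.cast_sub han
  have hanr : (a : ℝ) ≤ n := by exact_mod_cast han
  have h1 : ((n - a : ℕ) : ℝ) / (2 * n) ≤ (1 / 2) * Real.exp (-(a / n : ℝ)) := by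
    have h2 := Real.add_one_le_exp (-(a / n : ℝ))
    have e2 : ((n - a : ℕ) : ℝ) / (2 * n) = (1 / 2) * (1 + -(a / n : ℝ)) := by
      rw [e1]; field_simp
      ring
    rw [e2]
    linarith
  have h0 : 0 ≤ ((n - a : ℕ) : ℝ) / (2 * n) := by positivity
  calc (((n - a : ℕ) : ℝ) / (2 * n)) ^ (n - 1) ≤ ((1 / 2) * Real.exp (-(a / n : ℝ))) ^ (n - 1) :=
        pow_le_pow_left₀ h0 h1 _
    _ = (1 / 2) ^ (n - 1) * Real.exp (((n - 1 : ℕ) : ℝ) * (-(a / n : ℝ))) := by
        rw [mul_pow, Real.exp_nat_mul]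
    _ ≤ (1 / 2) ^ (n - 1) * Real.exp (1 - (T : ℝ) + 2 * D) := by
        gcongr
        have e3 : ((n - 1 : ℕ) : ℝ) = (n : ℝ) - 1 := by
          rw [Nat.cast_sub (by omega)]; simp
        rw [e3]
        have e4 : ((n : ℝ) - 1) * (-(a / n : ℝ)) = -a + a / n := by field_simp; ring
        rw [e4]
        have h5 : (a : ℝ) / n ≤ 1 := by rw [div_le_one hn']; exact hanr
        have h6 : (T : ℝ) ≤ a + 2 * D := by
          have : T ≤ a + 2 * D := by omega
          exact_mod_cast this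
        linarith

theorem PD_Nhat (hn : 0 < n) (H : Finset (Finset V)) (hH : ∀ A ∈ H, A.card = n) (B : Finset V)
    (c : Bool) (D T : ℕ) (hT : T ≤ n) (Q : ℝ) (hQ : 0 < Q) :
    Pr (fun ω : Cfg V n => (n : ℝ) * Q < (Nhat H D c B (T - D) ω : ℝ)) ≤
      (H.card : ℝ) * ((1 / 2) ^ (n - 1) * Real.exp (1 - (T : ℝ) + 2 * D)) / (n * Q) := by
  have hn' : (0 : ℝ) < n := by exact_mod_cast hn
  have h1 : Pr (fun ω : Cfg V n => (n : ℝ) * Q < (Nhat H D c B (T - D) ω : ℝ)) ≤
      Pr (fun ω : Cfg V n => (n : ℝ) * Q ≤ (Nhat H D c B (T - D) ω : ℝ)) :=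
    Pr_mono fun ω h => h.le
  have h2 := Pr_markov (f := fun ω : Cfg V n => (Nhat H D c B (T - D) ω : ℝ))
    (fun ω => by positivity) (show 0 < (n : ℝ) * Q by positivity)
  refine h1.trans (h2.trans ?_)
  gcongr
  have e : (fun ω : Cfg V n => (Nhat H D c B (T - D) ω : ℝ)) = fun ω =>
      ∑ A' ∈ H, (if ((A' ∩ B).card = 1 ∧ ∀ u ∈ A' \ B, col ω u = c ∧ T - D ≤ lev ω u + D) then (1 : ℝ) else 0) := by
    funext ω
    rw [Finset.sum_ite, Finset.sum_const_zero, add_zero, Finset.sum_const, nsmul_eq_mul, mul_one]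
    rfl
  rw [e, Ex_sum]
  have h5 := Finset.sum_le_card_nsmul H _ _ fun A' hA' => PD_one hn A' B (hH A' hA') c D T hT
  rw [nsmul_eq_mul] at h5
  refine le_trans (le_of_eq (Finset.sum_congr rfl fun A' _ => ?_)) h5
  unfold Pr
  congr 1
  funext ω
  congr

theorem PD_indep (H : Finset (Finset V)) (B : Finset V) (c : Bool) (D s : ℕ) (x : ℝ) :
    IndepOf B (fun ω : Cfg V n => x < (Nhat H D c B s ω : ℝ)) := by
  intro ω ω' h
  have e : Nhat H D c B s ω = Nhat H D c B s ω' := by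
    unfold Nhat
    congr 1
    apply Finset.filter_congr
    intro A' _
    refine and_congr_right fun _ => forall_congr' fun u => forall_congr' fun hu => ?_
    have := h u (Finset.mem_sdiff.1 hu).2
    unfold col lev
    rw [this]
  simp only [e]

theorem Pr_Dense (hn : 0 < n) (H : Finset (Finset V)) (hH : ∀ A ∈ H, A.card = n) (M D : ℕ)
    (Q : ℝ) (hQ : 0 < Q) (hM : M ≤ n) (c : Bool) :
    Pr (fun ω : Cfg V n => Dense H M D Q c ω) ≤
      ((H.card : ℝ) / 2 ^ n) ^ 2 *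
        (2 * Real.exp 2 * (M : ℝ) * Real.exp (2 * (D : ℝ)) / ((n : ℝ) * Q)) := by
  have hn' : (0 : ℝ) < n := by exact_mod_cast hn
  set X : ℝ := (1 / 2 ^ n) * ((H.card : ℝ) * (1 / 2) ^ (n - 1) * Real.exp (2 + 2 * D)) / (n * Q) with hX
  have key : ∀ B ∈ H, ∀ T ∈ range M,
      Pr (fun ω : Cfg V n => (∃ v ∈ B, NM ω c B v T) ∧ (n : ℝ) * Q < (Nhat H D c B (T - D) ω : ℝ)) ≤ X := by
    intro B hB T hT
    have hTn : T ≤ n := by have := Finset.mem_range.1 hT; omega
    have hq := PD_Nhat hn H hH B c D T hTn Q hQ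
    have h1 : Pr (fun ω : Cfg V n => (∃ v ∈ B, NM ω c B v T) ∧ (n : ℝ) * Q < (Nhat H D c B (T - D) ω : ℝ)) ≤
        Pr (fun ω : Cfg V n => ∃ v ∈ B, (NM ω c B v T ∧ (n : ℝ) * Q < (Nhat H D c B (T - D) ω : ℝ))) :=
      Pr_mono fun ω ⟨⟨v, hv, h⟩, h'⟩ => ⟨v, hv, h, h'⟩
    have h2 := Pr_exists_mem_le_card (n := n) B
      (fun v ω => NM ω c B v T ∧ (n : ℝ) * Q < (Nhat H D c B (T - D) ω : ℝ)) _
      (fun v hv => PD_NM hn B (hH B hB) c v T hv _ (PD_indep H B c D (T - D) _))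
    refine h1.trans (h2.trans ?_)
    rw [hH B hB]
    calc (n : ℝ) * (1 / (n : ℝ) * (1 / 2 ^ n * Real.exp ((T : ℝ) + 1)) *
          Pr (fun ω : Cfg V n => (n : ℝ) * Q < (Nhat H D c B (T - D) ω : ℝ)))
        ≤ (n : ℝ) * (1 / (n : ℝ) * (1 / 2 ^ n * Real.exp ((T : ℝ) + 1)) *
          ((H.card : ℝ) * ((1 / 2) ^ (n - 1) * Real.exp (1 - (T : ℝ) + 2 * D)) / (n * Q))) := by
          gcongr
      _ = X := by
          rw [hX]
          have e : Real.exp (2 + 2 * (D : ℝ)) = Real.exp ((T : ℝ) + 1) * Real.exp (1 - (T : ℝ) + 2 * D) := by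
            rw [← Real.exp_add]; congr 1; ring
          rw [e]
          field_simp
  have h1 : Pr (fun ω : Cfg V n => Dense H M D Q c ω) ≤ (H.card : ℝ) * ((M : ℝ) * X) := by
    refine Pr_exists_mem_le_card (n := n) H
      (fun B ω => ∃ T ∈ range M, (∃ v ∈ B, NM ω c B v T) ∧ (n : ℝ) * Q < (Nhat H D c B (T - D) ω : ℝ))
      ((M : ℝ) * X) (fun B hB => ?_)
    have := Pr_exists_mem_le_card (n := n) (range M)
      (fun T ω => (∃ v ∈ B, NM ω c B v T) ∧ (n : ℝ) * Q < (Nhat H D c B (T - D) ω : ℝ)) X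
      (fun T hT => key B hB T hT)
    rw [Finset.card_range] at this
    exact this
  refine h1.trans (le_of_eq ?_)
  rw [hX]
  have e : Real.exp (2 + 2 * (D : ℝ)) = Real.exp 2 * Real.exp (2 * (D : ℝ)) := Real.exp_add _ _
  have e2 : ((1 : ℝ) / 2) ^ (n - 1) = 2 / 2 ^ n := by
    have : n = (n - 1) + 1 := by omega
    conv_rhs => rw [this]
    rw [pow_succ, one_div_pow]
    field_simp
  rw [e, e2]
  field_simp

end

end PropB
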