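import Pool.Agent.H7.PB.Basic

/-! Module PX: probability of the exceptional event. -/

namespace PropB

noncomputable section

open Finset Classical

variable {V : Type*} [Fintype V] [DecidableEq V] {n : ℕ}

omit [Fintype V] [DecidableEq V] in
theorem PX_prod_le (s : Finset V) (f : V → ℝ) (a : ℝ) (h0 : ∀ w ∈ s, 0 ≤ f w)
    (h : ∀ w ∈ s, f w ≤ a) : ∏ w ∈ s, f w ≤ a ^ s.card := by
  calc ∏ w ∈ s, f w ≤ ∏ _w ∈ s, a := Finset.prod_le_prod h0 h
    _ = a ^ s.card := by rw [Finset.prod_const]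

theorem PX_card (c : Bool) (T : ℕ) :
    ((univ : Finset (Bool × Fin n)).filter (fun x => x.1 = c → (x.2 : ℕ) ≤ T)).card ≤
      n + (T + 1) := by
  have h := card_other_or_le (n := n) c (fun j => j ≤ T) (T + 1) (fun j hj => by omega)
  refine le_trans (le_of_eq ?_) (h.trans (Nat.add_le_add_left ?_ n))
  · refine congrArg Finset.card ?_
    ext x
    simp only [Finset.mem_filter]
  · refine le_trans (Finset.card_le_card (t := range (T + 1)) fun x hx => ?_)
      (le_of_eq (Finset.card_range _))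
    simp only [Finset.mem_filter] at hx
    exact hx.1

theorem PX_num (n T D i : ℕ) (hn : 0 < n) (hi : i + 1 ≤ n) (hc : (T + D + 1) * (i + 1) ≤ n) :
    (1 / (2 * (n : ℝ))) * ((((n - (T + D + 1) : ℕ) : ℝ) / (2 * n)) ^ (n - 1 - i) *
      (((D : ℝ) + 1) / (2 * n)) ^ i) * (((n : ℝ) + (T + 1)) / (2 * n)) ^ (n - 1) ≤
    (2 / (n : ℝ)) * ((1 : ℝ) / 2 ^ n) ^ 2 * (((D : ℝ) + 1) / n) ^ i *
      (Real.exp 1 * Real.exp (-(D : ℝ))) := by
  have hn' : (0 : ℝ) < n := by exact_mod_cast hn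
  have hle : T + D + 1 ≤ n := by nlinarith
  set x : ℝ := ((T : ℝ) + D + 1) / n with hx
  set y : ℝ := ((T : ℝ) + 1) / n with hy
  have hx1 : x ≤ 1 := by
    rw [hx, div_le_one hn']
    exact_mod_cast hle
  have hx0 : 0 ≤ x := by positivity
  have e1 : ((n - (T + D + 1) : ℕ) : ℝ) / (2 * n) = (1 / 2) * (1 - x) := by
    rw [Nat.cast_sub hle, hx]
    push_cast
    field_simp
  have e2 : (((n : ℝ) + (T + 1)) / (2 * n)) = (1 / 2) * (1 + y) := by
    rw [hy]
    field_simp
  have e3 : ((D : ℝ) + 1) / (2 * n) = (1 / 2) * (((D : ℝ) + 1) / n) := by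
    field_simp
  rw [e1, e2, e3, mul_pow, mul_pow, mul_pow]
  have b1 : (1 - x) ^ (n - 1 - i) ≤ Real.exp (-((T : ℝ) + D)) := by
    calc (1 - x) ^ (n - 1 - i) ≤ (Real.exp (-x)) ^ (n - 1 - i) :=
          pow_le_pow_left₀ (by linarith) (by have := Real.add_one_le_exp (-x); linarith) _
      _ = Real.exp (((n - 1 - i : ℕ) : ℝ) * (-x)) := by rw [Real.exp_nat_mul]
      _ ≤ Real.exp (-((T : ℝ) + D)) := by
          apply Real.exp_le_exp.2
          have hcast : ((n - 1 - i : ℕ) : ℝ) = (n : ℝ) - 1 - i := by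
            rw [show n - 1 - i = n - (1 + i) by omega, Nat.cast_sub (by omega)]
            push_cast
            ring
          rw [hcast]
          have h1 : (n : ℝ) * x = (T : ℝ) + D + 1 := by
            rw [hx]
            field_simp
          have h2 : (1 + (i : ℝ)) * x ≤ 1 := by
            rw [hx, ← mul_div_assoc, div_le_one hn']
            have : (((T + D + 1) * (i + 1) : ℕ) : ℝ) ≤ (n : ℝ) := by exact_mod_cast hc
            push_cast at this
            linarith
          nlinarith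
  have b2 : (1 + y) ^ (n - 1) ≤ Real.exp ((T : ℝ) + 1) := by
    have hy0 : 0 ≤ y := by positivity
    calc (1 + y) ^ (n - 1) ≤ (Real.exp y) ^ (n - 1) :=
          pow_le_pow_left₀ (by linarith) (by have := Real.add_one_le_exp y; linarith) _
      _ = Real.exp (((n - 1 : ℕ) : ℝ) * y) := by rw [Real.exp_nat_mul]
      _ ≤ Real.exp ((T : ℝ) + 1) := by
          apply Real.exp_le_exp.2
          have h1 : ((n - 1 : ℕ) : ℝ) ≤ n := by exact_mod_cast Nat.sub_le _ _
          calc ((n - 1 : ℕ) : ℝ) * y ≤ n * y := mul_le_mul_of_nonneg_right h1 hy0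
            _ = (T : ℝ) + 1 := by
                rw [hy]
                field_simp
  have b3 : Real.exp (-((T : ℝ) + D)) * Real.exp ((T : ℝ) + 1) =
      Real.exp 1 * Real.exp (-(D : ℝ)) := by
    rw [← Real.exp_add, ← Real.exp_add]
    congr 1
    ring
  have hpow : (1 / (2 * (n : ℝ))) * ((1 / 2 : ℝ) ^ (n - 1 - i) * (1 / 2) ^ i) *
      (1 / 2) ^ (n - 1) = (2 / (n : ℝ)) * ((1 : ℝ) / 2 ^ n) ^ 2 := by
    rw [← pow_add, show n - 1 - i + i = n - 1 by omega]
    obtain ⟨m, rfl⟩ : ∃ m, n = m + 1 := ⟨n - 1, by omega⟩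
    simp only [Nat.add_sub_cancel]
    rw [pow_succ, one_div_pow]
    field_simp
    ring
  have hnonneg : 0 ≤ (((D : ℝ) + 1) / n) ^ i := by positivity
  have hexp : (1 - x) ^ (n - 1 - i) * (1 + y) ^ (n - 1) ≤
      Real.exp 1 * Real.exp (-(D : ℝ)) := by
    rw [← b3]
    exact mul_le_mul b1 b2 (by positivity) (Real.exp_pos _).le
  calc (1 / (2 * (n : ℝ))) * ((1 / 2) ^ (n - 1 - i) * (1 - x) ^ (n - 1 - i) *
        ((1 / 2) ^ i * (((D : ℝ) + 1) / n) ^ i)) * ((1 / 2) ^ (n - 1) * (1 + y) ^ (n - 1))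
      = ((1 / (2 * (n : ℝ))) * ((1 / 2 : ℝ) ^ (n - 1 - i) * (1 / 2) ^ i) * (1 / 2) ^ (n - 1)) *
        (((D : ℝ) + 1) / n) ^ i * ((1 - x) ^ (n - 1 - i) * (1 + y) ^ (n - 1)) := by ring
    _ = (2 / (n : ℝ)) * ((1 : ℝ) / 2 ^ n) ^ 2 * (((D : ℝ) + 1) / n) ^ i *
        ((1 - x) ^ (n - 1 - i) * (1 + y) ^ (n - 1)) := by rw [hpow]
    _ ≤ _ := mul_le_mul_of_nonneg_left hexp (by positivity)

theorem PX_fix (hn : 0 < n) (c : Bool) (A B : Finset V) (v : V) (T D : ℕ) (J : Finset V)
    (hA : A.card = n) (hB : B.card = n) (hAB : A ∩ B = {v}) (hJ : J ⊆ A.erase v)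
    (hc : (T + D + 1) * (J.card + 1) ≤ n) :
    Pr (fun ω : Cfg V n => NM ω c B v T ∧ (∀ u ∈ A, col ω u = c ∧ T ≤ lev ω u) ∧
      (A.erase v).filter (fun u => lev ω u ≤ T + D) = J) ≤
    (2 / (n : ℝ)) * ((1 : ℝ) / 2 ^ n) ^ 2 * (((D : ℝ) + 1) / n) ^ J.card *
      (Real.exp 1 * Real.exp (-(D : ℝ))) := by
  have hn' : (0 : ℝ) < n := by exact_mod_cast hn
  have hvA : v ∈ A := by
    have : v ∈ A ∩ B := by rw [hAB]; exact Finset.mem_singleton_self v
    exact (Finset.mem_inter.1 this).1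
  have hvB : v ∈ B := by
    have : v ∈ A ∩ B := by rw [hAB]; exact Finset.mem_singleton_self v
    exact (Finset.mem_inter.1 this).2
  have hvJ : v ∉ J := fun h => Finset.notMem_erase v A (hJ h)
  set P : V → Finset (Bool × Fin n) := fun w =>
    if w = v then univ.filter (fun x => x.1 = c ∧ T ≤ (x.2 : ℕ) ∧ (x.2 : ℕ) ≤ T)
    else if w ∈ J then univ.filter (fun x => x.1 = c ∧ T ≤ (x.2 : ℕ) ∧ (x.2 : ℕ) ≤ T + D)
    else if w ∈ A then univ.filter (fun x => x.1 = c ∧ T + D + 1 ≤ (x.2 : ℕ))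
    else univ.filter (fun x => x.1 = c → (x.2 : ℕ) ≤ T) with hP
  have h1 := Pr_le_prod_const hn (A ∪ B) (fun ω : Cfg V n => NM ω c B v T ∧
      (∀ u ∈ A, col ω u = c ∧ T ≤ lev ω u) ∧
      (A.erase v).filter (fun u => lev ω u ≤ T + D) = J) P (by
    rintro ω ⟨⟨_, hcv, hlv, hBw⟩, hAu, hfil⟩ w hw
    simp only [hP]
    by_cases hwv : w = v
    · subst hwv
      rw [if_pos rfl, Finset.mem_filter]
      exact ⟨Finset.mem_univ _, hcv, hlv.ge, hlv.le⟩
    · rw [if_neg hwv]
      by_cases hwJ : w ∈ J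
      · rw [if_pos hwJ, Finset.mem_filter]
        have h2 : w ∈ (A.erase v).filter (fun u => lev ω u ≤ T + D) := by rw [hfil]; exact hwJ
        rw [Finset.mem_filter] at h2
        have hwA : w ∈ A := Finset.mem_of_mem_erase h2.1
        exact ⟨Finset.mem_univ _, (hAu w hwA).1, (hAu w hwA).2, h2.2⟩
      · rw [if_neg hwJ]
        by_cases hwA : w ∈ A
        · rw [if_pos hwA, Finset.mem_filter]
          refine ⟨Finset.mem_univ _, (hAu w hwA).1, ?_⟩
          by_contra hcon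
          apply hwJ
          rw [← hfil, Finset.mem_filter]
          refine ⟨Finset.mem_erase.2 ⟨hwv, hwA⟩, ?_⟩
          have : lev ω w < T + D + 1 := not_le.1 hcon
          omega
        · rw [if_neg hwA, Finset.mem_filter]
          have hwB : w ∈ B := by
            rcases Finset.mem_union.1 hw with h | h
            · exact absurd h hwA
            · exact h
          exact ⟨Finset.mem_univ _, fun h => hBw w hwB hwv h⟩)
  refine h1.trans ?_
  set f : V → ℝ := fun w => ((P w).card : ℝ) / (2 * n) with hf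
  have hf0 : ∀ w, 0 ≤ f w := fun w => by positivity
  have hdis : Disjoint A (B.erase v) := by
    rw [Finset.disjoint_left]
    intro w hwA hwB
    have : w ∈ A ∩ B := Finset.mem_inter.2 ⟨hwA, Finset.mem_of_mem_erase hwB⟩
    rw [hAB, Finset.mem_singleton] at this
    exact (Finset.ne_of_mem_erase hwB) this
  have hunion : A ∪ B = A ∪ B.erase v := by
    ext w
    simp only [Finset.mem_union, Finset.mem_erase]
    constructor
    · rintro (h | h)
      · exact Or.inl h
      · by_cases hwv : w = v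
        · exact Or.inl (hwv ▸ hvA)
        · exact Or.inr ⟨hwv, h⟩
    · rintro (h | h)
      · exact Or.inl h
      · exact Or.inr h.2
  have hsplit : ∏ w ∈ A ∪ B, f w =
      f v * ((∏ w ∈ (A.erase v) \ J, f w) * ∏ w ∈ J, f w) * ∏ w ∈ B.erase v, f w := by
    rw [hunion, Finset.prod_union hdis, ← Finset.mul_prod_erase A f hvA,
      ← Finset.prod_sdiff hJ]
  have hfv : f v ≤ 1 / (2 * (n : ℝ)) := by
    have : ((P v).card : ℝ) ≤ 1 := by
      simp only [hP, if_true]
      have := card_window_le (n := n) c T T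
      have h2 : T + 1 - T = 1 := by omega
      rw [h2] at this
      exact_mod_cast this
    exact div_le_div_of_nonneg_right this (by positivity)
  have hfJ : ∏ w ∈ J, f w ≤ (((D : ℝ) + 1) / (2 * n)) ^ J.card := by
    refine PX_prod_le J f _ (fun w _ => hf0 w) fun w hw => ?_
    have hwv : w ≠ v := fun h => hvJ (h ▸ hw)
    have : ((P w).card : ℝ) ≤ (D : ℝ) + 1 := by
      simp only [hP, if_neg hwv, if_pos hw]
      have := card_window_le (n := n) c T (T + D)
      have h2 : T + D + 1 - T = D + 1 := by omega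
      rw [h2] at this
      exact_mod_cast this
    exact div_le_div_of_nonneg_right this (by positivity)
  have hfA : ∏ w ∈ (A.erase v) \ J, f w ≤
      (((n - (T + D + 1) : ℕ) : ℝ) / (2 * n)) ^ (n - 1 - J.card) := by
    have hcard : ((A.erase v) \ J).card = n - 1 - J.card := by
      rw [Finset.card_sdiff_of_subset hJ, Finset.card_erase_of_mem hvA, hA]
    rw [← hcard]
    refine PX_prod_le _ f _ (fun w _ => hf0 w) fun w hw => ?_
    rw [Finset.mem_sdiff, Finset.mem_erase] at hw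
    obtain ⟨⟨hwv, hwA⟩, hwJ⟩ := hw
    have : ((P w).card : ℝ) = ((n - (T + D + 1) : ℕ) : ℝ) := by
      simp only [hP, if_neg hwv, if_neg hwJ, if_pos hwA]
      exact_mod_cast card_ge (n := n) c (T + D + 1)
    simp only [hf]
    rw [this]
  have hfB : ∏ w ∈ B.erase v, f w ≤ (((n : ℝ) + (T + 1)) / (2 * n)) ^ (n - 1) := by
    have hcard : (B.erase v).card = n - 1 := by
      rw [Finset.card_erase_of_mem hvB, hB]
    rw [← hcard]
    refine PX_prod_le _ f _ (fun w _ => hf0 w) fun w hw => ?_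
    rw [Finset.mem_erase] at hw
    obtain ⟨hwv, hwB⟩ := hw
    have hwA : w ∉ A := fun h => by
      have : w ∈ A ∩ B := Finset.mem_inter.2 ⟨h, hwB⟩
      rw [hAB, Finset.mem_singleton] at this
      exact hwv this
    have hwJ : w ∉ J := fun h => hwA (Finset.mem_of_mem_erase (hJ h))
    have : ((P w).card : ℝ) ≤ (n : ℝ) + (T + 1) := by
      simp only [hP, if_neg hwv, if_neg hwJ, if_neg hwA]
      exact_mod_cast PX_card (n := n) c T
    exact div_le_div_of_nonneg_right this (by positivity)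
  have hJc : J.card + 1 ≤ n := by
    have h2 := Finset.card_le_card hJ
    rw [Finset.card_erase_of_mem hvA, hA] at h2
    omega
  have hnum := PX_num n T D J.card hn hJc hc
  refine le_trans ?_ hnum
  change ∏ w ∈ A ∪ B, f w ≤ _
  rw [hsplit]
  have p1 : (∏ w ∈ (A.erase v) \ J, f w) * ∏ w ∈ J, f w ≤
      (((n - (T + D + 1) : ℕ) : ℝ) / (2 * n)) ^ (n - 1 - J.card) *
        (((D : ℝ) + 1) / (2 * n)) ^ J.card :=
    mul_le_mul hfA hfJ (Finset.prod_nonneg fun w _ => hf0 w) (by positivity)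
  have p2 : f v * ((∏ w ∈ (A.erase v) \ J, f w) * ∏ w ∈ J, f w) ≤
      (1 / (2 * (n : ℝ))) * ((((n - (T + D + 1) : ℕ) : ℝ) / (2 * n)) ^ (n - 1 - J.card) *
        (((D : ℝ) + 1) / (2 * n)) ^ J.card) :=
    mul_le_mul hfv p1 (mul_nonneg (Finset.prod_nonneg fun w _ => hf0 w)
      (Finset.prod_nonneg fun w _ => hf0 w)) (by positivity)
  exact mul_le_mul p2 hfB (Finset.prod_nonneg fun w _ => hf0 w) (by positivity)

theorem PX_geom (x : ℝ) (hx : 1 ≤ x) (r : ℕ) : ∑ i ∈ range r, x ^ i ≤ (x + 1) ^ r := by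
  induction r with
  | zero => simp
  | succ r ih =>
    rw [Finset.sum_range_succ, pow_succ]
    have h1 : x ^ r ≤ (x + 1) ^ r := pow_le_pow_left₀ (by linarith) (by linarith) r
    have h2 : 0 ≤ (x + 1) ^ r := by positivity
    nlinarith

theorem PX_at (hn : 0 < n) (c : Bool) (A B : Finset V) (v : V) (r T D : ℕ)
    (hA : A.card = n) (hB : B.card = n) (hAB : A ∩ B = {v})
    (hc : (T + D + 1) * r ≤ n) :
    Pr (fun ω : Cfg V n => ExcAt r D c A B v T ω) ≤
    (2 / (n : ℝ)) * ((1 : ℝ) / 2 ^ n) ^ 2 * ((D : ℝ) + 2) ^ r *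
      (Real.exp 1 * Real.exp (-(D : ℝ))) := by
  have hn' : (0 : ℝ) < n := by exact_mod_cast hn
  have hvA : v ∈ A := by
    have : v ∈ A ∩ B := by rw [hAB]; exact Finset.mem_singleton_self v
    exact (Finset.mem_inter.1 this).1
  set K : ℝ := (2 / (n : ℝ)) * ((1 : ℝ) / 2 ^ n) ^ 2 * (Real.exp 1 * Real.exp (-(D : ℝ))) with hK
  have hK0 : 0 ≤ K := by positivity
  have h1 : Pr (fun ω : Cfg V n => ExcAt r D c A B v T ω) ≤
      Pr (fun ω : Cfg V n => ∃ i ∈ range r, ∃ J ∈ (A.erase v).powersetCard i,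
        (NM ω c B v T ∧ (∀ u ∈ A, col ω u = c ∧ T ≤ lev ω u) ∧
          (A.erase v).filter (fun u => lev ω u ≤ T + D) = J)) := by
    refine Pr_mono fun ω hω => ?_
    obtain ⟨h2, h3, h4⟩ := hω
    exact ⟨_, Finset.mem_range.2 h4, _, Finset.mem_powersetCard.2
      ⟨Finset.filter_subset _ _, rfl⟩, h2, h3, rfl⟩
  refine h1.trans ((Pr_exists_mem_le _ _).trans ?_)
  have h5 : ∀ i ∈ range r, Pr (fun ω : Cfg V n => ∃ J ∈ (A.erase v).powersetCard i,
        (NM ω c B v T ∧ (∀ u ∈ A, col ω u = c ∧ T ≤ lev ω u) ∧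
          (A.erase v).filter (fun u => lev ω u ≤ T + D) = J)) ≤ K * ((D : ℝ) + 1) ^ i := by
    intro i hi
    rw [Finset.mem_range] at hi
    have h6 := Pr_exists_mem_le_card ((A.erase v).powersetCard i)
      (fun J (ω : Cfg V n) => (NM ω c B v T ∧ (∀ u ∈ A, col ω u = c ∧ T ≤ lev ω u) ∧
          (A.erase v).filter (fun u => lev ω u ≤ T + D) = J))
      (K * (((D : ℝ) + 1) / n) ^ i) (by
        intro J hJ
        rw [Finset.mem_powersetCard] at hJ
        have hc' : (T + D + 1) * (J.card + 1) ≤ n := by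
          rw [hJ.2]
          exact (Nat.mul_le_mul_left _ hi).trans hc
        have h7 := PX_fix hn c A B v T D J hA hB hAB hJ.1 hc'
        refine h7.trans (le_of_eq ?_)
        rw [hJ.2, hK]
        ring)
    refine h6.trans ?_
    rw [Finset.card_powersetCard, Finset.card_erase_of_mem hvA, hA]
    have h8 : (((n - 1).choose i : ℕ) : ℝ) ≤ (n : ℝ) ^ i := by
      have h9 : (n - 1).choose i ≤ (n - 1) ^ i := Nat.choose_le_pow _ _
      have h10 : (n - 1) ^ i ≤ n ^ i := Nat.pow_le_pow_left (Nat.sub_le _ _) i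
      exact_mod_cast h9.trans h10
    calc (((n - 1).choose i : ℕ) : ℝ) * (K * (((D : ℝ) + 1) / n) ^ i) ≤
          (n : ℝ) ^ i * (K * (((D : ℝ) + 1) / n) ^ i) :=
          mul_le_mul_of_nonneg_right h8 (by positivity)
      _ = K * ((D : ℝ) + 1) ^ i := by
          rw [div_pow]
          field_simp
  refine (Finset.sum_le_sum h5).trans ?_
  rw [← Finset.mul_sum]
  have h11 := PX_geom ((D : ℝ) + 1) (by have : (0 : ℝ) ≤ D := Nat.cast_nonneg _; linarith) r
  have h12 : ((D : ℝ) + 1 + 1) ^ r = ((D : ℝ) + 2) ^ r := by ring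
  rw [h12] at h11
  refine (mul_le_mul_of_nonneg_left h11 hK0).trans (le_of_eq ?_)
  rw [hK]
  ring

theorem Pr_Exc (hn : 0 < n) (H : Finset (Finset V)) (hH : ∀ A ∈ H, A.card = n) (r M D : ℕ)
    (hcond : (M + D + 1) * (r + 1) ≤ n) (c : Bool) :
    Pr (fun ω : Cfg V n => Exc H r M D c ω) ≤
      ((H.card : ℝ) / 2 ^ n) ^ 2 * (2 * Real.exp 1 / (n : ℝ)) * (M : ℝ) * ((D : ℝ) + 2) ^ r *
        Real.exp (-(D : ℝ)) := by
  have hn' : (0 : ℝ) < n := by exact_mod_cast hn
  set K : ℝ := (2 / (n : ℝ)) * ((1 : ℝ) / 2 ^ n) ^ 2 * ((D : ℝ) + 2) ^ r *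
      (Real.exp 1 * Real.exp (-(D : ℝ))) with hK
  have hK0 : 0 ≤ K := by positivity
  have h1 : Pr (fun ω : Cfg V n => Exc H r M D c ω) ≤ (H.card : ℝ) * ((H.card : ℝ) *
      ((M : ℝ) * K)) := by
    refine Pr_exists_mem_le_card H _ _ fun A hA => ?_
    refine Pr_exists_mem_le_card H _ _ fun B hB => ?_
    by_cases hv : ∃ v, A ∩ B = {v}
    · obtain ⟨v, hAB⟩ := hv
      have h2 : Pr (fun ω : Cfg V n => ∃ v, A ∩ B = {v} ∧ ∃ T ∈ range M,
          ExcAt r D c A B v T ω) ≤ Pr (fun ω : Cfg V n => ∃ T ∈ range M,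
          ExcAt r D c A B v T ω) := by
        refine Pr_mono fun ω hω => ?_
        obtain ⟨v', hv', h3⟩ := hω
        have : v' = v := by
          rw [hAB] at hv'
          exact (Finset.singleton_injective hv').symm
        rw [this] at h3
        exact h3
      refine h2.trans ?_
      have h4 := Pr_exists_mem_le_card (range M)
        (fun T (ω : Cfg V n) => ExcAt r D c A B v T ω) K (by
        intro T hT
        rw [Finset.mem_range] at hT
        refine PX_at hn c A B v r T D (hH A hA) (hH B hB) hAB ?_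
        calc (T + D + 1) * r ≤ (M + D + 1) * (r + 1) :=
              Nat.mul_le_mul (by omega) (by omega)
          _ ≤ n := hcond)
      rw [Finset.card_range] at h4
      exact h4
    · have h2 : Pr (fun ω : Cfg V n => ∃ v, A ∩ B = {v} ∧ ∃ T ∈ range M,
          ExcAt r D c A B v T ω) ≤ 0 := by
        unfold Pr
        refine (Ex_mono (g := fun _ => (0 : ℝ)) fun ω => ?_).trans (Ex_const_le 0 le_rfl)
        rw [if_neg]
        rintro ⟨v, hAB, _⟩
        exact hv ⟨v, hAB⟩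
      exact h2.trans (by positivity)
  refine h1.trans (le_of_eq ?_)
  rw [hK]
  field_simp

end

end PropB
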