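import Pool.Agent.H7.PB.Det
import Pool.Agent.H7.PB.PE
import Pool.Agent.H7.PB.PD
import Pool.Agent.H7.PB.PX
import Pool.Agent.H7.PB.N6

/-! Module Fin: the finite theorem, by the union bound. -/

namespace PropB

noncomputable section

open Finset Classical

variable {V : Type*} [Fintype V] [DecidableEq V] {n : ℕ}

/-- union bound over the two colours -/
theorem Fin_bool (p : Bool → Cfg V n → Prop) (a : ℝ)
    (h : ∀ c, Pr (fun ω : Cfg V n => p c ω) ≤ a) :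
    Pr (fun ω : Cfg V n => ∃ c, p c ω) ≤ 2 * a := by
  have h1 : Pr (fun ω : Cfg V n => ∃ c, p c ω) ≤
      Pr (fun ω : Cfg V n => p true ω ∨ p false ω) := by
    apply Pr_mono
    rintro ω ⟨c, hc⟩
    cases c
    · exact Or.inr hc
    · exact Or.inl hc
  have h2 := Pr_or_le (fun ω : Cfg V n => p true ω) (fun ω => p false ω)
  have h3 := h true
  have h4 := h false
  linarith

theorem finite_main (hn : 0 < n) (H : Finset (Finset V)) (hH : ∀ A ∈ H, A.card = n)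
    (r T1 M D y Dl : ℕ) (Q : ℝ) (hMdef : M = T1 + D + 1) (hQ : 0 < Q) (h2M : 2 * M ≤ n)
    (hcond : (M + D + 1) * (r + 1) ≤ n)
    (hD : 4 * Q * (M : ℝ) ^ 2 * Real.exp (-((y : ℝ) * (Dl : ℝ) / (n : ℝ))) ≤ 1)
    (β : ℝ) (hβ : (H.card : ℝ) / 2 ^ n ≤ β)
    (hlt : 2 * β * Real.exp (-(T1 : ℝ)) + 8 * β ^ 2 * (M : ℝ) ^ 2 * Real.exp (M : ℝ) / (n : ℝ) ^ 2 +
      2 * (β ^ 2 * (2 * Real.exp 2 * (M : ℝ) * Real.exp (2 * (D : ℝ)) / ((n : ℝ) * Q)) +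
        β ^ 2 * (2 * Real.exp 1 / (n : ℝ)) * (M : ℝ) * ((D : ℝ) + 2) ^ r * Real.exp (-(D : ℝ)) +
        β ^ 2 * (2 * Real.exp 2 / (n : ℝ)) * (2 * (D : ℝ) + 1) ^ r *
          (2 * (D : ℝ) + (Dl : ℝ) + 4 + 4 * Q * (M : ℝ) * ((y : ℝ) / (n : ℝ)) ^ r)) < 1) :
    HasPropertyB H := by
  have hb0 : 0 ≤ (H.card : ℝ) / 2 ^ n := by positivity
  have hβ0 : 0 ≤ β := hb0.trans hβ
  have hsq : ((H.card : ℝ) / 2 ^ n) ^ 2 ≤ β ^ 2 := pow_le_pow_left₀ hb0 hβ 2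
  have hn' : (0 : ℝ) < n := by exact_mod_cast hn
  have hr : r + 1 ≤ n := by
    calc r + 1 = 1 * (r + 1) := (one_mul _).symm
      _ ≤ (M + D + 1) * (r + 1) := Nat.mul_le_mul_right _ (by omega)
      _ ≤ n := hcond
  have hMn : M ≤ n := by omega
  -- the five bounds
  have b1 : Pr (fun ω : Cfg V n => E1 H T1 ω) ≤ 2 * β * Real.exp (-(T1 : ℝ)) := by
    refine (Pr_E1 hn H hH T1).trans ?_
    gcongr
  have b2 : Pr (fun ω : Cfg V n => E2 H M ω) ≤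
      8 * β ^ 2 * (M : ℝ) ^ 2 * Real.exp (M : ℝ) / (n : ℝ) ^ 2 := by
    refine (Pr_E2 hn H hH M h2M).trans ?_
    gcongr
  have b3 : Pr (fun ω : Cfg V n => ∃ c, Dense H M D Q c ω) ≤
      2 * (β ^ 2 * (2 * Real.exp 2 * (M : ℝ) * Real.exp (2 * (D : ℝ)) / ((n : ℝ) * Q))) := by
    refine Fin_bool (fun c ω => Dense H M D Q c ω) _ (fun c => ?_)
    refine (Pr_Dense hn H hH M D Q hQ hMn c).trans ?_
    gcongr
  have b4 : Pr (fun ω : Cfg V n => ∃ c, Exc H r M D c ω) ≤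
      2 * (β ^ 2 * (2 * Real.exp 1 / (n : ℝ)) * (M : ℝ) * ((D : ℝ) + 2) ^ r *
        Real.exp (-(D : ℝ))) := by
    refine Fin_bool (fun c ω => Exc H r M D c ω) _ (fun c => ?_)
    refine (Pr_Exc hn H hH r M D hcond c).trans ?_
    gcongr
  have b5 : Pr (fun ω : Cfg V n => ∃ c, Normal H r M D Q c ω) ≤
      2 * (β ^ 2 * (2 * Real.exp 2 / (n : ℝ)) * (2 * (D : ℝ) + 1) ^ r *
          (2 * (D : ℝ) + (Dl : ℝ) + 4 + 4 * Q * (M : ℝ) * ((y : ℝ) / (n : ℝ)) ^ r)) := by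
    refine Fin_bool (fun c ω => Normal H r M D Q c ω) _ (fun c => ?_)
    refine (Pr_Normal hn H hH r M D y Dl Q hQ hcond hD c).trans ?_
    gcongr
  -- the union
  have u : Pr (fun ω : Cfg V n => (((E1 H T1 ω ∨ E2 H M ω) ∨ ∃ c, Dense H M D Q c ω) ∨
      ∃ c, Exc H r M D c ω) ∨ ∃ c, Normal H r M D Q c ω) < 1 := by
    have c1 := Pr_or_le (fun ω : Cfg V n => ((E1 H T1 ω ∨ E2 H M ω) ∨ ∃ c, Dense H M D Q c ω) ∨
      ∃ c, Exc H r M D c ω) (fun ω => ∃ c, Normal H r M D Q c ω)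
    have c2 := Pr_or_le (fun ω : Cfg V n => (E1 H T1 ω ∨ E2 H M ω) ∨ ∃ c, Dense H M D Q c ω)
      (fun ω => ∃ c, Exc H r M D c ω)
    have c3 := Pr_or_le (fun ω : Cfg V n => E1 H T1 ω ∨ E2 H M ω)
      (fun ω => ∃ c, Dense H M D Q c ω)
    have c4 := Pr_or_le (fun ω : Cfg V n => E1 H T1 ω) (fun ω => E2 H M ω)
    linarith
  obtain ⟨ω, hω⟩ := exists_not_of_Pr_lt_one hn u
  simp only [not_or, not_exists] at hω
  obtain ⟨⟨⟨⟨h1, h2⟩, h3⟩, h4⟩, h5⟩ := hω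
  subst hMdef
  exact det_lemma H r T1 D Q hH hr ω h1 h2 h3 h4 h5

end

end PropB
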