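import Pool.Agent.H7.PB.Basic

/-! Module Par: choice of the parameters. -/

namespace PropB

noncomputable section

open Finset Classical

open Filter Topology in
theorem Par_ev (s t c : ℝ) (ht : 0 < t) (hc : 0 < c) :
    ∀ᶠ x : ℝ in atTop, c * (Real.log x) ^ s ≤ x ^ t := by
  have h := (isLittleO_log_rpow_rpow_atTop s ht).def (c := 1 / c) (by positivity)
  filter_upwards [h, eventually_ge_atTop (1 : ℝ)] with x hx h1
  have h2 : 0 ≤ Real.log x ^ s := Real.rpow_nonneg (Real.log_nonneg h1) _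
  have h3 : 0 ≤ x ^ t := Real.rpow_nonneg (by linarith) _
  rw [Real.norm_of_nonneg h2, Real.norm_of_nonneg h3] at hx
  calc c * (Real.log x) ^ s ≤ c * (1 / c * x ^ t) := mul_le_mul_of_nonneg_left hx hc.le
    _ = x ^ t := by field_simp

theorem Par_det (ε : ℝ) (hε : 0 < ε) (r : ℕ) (hr : 6 ≤ ε * r) (n : ℕ) (hn : 0 < n)
    (L l w : ℝ) (hL : L = Real.log n) (hl : l = Real.log L) (hw : w = L ^ (-ε))
    (F1 : 1 ≤ l) (F2 : 2 * l + 6 ≤ L / 2) (F3 : 3 * ((r : ℝ) + 1) * L ≤ n) (F4 : 2 ≤ (n : ℝ) * w)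
    (F5 : 64 * Real.exp 6 * L ^ 4 ≤ Real.sqrt n) (F7 : 32 * Real.exp 1 * (5 * l) ^ r ≤ L)
    (F8 : 32 * Real.exp 2 * (33 * l) ^ (r + 1) * w ≤ 1) (β : ℝ) (h0 : 0 ≤ β)
    (hβ : β ≤ Real.sqrt n * w) :
    ∃ (T1 M D y Dl : ℕ) (Q : ℝ), 0 < n ∧ M = T1 + D + 1 ∧ 0 < Q ∧ 2 * M ≤ n ∧
      (M + D + 1) * (r + 1) ≤ n ∧
      4 * Q * (M : ℝ) ^ 2 * Real.exp (-((y : ℝ) * (Dl : ℝ) / (n : ℝ))) ≤ 1 ∧
      2 * β * Real.exp (-(T1 : ℝ)) + 8 * β ^ 2 * (M : ℝ) ^ 2 * Real.exp (M : ℝ) / (n : ℝ) ^ 2 +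
      2 * (β ^ 2 * (2 * Real.exp 2 * (M : ℝ) * Real.exp (2 * (D : ℝ)) / ((n : ℝ) * Q)) +
        β ^ 2 * (2 * Real.exp 1 / (n : ℝ)) * (M : ℝ) * ((D : ℝ) + 2) ^ r * Real.exp (-(D : ℝ)) +
        β ^ 2 * (2 * Real.exp 2 / (n : ℝ)) * (2 * (D : ℝ) + 1) ^ r *
          (2 * (D : ℝ) + (Dl : ℝ) + 4 + 4 * Q * (M : ℝ) * ((y : ℝ) / (n : ℝ)) ^ r)) < 1 := by
  have hN : (0 : ℝ) < n := by exact_mod_cast hn
  set N : ℝ := (n : ℝ) with hNdef
  have hL0 : 16 ≤ L := by linarith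
  have hLpos : 0 < L := by linarith
  have hexpl : Real.exp l = L := by rw [hl, Real.exp_log hLpos]
  have hexpL : Real.exp L = N := by rw [hL, Real.exp_log hN]
  set sN : ℝ := Real.sqrt N with hsN
  have hsN2 : sN ^ 2 = N := Real.sq_sqrt hN.le
  have hsN0 : 0 < sN := Real.sqrt_pos.2 hN
  have hexpL2 : Real.exp (L / 2) = sN := by
    rw [hsN, ← hexpL]
    rw [show Real.exp L = Real.exp (L / 2) ^ 2 by rw [← Real.exp_nat_mul]; congr 1; push_cast; ring]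
    rw [Real.sqrt_sq (Real.exp_pos _).le]
  have hw0 : 0 < w := by rw [hw]; exact Real.rpow_pos_of_pos hLpos _
  have hw1 : w ≤ 1 := by
    rw [hw]
    exact Real.rpow_le_one_of_one_le_of_nonpos (by linarith) (by linarith)
  have he1 : (2 : ℝ) ≤ Real.exp 1 := by
    have := Real.add_one_le_exp (1 : ℝ)
    linarith
  have he3 : (8 : ℝ) ≤ Real.exp 3 := by
    have h : Real.exp 3 = Real.exp 1 ^ 3 := by rw [← Real.exp_nat_mul]; norm_num
    rw [h]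
    calc (8 : ℝ) = 2 ^ 3 := by norm_num
      _ ≤ Real.exp 1 ^ 3 := pow_le_pow_left₀ (by norm_num) he1 3
  have he2 : (4 : ℝ) ≤ Real.exp 2 := by
    have h : Real.exp 2 = Real.exp 1 ^ 2 := by rw [← Real.exp_nat_mul]; norm_num
    rw [h]
    calc (4 : ℝ) = 2 ^ 2 := by norm_num
      _ ≤ Real.exp 1 ^ 2 := pow_le_pow_left₀ (by norm_num) he1 2
  -- beta
  have hβ2 : β ^ 2 ≤ N * w ^ 2 := by
    calc β ^ 2 ≤ (sN * w) ^ 2 := pow_le_pow_left₀ h0 hβ 2
      _ = N * w ^ 2 := by rw [mul_pow, hsN2]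
  -- parameters
  set T1 : ℕ := ⌈L / 2 + 3⌉₊ with hT1
  set D : ℕ := ⌈2 * l⌉₊ with hD
  set M : ℕ := T1 + D + 1 with hM
  set y : ℕ := ⌊N * w⌋₊ with hy
  have hT1a : L / 2 + 3 ≤ (T1 : ℝ) := Nat.le_ceil _
  have hT1b : (T1 : ℝ) ≤ L / 2 + 4 := by
    have := (Nat.ceil_lt_add_one (show 0 ≤ L / 2 + 3 by linarith)).le
    linarith
  have hDa : 2 * l ≤ (D : ℝ) := Nat.le_ceil _
  have hDb : (D : ℝ) ≤ 2 * l + 1 := (Nat.ceil_lt_add_one (show 0 ≤ 2 * l by linarith)).le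
  have hMr : (M : ℝ) = T1 + D + 1 := by rw [hM]; push_cast; ring
  have hMb : (M : ℝ) ≤ L / 2 + 2 * l + 6 := by rw [hMr]; linarith
  have hML : (M : ℝ) ≤ L := by linarith
  have hM1 : (1 : ℝ) ≤ M := by
    rw [hMr]
    have : (0 : ℝ) ≤ T1 := by positivity
    have : (0 : ℝ) ≤ D := by positivity
    linarith
  have hMN : (M : ℝ) ≤ L := hML
  have hL1 : 1 ≤ L := by linarith
  have hr0 : (0 : ℝ) ≤ r := by positivity
  set Q : ℝ := L ^ 5 with hQ
  have hQ0 : 0 < Q := by positivity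
  have hQ1 : 1 ≤ Q := one_le_pow₀ hL1
  set K : ℝ := 4 * Q * (M : ℝ) ^ 2 with hK
  have hM2 : (1 : ℝ) ≤ (M : ℝ) ^ 2 := one_le_pow₀ hM1
  have hK1 : 1 ≤ K := by
    rw [hK]
    nlinarith
  have hK0 : 0 < K := by linarith
  have hlg0 : 0 ≤ Real.log K := Real.log_nonneg hK1
  have hexp2l : Real.exp (2 * l) = L ^ 2 := by
    rw [← hexpl, ← Real.exp_nat_mul]
    norm_num
  have hexp7l : Real.exp (7 * l) = L ^ 7 := by
    rw [← hexpl, ← Real.exp_nat_mul]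
    norm_num
  have hexp4l : Real.exp (4 * l) = L ^ 4 := by
    rw [← hexpl, ← Real.exp_nat_mul]
    norm_num
  have hlg : Real.log K ≤ 2 + 7 * l := by
    rw [Real.log_le_iff_le_exp hK0, Real.exp_add, hexp7l]
    have hMsq : (M : ℝ) ^ 2 ≤ L ^ 2 := pow_le_pow_left₀ (by linarith) hML 2
    calc K = 4 * (L ^ 5 * (M : ℝ) ^ 2) := by rw [hK]; ring
      _ ≤ Real.exp 2 * (L ^ 5 * L ^ 2) := by gcongr
      _ = Real.exp 2 * L ^ 7 := by ring
  have hNw : 2 ≤ N * w := F4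
  have hya : (y : ℝ) ≤ N * w := Nat.floor_le (by positivity)
  have hyb : N * w / 2 ≤ (y : ℝ) := by
    have := Nat.lt_floor_add_one (N * w)
    rw [← hy] at this
    linarith
  have hy0 : (0 : ℝ) < y := by linarith
  set Dl : ℕ := ⌈N / (y : ℝ) * Real.log K⌉₊ with hDl
  have hDla : N / (y : ℝ) * Real.log K ≤ (Dl : ℝ) := Nat.le_ceil _
  have hDlb : (Dl : ℝ) ≤ N / (y : ℝ) * Real.log K + 1 :=
    (Nat.ceil_lt_add_one (by positivity)).le
  have hNy : N / (y : ℝ) ≤ 2 / w := by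
    rw [div_le_div_iff₀ hy0 hw0]
    linarith
  have hDlc : (Dl : ℝ) ≤ 2 / w * (2 + 7 * l) + 1 := by
    have h1 : N / (y : ℝ) * Real.log K ≤ 2 / w * (2 + 7 * l) := by
      apply mul_le_mul hNy hlg hlg0 (by positivity)
    linarith
  refine ⟨T1, M, D, y, Dl, Q, hn, rfl, hQ0, ?_, ?_, ?_, ?_⟩
  · have : (2 * (M : ℝ)) ≤ N := by
      have h1 : 0 ≤ (r : ℝ) * L := by positivity
      linarith
    rw [hNdef] at this
    exact_mod_cast this
  · have : ((M : ℝ) + D + 1) * ((r : ℝ) + 1) ≤ N := by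
      calc ((M : ℝ) + D + 1) * ((r : ℝ) + 1) ≤ (3 * L) * ((r : ℝ) + 1) := by
            apply mul_le_mul_of_nonneg_right _ (by positivity)
            linarith
        _ = 3 * ((r : ℝ) + 1) * L := by ring
        _ ≤ N := F3
    rw [hNdef] at this
    exact_mod_cast this
  · have h1 : Real.log K ≤ (y : ℝ) * (Dl : ℝ) / N := by
      rw [le_div_iff₀ hN]
      calc Real.log K * N = (y : ℝ) * (N / (y : ℝ) * Real.log K) := by field_simp
        _ ≤ (y : ℝ) * (Dl : ℝ) := mul_le_mul_of_nonneg_left hDla hy0.le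
    calc K * Real.exp (-((y : ℝ) * (Dl : ℝ) / N)) ≤ K * Real.exp (-Real.log K) := by
          apply mul_le_mul_of_nonneg_left _ hK0.le
          exact Real.exp_le_exp.2 (by linarith)
      _ = 1 := by
          rw [Real.exp_neg, Real.exp_log hK0]
          exact mul_inv_cancel₀ hK0.ne'
  · have hw2 : w ^ 2 ≤ 1 := pow_le_one₀ hw0.le hw1
    have ea : 2 * β * Real.exp (-(T1 : ℝ)) ≤ 1 / 4 := by
      have h1 : Real.exp (-(T1 : ℝ)) ≤ Real.exp (-(L / 2 + 3)) := Real.exp_le_exp.2 (by linarith)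
      have h2 : Real.exp (-(L / 2 + 3)) = 1 / (sN * Real.exp 3) := by
        rw [Real.exp_neg, Real.exp_add, hexpL2, one_div]
      have h3 : Real.exp (-(T1 : ℝ)) ≤ 1 / (sN * 8) := by
        rw [h2] at h1
        refine h1.trans (one_div_le_one_div_of_le (by positivity) ?_)
        exact mul_le_mul_of_nonneg_left he3 hsN0.le
      calc 2 * β * Real.exp (-(T1 : ℝ)) ≤ 2 * (sN * w) * (1 / (sN * 8)) := by gcongr
        _ = w / 4 := by field_simp; ring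
        _ ≤ 1 / 4 := by linarith
    have hβN : β ^ 2 ≤ N := hβ2.trans (by nlinarith)
    have eb : 8 * β ^ 2 * (M : ℝ) ^ 2 * Real.exp (M : ℝ) / N ^ 2 ≤ 1 / 8 := by
      rw [div_le_iff₀ (by positivity)]
      have h1 : Real.exp (M : ℝ) ≤ sN * L ^ 2 * Real.exp 6 := by
        calc Real.exp (M : ℝ) ≤ Real.exp (L / 2 + 2 * l + 6) := Real.exp_le_exp.2 hMb
          _ = sN * L ^ 2 * Real.exp 6 := by rw [Real.exp_add, Real.exp_add, hexpL2, hexp2l]
      have hMsq : (M : ℝ) ^ 2 ≤ L ^ 2 := pow_le_pow_left₀ (by linarith) hML 2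
      calc 8 * β ^ 2 * (M : ℝ) ^ 2 * Real.exp (M : ℝ) ≤
            8 * N * L ^ 2 * (sN * L ^ 2 * Real.exp 6) := by gcongr
        _ = (64 * Real.exp 6 * L ^ 4) * (sN * N / 8) := by ring
        _ ≤ sN * (sN * N / 8) := mul_le_mul_of_nonneg_right F5 (by positivity)
        _ = sN ^ 2 * N / 8 := by ring
        _ = 1 / 8 * N ^ 2 := by rw [hsN2]; ring
    have h33 : (1 : ℝ) ≤ (33 * l) ^ (r + 1) := one_le_pow₀ (by linarith)
    have hwE : 32 * Real.exp 2 * w ≤ 1 := by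
      refine le_trans ?_ F8
      have : 32 * Real.exp 2 * w * 1 ≤ 32 * Real.exp 2 * w * (33 * l) ^ (r + 1) :=
        mul_le_mul_of_nonneg_left h33 (by positivity)
      linarith
    have ec : β ^ 2 * (2 * Real.exp 2 * (M : ℝ) * Real.exp (2 * (D : ℝ)) / (N * Q)) ≤ 1 / 16 := by
      have h1 : Real.exp (2 * (D : ℝ)) ≤ Real.exp 2 * L ^ 4 := by
        rw [← hexp4l, ← Real.exp_add]
        exact Real.exp_le_exp.2 (by linarith)
      have h2 : 2 * Real.exp 2 * (M : ℝ) * Real.exp (2 * (D : ℝ)) / (N * Q) ≤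
          2 * Real.exp 2 * L * (Real.exp 2 * L ^ 4) / (N * L ^ 5) := by
        rw [hQ]
        gcongr
      calc β ^ 2 * (2 * Real.exp 2 * (M : ℝ) * Real.exp (2 * (D : ℝ)) / (N * Q)) ≤
            (N * w ^ 2) * (2 * Real.exp 2 * L * (Real.exp 2 * L ^ 4) / (N * L ^ 5)) := by
            apply mul_le_mul hβ2 h2 (by positivity) (by positivity)
        _ = 2 * (Real.exp 2 * w) ^ 2 := by field_simp
        _ ≤ 2 * (1 / 32) ^ 2 := by
            have : Real.exp 2 * w ≤ 1 / 32 := by linarith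
            have h0' : 0 ≤ Real.exp 2 * w := by positivity
            gcongr
        _ ≤ 1 / 16 := by norm_num
    have ed : β ^ 2 * (2 * Real.exp 1 / N) * (M : ℝ) * ((D : ℝ) + 2) ^ r * Real.exp (-(D : ℝ)) ≤
        1 / 16 := by
      have h1 : Real.exp (-(D : ℝ)) ≤ 1 / L ^ 2 := by
        rw [← hexp2l, one_div, ← Real.exp_neg]
        exact Real.exp_le_exp.2 (by linarith)
      have h2 : ((D : ℝ) + 2) ^ r ≤ (5 * l) ^ r := pow_le_pow_left₀ (by positivity) (by linarith) r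
      have hβw : β ^ 2 ≤ N * 1 := by linarith
      calc β ^ 2 * (2 * Real.exp 1 / N) * (M : ℝ) * ((D : ℝ) + 2) ^ r * Real.exp (-(D : ℝ)) ≤
            (N * 1) * (2 * Real.exp 1 / N) * L * (5 * l) ^ r * (1 / L ^ 2) := by gcongr
        _ = 2 * Real.exp 1 * (5 * l) ^ r / L := by field_simp
        _ ≤ 1 / 16 := by
            rw [div_le_iff₀ hLpos]
            linarith
    have ee : β ^ 2 * (2 * Real.exp 2 / N) * (2 * (D : ℝ) + 1) ^ r *
          (2 * (D : ℝ) + (Dl : ℝ) + 4 + 4 * Q * (M : ℝ) * ((y : ℝ) / N) ^ r) ≤ 1 / 16 := by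
      have h1 : (2 * (D : ℝ) + 1) ^ r ≤ (33 * l) ^ r :=
        pow_le_pow_left₀ (by positivity) (by linarith) r
      have h2 : ((y : ℝ) / N) ^ r ≤ 1 / L ^ 6 := by
        have h3 : (y : ℝ) / N ≤ w := by
          rw [div_le_iff₀ hN]
          linarith
        have h4 : ((y : ℝ) / N) ^ r ≤ w ^ r := pow_le_pow_left₀ (by positivity) h3 r
        have h5 : w ^ r = L ^ (-(ε * r)) := by
          rw [hw, ← Real.rpow_natCast (L ^ (-ε)) r, ← Real.rpow_mul hLpos.le]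
          congr 1
          ring
        have h6 : L ^ (-(ε * r)) ≤ L ^ (-(6 : ℝ)) :=
          Real.rpow_le_rpow_of_exponent_le hL1 (by linarith)
        have h7 : L ^ (-(6 : ℝ)) = 1 / L ^ 6 := by
          rw [Real.rpow_neg hLpos.le, one_div]
          congr 1
          exact_mod_cast Real.rpow_natCast L 6
        rw [h5] at h4
        rw [h7] at h6
        exact h4.trans h6
      have h3 : 4 * Q * (M : ℝ) * ((y : ℝ) / N) ^ r ≤ 4 := by
        calc 4 * Q * (M : ℝ) * ((y : ℝ) / N) ^ r ≤ 4 * L ^ 5 * L * (1 / L ^ 6) := by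
              rw [hQ]
              gcongr
          _ = 4 := by field_simp
      have h4 : 2 * (D : ℝ) + (Dl : ℝ) + 4 + 4 * Q * (M : ℝ) * ((y : ℝ) / N) ^ r ≤
          33 * l / w := by
        rw [le_div_iff₀ hw0]
        have h5 : (Dl : ℝ) * w ≤ 2 * (2 + 7 * l) + w := by
          calc (Dl : ℝ) * w ≤ (2 / w * (2 + 7 * l) + 1) * w :=
                mul_le_mul_of_nonneg_right hDlc hw0.le
            _ = 2 * (2 + 7 * l) + w := by field_simp
        have h6 : (2 * (D : ℝ) + 4 + 4 * Q * (M : ℝ) * ((y : ℝ) / N) ^ r) * w ≤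
            (4 * l + 10) * 1 := by
          apply mul_le_mul _ hw1 hw0.le (by positivity)
          linarith
        have h7 : (2 * (D : ℝ) + (Dl : ℝ) + 4 + 4 * Q * (M : ℝ) * ((y : ℝ) / N) ^ r) * w =
            (2 * (D : ℝ) + 4 + 4 * Q * (M : ℝ) * ((y : ℝ) / N) ^ r) * w + (Dl : ℝ) * w := by ring
        rw [h7]
        linarith
      calc β ^ 2 * (2 * Real.exp 2 / N) * (2 * (D : ℝ) + 1) ^ r *
            (2 * (D : ℝ) + (Dl : ℝ) + 4 + 4 * Q * (M : ℝ) * ((y : ℝ) / N) ^ r) ≤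
            (N * w ^ 2) * (2 * Real.exp 2 / N) * (33 * l) ^ r * (33 * l / w) := by gcongr
        _ = 2 * Real.exp 2 * (33 * l) ^ (r + 1) * w := by
            rw [pow_succ]
            field_simp
            ring
        _ ≤ 1 / 16 := by linarith
    linarith

open Filter Topology in
theorem params (ε : ℝ) (hε : 0 < ε) : ∃ n₀ : ℕ, ∀ n : ℕ, n₀ ≤ n →
    ∀ β : ℝ, 0 ≤ β → β ≤ Real.sqrt n * (Real.log n) ^ (-ε) →
    ∃ (r T1 M D y Dl : ℕ) (Q : ℝ), 0 < n ∧ M = T1 + D + 1 ∧ 0 < Q ∧ 2 * M ≤ n ∧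
      (M + D + 1) * (r + 1) ≤ n ∧
      4 * Q * (M : ℝ) ^ 2 * Real.exp (-((y : ℝ) * (Dl : ℝ) / (n : ℝ))) ≤ 1 ∧
      2 * β * Real.exp (-(T1 : ℝ)) + 8 * β ^ 2 * (M : ℝ) ^ 2 * Real.exp (M : ℝ) / (n : ℝ) ^ 2 +
      2 * (β ^ 2 * (2 * Real.exp 2 * (M : ℝ) * Real.exp (2 * (D : ℝ)) / ((n : ℝ) * Q)) +
        β ^ 2 * (2 * Real.exp 1 / (n : ℝ)) * (M : ℝ) * ((D : ℝ) + 2) ^ r * Real.exp (-(D : ℝ)) +
        β ^ 2 * (2 * Real.exp 2 / (n : ℝ)) * (2 * (D : ℝ) + 1) ^ r *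
          (2 * (D : ℝ) + (Dl : ℝ) + 4 + 4 * Q * (M : ℝ) * ((y : ℝ) / (n : ℝ)) ^ r)) < 1 := by
  set r : ℕ := ⌈6 / ε⌉₊ with hr
  have hr6 : 6 ≤ ε * r := by
    have h := Nat.le_ceil (6 / ε)
    rw [← hr, div_le_iff₀ hε] at h
    linarith
  -- conditions on `L`
  have hLev : ∀ᶠ L : ℝ in atTop, 1 ≤ Real.log L ∧ 2 * Real.log L + 6 ≤ L / 2 ∧
      32 * Real.exp 1 * (5 * Real.log L) ^ r ≤ L ∧
      32 * Real.exp 2 * (33 * Real.log L) ^ (r + 1) * L ^ (-ε) ≤ 1 := by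
    have e1 := Real.tendsto_log_atTop.eventually (eventually_ge_atTop (1 : ℝ))
    have e2 := Par_ev 1 1 8 one_pos (by norm_num)
    have e3 := Par_ev (r : ℝ) 1 (32 * Real.exp 1 * 5 ^ r) one_pos (by positivity)
    have e4 := Par_ev ((r + 1 : ℕ) : ℝ) ε (32 * Real.exp 2 * 33 ^ (r + 1)) hε (by positivity)
    filter_upwards [e1, e2, e3, e4, eventually_ge_atTop (24 : ℝ)] with L h1 h2 h3 h4 h5
    rw [Real.rpow_one, Real.rpow_one] at h2
    rw [Real.rpow_one, Real.rpow_natCast] at h3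
    rw [Real.rpow_natCast] at h4
    have hL0 : 0 < L := by linarith
    refine ⟨h1, by linarith, ?_, ?_⟩
    · rw [mul_pow]
      linarith
    · rw [Real.rpow_neg hL0.le, mul_pow]
      rw [← div_eq_mul_inv, div_le_one (Real.rpow_pos_of_pos hL0 _)]
      linarith
  have hNev : ∀ᶠ x : ℝ in atTop, 3 * ((r : ℝ) + 1) * Real.log x ≤ x ∧
      2 ≤ x * (Real.log x) ^ (-ε) ∧ 64 * Real.exp 6 * Real.log x ^ 4 ≤ Real.sqrt x := by
    have e1 := Par_ev 1 1 (3 * ((r : ℝ) + 1)) one_pos (by positivity)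
    have e2 := Par_ev ε 1 2 one_pos (by norm_num)
    have e3 := Par_ev ((4 : ℕ) : ℝ) (1 / 2) (64 * Real.exp 6) (by norm_num) (by positivity)
    have e4 := Real.tendsto_log_atTop.eventually (eventually_ge_atTop (1 : ℝ))
    filter_upwards [e1, e2, e3, e4] with x h1 h2 h3 h4
    rw [Real.rpow_one, Real.rpow_one] at h1
    rw [Real.rpow_one] at h2
    rw [Real.rpow_natCast, ← Real.sqrt_eq_rpow] at h3
    have hl0 : 0 < Real.log x := by linarith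
    refine ⟨h1, ?_, h3⟩
    rw [Real.rpow_neg hl0.le, ← div_eq_mul_inv, le_div_iff₀ (Real.rpow_pos_of_pos hl0 _)]
    exact h2
  have hall : ∀ᶠ n : ℕ in atTop, 0 < n ∧
      (1 ≤ Real.log (Real.log n) ∧ 2 * Real.log (Real.log n) + 6 ≤ (Real.log n) / 2 ∧
      32 * Real.exp 1 * (5 * Real.log (Real.log n)) ^ r ≤ (Real.log n) ∧
      32 * Real.exp 2 * (33 * Real.log (Real.log n)) ^ (r + 1) * (Real.log n) ^ (-ε) ≤ 1) ∧
      (3 * ((r : ℝ) + 1) * Real.log n ≤ n ∧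
      2 ≤ (n : ℝ) * (Real.log n) ^ (-ε) ∧ 64 * Real.exp 6 * Real.log n ^ 4 ≤ Real.sqrt n) := by
    have t1 : Tendsto (fun n : ℕ => (n : ℝ)) atTop atTop := tendsto_natCast_atTop_atTop
    have t2 : Tendsto (fun n : ℕ => Real.log (n : ℝ)) atTop atTop := Real.tendsto_log_atTop.comp t1
    filter_upwards [eventually_gt_atTop 0, t2.eventually hLev, t1.eventually hNev] with n h1 h2 h3
    exact ⟨h1, h2, h3⟩
  obtain ⟨n₀, hn₀⟩ := eventually_atTop.1 hall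
  refine ⟨n₀, fun n hn β h0 hβ => ?_⟩
  obtain ⟨g0, ⟨g1, g2, g3, g4⟩, g5, g6, g7⟩ := hn₀ n hn
  obtain ⟨T1, M, D, y, Dl, Q, h⟩ := Par_det ε hε r hr6 n g0 (Real.log n) (Real.log (Real.log n))
    ((Real.log n) ^ (-ε)) rfl rfl rfl g1 g2 g5 g6 g7 g3 g4 β h0 hβ
  exact ⟨r, T1, M, D, y, Dl, Q, h⟩

end

end PropB
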