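import Pool.Agent.H7.PB.Fin
import Pool.Agent.H7.PB.Par

/-! Module Main: `f(n)` is attained, and the asymptotic theorem. -/

namespace PropB

noncomputable section

open Finset Classical

/-- the least number of members of a finite family of `n`-sets without property B -/
def fB (n : ℕ) : ℕ :=
  sInf {k : ℕ | ∃ H : Finset (Finset ℕ), (∀ A ∈ H, A.card = n) ∧ H.card = k ∧ ¬ HasPropertyB H}

/-- the family of all `n`-subsets of a `(2n-1)`-set has no property B -/
theorem Main_complete (n : ℕ) (hn : 1 ≤ n) :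
    ¬ HasPropertyB ((range (2 * n - 1)).powersetCard n) := by
  rintro ⟨χ, hχ⟩
  have hsum : ((range (2 * n - 1)).filter (fun v => χ v = true)).card +
      ((range (2 * n - 1)).filter (fun v => ¬ χ v = true)).card = 2 * n - 1 := by
    rw [Finset.card_filter_add_card_filter_not, card_range]
  rcases Nat.lt_or_ge ((range (2 * n - 1)).filter (fun v => χ v = true)).card n with h | h
  · have h' : n ≤ ((range (2 * n - 1)).filter (fun v => ¬ χ v = true)).card := by omega
    obtain ⟨A, hA, hAc⟩ := Finset.exists_subset_card_eq h'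
    have hA' : A ∈ (range (2 * n - 1)).powersetCard n :=
      mem_powersetCard.2 ⟨hA.trans (filter_subset _ _), hAc⟩
    obtain ⟨⟨v, hv, hv'⟩, -⟩ := hχ A hA'
    exact (mem_filter.1 (hA hv)).2 hv'
  · obtain ⟨A, hA, hAc⟩ := Finset.exists_subset_card_eq h
    have hA' : A ∈ (range (2 * n - 1)).powersetCard n :=
      mem_powersetCard.2 ⟨hA.trans (filter_subset _ _), hAc⟩
    obtain ⟨-, v, hv, hv'⟩ := hχ A hA'
    have := (mem_filter.1 (hA hv)).2
    rw [hv'] at this
    exact Bool.false_ne_true this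

/-- the infimum is attained -/
theorem fB_spec (n : ℕ) (hn : 1 ≤ n) :
    ∃ H : Finset (Finset ℕ), (∀ A ∈ H, A.card = n) ∧ H.card = fB n ∧ ¬ HasPropertyB H := by
  have hne : {k : ℕ | ∃ H : Finset (Finset ℕ), (∀ A ∈ H, A.card = n) ∧ H.card = k ∧
      ¬ HasPropertyB H}.Nonempty :=
    ⟨_, (range (2 * n - 1)).powersetCard n, fun A hA => (mem_powersetCard.1 hA).2, rfl,
      Main_complete n hn⟩
  exact Nat.sInf_mem hne

/-- the members of `H` seen inside the finite set of points they cover -/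
theorem Main_restrict (W : Type) (n : ℕ) (H : Finset (Finset W)) (hH : ∀ A ∈ H, A.card = n)
    (P : ∀ (V : Type) [Fintype V] [DecidableEq V] (H' : Finset (Finset V)),
      (∀ A ∈ H', A.card = n) → H'.card = H.card → HasPropertyB H') : HasPropertyB H := by
  let U : Finset W := H.biUnion id
  have hU : ∀ A ∈ H, A ⊆ U := fun A hA x hx => mem_biUnion.2 ⟨A, hA, hx⟩
  let φ : Finset W → Finset {x // x ∈ U} := fun A => A.subtype (fun x => x ∈ U)
  have hφ : ∀ A ∈ H, (φ A).map (Function.Embedding.subtype (fun x => x ∈ U)) = A := by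
    intro A hA
    exact Finset.subtype_map_of_mem (fun x hx => hU A hA hx)
  have hcard : ∀ A ∈ H, (φ A).card = A.card := by
    intro A hA
    rw [← Finset.card_map (Function.Embedding.subtype (fun x => x ∈ U)), hφ A hA]
  have hinj : Set.InjOn φ (H : Set (Finset W)) := by
    intro A hA B hB hAB
    rw [← hφ A hA, ← hφ B hB, hAB]
  obtain ⟨χ, hχ⟩ := P {x // x ∈ U} (H.image φ)
    (by
      intro A' hA'
      obtain ⟨A, hA, rfl⟩ := mem_image.1 hA'
      rw [hcard A hA, hH A hA])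
    (Finset.card_image_of_injOn hinj)
  refine ⟨fun w => if h : w ∈ U then χ ⟨w, h⟩ else true, fun A hA => ?_⟩
  obtain ⟨⟨v, hv, hv'⟩, u, hu, hu'⟩ := hχ (φ A) (mem_image_of_mem _ hA)
  refine ⟨⟨v.1, Finset.mem_subtype.1 hv, ?_⟩, u.1, Finset.mem_subtype.1 hu, ?_⟩
  · simp only [v.2, dite_true, Subtype.coe_eta, hv']
  · simp only [u.2, dite_true, Subtype.coe_eta, hu']

theorem main (ε : ℝ) (hε : 0 < ε) : ∃ n₀ : ℕ, ∀ n : ℕ, n₀ ≤ n →
    ∀ (W : Type) (H : Finset (Finset W)), (∀ A ∈ H, A.card = n) →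
      (H.card : ℝ) ≤ Real.sqrt n * (Real.log n) ^ (-ε) * 2 ^ n → HasPropertyB H := by
  obtain ⟨n₀, hn₀⟩ := params ε hε
  refine ⟨n₀, fun n hn W H hH hcard => ?_⟩
  have h2 : (0 : ℝ) < 2 ^ n := by positivity
  obtain ⟨r, T1, M, D, y, Dl, Q, hn0, hMdef, hQ, h2M, hcond, hD, hlt⟩ :=
    hn₀ n hn ((H.card : ℝ) / 2 ^ n) (by positivity) (by rw [div_le_iff₀ h2]; exact hcard)
  refine Main_restrict W n H hH (fun V _ _ H' hH' hc => ?_)
  refine finite_main hn0 H' hH' r T1 M D y Dl Q hMdef hQ h2M hcond hD ((H.card : ℝ) / 2 ^ n)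
    (by rw [hc]) hlt

end

end PropB
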