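import Pool.Agent.H7.PB.Basic

/-! Module N1: the probability of the normal event at fixed `A, B, v, T, S`. -/

namespace PropB

noncomputable section

open Finset Classical

variable {V : Type*} [Fintype V] [DecidableEq V] {n : ℕ}

omit [Fintype V] in
theorem N1_out_congr (D : ℕ) (c : Bool) (A B A' : Finset V) (s : ℕ) {ω ω' : Cfg V n}
    (h : ∀ v, v ∉ A ∪ B → ω v = ω' v) : out D c A B A' s ω ↔ out D c A B A' s ω' := by
  unfold out col lev
  refine forall₂_congr fun u hu => ?_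
  rw [Finset.mem_sdiff] at hu
  rw [h u hu.2]

theorem N1_NN_congr (H : Finset (Finset V)) (D : ℕ) (c : Bool) (A B : Finset V) (s : ℕ)
    {ω ω' : Cfg V n} (h : ∀ v, v ∉ A ∪ B → ω v = ω' v) :
    NN H D c A B s ω = NN H D c A B s ω' := by
  unfold NN
  congr 1
  refine Finset.filter_congr fun A' _ => ?_
  rw [N1_out_congr D c A B A' s h]

theorem N1_UU_congr (H : Finset (Finset V)) (D : ℕ) (c : Bool) (A B S : Finset V) (w : V) (j : ℕ)
    {ω ω' : Cfg V n} (h : ∀ v, v ∉ A ∪ B → ω v = ω' v) :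
    UU H D c A B S w j ω ↔ UU H D c A B S w j ω' := by
  unfold UU
  refine exists_congr fun A' => ?_
  rw [N1_out_congr D c A B A' j h]

/-- allowed levels of the vertices of `B` -/
def N1_R (H : Finset (Finset V)) (D : ℕ) (c : Bool) (A B : Finset V) (T : ℕ) (S : Finset V)
    (w : V) (ω : Cfg V n) (j : ℕ) : Prop :=
  j ≤ T ∧ (T - D ≤ j ∨ UU H D c A B S w j ω)

/-- the sets of allowed values -/
def N1_P (H : Finset (Finset V)) (D : ℕ) (c : Bool) (A B : Finset V) (v : V) (T : ℕ)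
    (S : Finset V) (w : V) (ω : Cfg V n) : Finset (Bool × Fin n) :=
  if w = v then univ.filter (fun x => x.1 = c ∧ T ≤ (x.2 : ℕ) ∧ (x.2 : ℕ) ≤ T)
  else if w ∈ S then univ.filter (fun x => x.1 = c ∧ T - D ≤ (x.2 : ℕ) ∧ (x.2 : ℕ) ≤ T + D)
  else if w ∈ A then univ.filter (fun x => x.1 = c ∧ T ≤ (x.2 : ℕ))
  else univ.filter (fun x => x.1 = c → N1_R H D c A B T S w ω (x.2 : ℕ))

theorem N1_P_indep (H : Finset (Finset V)) (D : ℕ) (c : Bool) (A B : Finset V) (v : V) (T : ℕ)
    (S : Finset V) (w : V) :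
    IndepOf (A ∪ B) (fun ω : Cfg V n => N1_P H D c A B v T S w ω) := by
  intro ω ω' h
  show N1_P H D c A B v T S w ω = N1_P H D c A B v T S w ω'
  unfold N1_P
  split_ifs
  · rfl
  · rfl
  · rfl
  · refine Finset.filter_congr fun x _ => ?_
    unfold N1_R
    rw [N1_UU_congr H D c A B S w (x.2 : ℕ) h]

theorem N1_card (H : Finset (Finset V)) (D : ℕ) (c : Bool) (A B : Finset V) (T : ℕ)
    (S : Finset V) (w : V) (ω : Cfg V n) :
    ((univ.filter (fun x : Bool × Fin n => x.1 = c → N1_R H D c A B T S w ω (x.2 : ℕ))).card) ≤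
    n + ((T + 1 - (T - D)) + ((range (T - D)).filter (fun j => UU H D c A B S w j ω)).card) := by
  have h1 := card_other_or_le (n := n) c (N1_R H D c A B T S w ω) (T + 1)
    (fun j hj => Nat.lt_succ_of_le hj.1)
  have h2 : (range (T + 1)).filter (N1_R H D c A B T S w ω) ⊆
      Finset.Ico (T - D) (T + 1) ∪
        (range (T - D)).filter (fun j => UU H D c A B S w j ω) := by
    intro j hj
    rw [Finset.mem_filter, Finset.mem_range] at hj
    rw [Finset.mem_union, Finset.mem_Ico, Finset.mem_filter, Finset.mem_range]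
    by_cases h : T - D ≤ j
    · exact Or.inl ⟨h, hj.1⟩
    · exact Or.inr ⟨not_le.1 h, hj.2.2.resolve_left h⟩
  have h3 := (Finset.card_le_card h2).trans (Finset.card_union_le _ _)
  rw [Nat.card_Ico] at h3
  exact h1.trans (Nat.add_le_add_left h3 n)

theorem N1_mem (H : Finset (Finset V)) (D : ℕ) (Q : ℝ) (c : Bool) (A B : Finset V) (v : V) (T : ℕ)
    (S : Finset V) (hSA : S ⊆ A) (ω : Cfg V n) (h : NormalAt H D Q c A B v T S ω) :
    ∀ w ∈ A ∪ B, ω w ∈ N1_P H D c A B v T S w ω := by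
  obtain ⟨⟨hvB, hvc, hvT, hvm⟩, -, hA, hS, hAS, hB⟩ := h
  intro w hw
  unfold N1_P
  by_cases h1 : w = v
  · rw [if_pos h1, Finset.mem_filter]
    subst h1
    exact ⟨Finset.mem_univ _, hvc, hvT.ge, hvT.le⟩
  · rw [if_neg h1]
    by_cases h2 : w ∈ S
    · rw [if_pos h2, Finset.mem_filter]
      obtain ⟨h3, h4⟩ := hS w h2
      exact ⟨Finset.mem_univ _, hA w (hSA h2), Nat.sub_le_iff_le_add.2 h3, h4⟩
    · rw [if_neg h2]
      by_cases h3 : w ∈ A
      · rw [if_pos h3, Finset.mem_filter]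
        exact ⟨Finset.mem_univ _, hA w h3, hAS w h3 h2⟩
      · rw [if_neg h3, Finset.mem_filter]
        have hwB : w ∈ B := (Finset.mem_union.1 hw).resolve_left h3
        refine ⟨Finset.mem_univ _, fun hc => ⟨hvm w hwB h1 hc, ?_⟩⟩
        rcases hB w hwB h1 hc with h4 | ⟨A', hA', h5, h6, h7⟩
        · exact Or.inl (Nat.sub_le_iff_le_add.2 h4)
        · refine Or.inr ⟨A', hA', h5, h6, fun u hu => ?_⟩
          rw [Finset.mem_sdiff, Finset.mem_union, not_or] at hu
          exact h7 u hu.1 (fun e => hu.2.2 (e ▸ hwB))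

theorem N1_NN_le (H : Finset (Finset V)) (D : ℕ) (Q : ℝ) (c : Bool) (A B : Finset V) (v : V)
    (T : ℕ) (S : Finset V) (ω : Cfg V n) (h : NormalAt H D Q c A B v T S ω) :
    (NN H D c A B (T - D) ω : ℝ) ≤ (n : ℝ) * Q := by
  obtain ⟨-, hN, hA, hS, hAS, -⟩ := h
  refine le_trans ?_ hN
  have : NN H D c A B (T - D) ω ≤ Nhat H D c B (T - D) ω := by
    unfold NN Nhat
    refine Finset.card_le_card fun A' hA' => ?_
    rw [Finset.mem_filter] at hA' ⊢
    refine ⟨hA'.1, hA'.2.1, fun u hu => ?_⟩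
    rw [Finset.mem_sdiff] at hu
    by_cases h1 : u ∈ A
    · refine ⟨hA u h1, ?_⟩
      by_cases h2 : u ∈ S
      · have := (hS u h2).1
        omega
      · have := hAS u h1 h2
        omega
    · refine hA'.2.2 u ?_
      rw [Finset.mem_sdiff, Finset.mem_union, not_or]
      exact ⟨hu.1, h1, hu.2⟩
  exact_mod_cast this

omit [Fintype V] in
theorem N1_sum (H : Finset (Finset V)) (D : ℕ) (c : Bool) (A B : Finset V) (v : V)
    (S : Finset V) (s : ℕ) (ω : Cfg V n) :
    ∑ w ∈ B.erase v, (((range s).filter (fun j => UU H D c A B S w j ω)).card : ℝ) / n =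
      ∑ j ∈ range s, ff H D c A B v S j ω := by
  unfold ff
  rw [← Finset.sum_div, ← Finset.sum_div]
  congr 1
  have h1 : ∀ w, (((range s).filter (fun j => UU H D c A B S w j ω)).card : ℝ) =
      ∑ j ∈ range s, if UU H D c A B S w j ω then (1 : ℝ) else 0 := by
    intro w
    rw [Finset.card_filter]
    push_cast
    rfl
  have h2 : ∀ j, (((B.erase v).filter (fun w => UU H D c A B S w j ω)).card : ℝ) =
      ∑ w ∈ B.erase v, if UU H D c A B S w j ω then (1 : ℝ) else 0 := by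
    intro j
    rw [Finset.card_filter]
    push_cast
    rfl
  rw [Finset.sum_congr rfl fun w _ => h1 w, Finset.sum_congr rfl fun j _ => h2 j,
    Finset.sum_comm]

/-- the product over the coordinates of `A ∪ B` -/
theorem N1_prod (hn : 0 < n) (H : Finset (Finset V)) (hH : ∀ A ∈ H, A.card = n) (r D : ℕ)
    (c : Bool) (A B : Finset V) (v : V) (T : ℕ) (S : Finset V) (hA : A ∈ H) (hB : B ∈ H)
    (hAB : A ∩ B = {v}) (hS : S ∈ (A.erase v).powersetCard r) (hT : T * (r + 1) ≤ n)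
    (ω : Cfg V n) :
    ∏ w ∈ A ∪ B, (((N1_P H D c A B v T S w ω).card : ℝ) / (2 * n)) ≤
      (2 * Real.exp 2 / (n : ℝ)) * ((1 : ℝ) / 2 ^ n) ^ 2 * ((2 * (D : ℝ) + 1) / (n : ℝ)) ^ r *
        Real.exp (-∑ j ∈ range (T - D), (1 - ff H D c A B v S j ω)) := by
  have hn0 : (0 : ℝ) < n := by exact_mod_cast hn
  have hvAB : v ∈ A ∩ B := by rw [hAB]; exact Finset.mem_singleton_self v
  have hvA : v ∈ A := (Finset.mem_inter.1 hvAB).1
  have hvB : v ∈ B := (Finset.mem_inter.1 hvAB).2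
  rw [Finset.mem_powersetCard] at hS
  obtain ⟨hS1, hS2⟩ := hS
  have hSA : S ⊆ A := hS1.trans (Finset.erase_subset _ _)
  have hcA : (A.erase v).card = n - 1 := by rw [Finset.card_erase_of_mem hvA, hH A hA]
  have hcB : (B.erase v).card = n - 1 := by rw [Finset.card_erase_of_mem hvB, hH B hB]
  have hr1 : r ≤ n - 1 := by rw [← hS2, ← hcA]; exact Finset.card_le_card hS1
  have hcR : ((A.erase v) \ S).card = n - 1 - r := by
    rw [Finset.card_sdiff_of_subset hS1, hcA, hS2]
  have hTn : T ≤ n := le_trans (Nat.le_mul_of_pos_right T (Nat.succ_pos r)) hT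
  -- decomposition
  have hd1 : A ∪ B = A ∪ B.erase v := by
    ext x
    simp only [Finset.mem_union, Finset.mem_erase]
    constructor
    · rintro (h | h)
      · exact Or.inl h
      · by_cases hx : x = v
        · exact Or.inl (hx ▸ hvA)
        · exact Or.inr ⟨hx, h⟩
    · rintro (h | h)
      · exact Or.inl h
      · exact Or.inr h.2
  have hdis : Disjoint A (B.erase v) := by
    rw [Finset.disjoint_left]
    intro x hx hx'
    rw [Finset.mem_erase] at hx'
    have : x ∈ A ∩ B := Finset.mem_inter.2 ⟨hx, hx'.2⟩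
    rw [hAB, Finset.mem_singleton] at this
    exact hx'.1 this
  set F : V → ℝ := fun w => (((N1_P H D c A B v T S w ω).card : ℝ) / (2 * n)) with hF
  have hF0 : ∀ w, 0 ≤ F w := fun w => by rw [hF]; positivity
  have e1 : ∏ w ∈ A ∪ B, F w = F v * (∏ w ∈ S, F w) * (∏ w ∈ (A.erase v) \ S, F w) *
      ∏ w ∈ B.erase v, F w := by
    rw [hd1, Finset.prod_union hdis, ← Finset.mul_prod_erase A F hvA,
      ← Finset.prod_sdiff hS1]
    ring
  set s : ℕ := T - D with hs
  -- factor v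
  have b1 : F v ≤ 1 / (2 * n) := by
    rw [hF]
    have h1 : (N1_P H D c A B v T S v ω).card ≤ 1 := by
      unfold N1_P
      rw [if_pos rfl]
      refine (card_window_le c T T).trans ?_
      omega
    have h2 : ((N1_P H D c A B v T S v ω).card : ℝ) ≤ 1 := by exact_mod_cast h1
    exact div_le_div_of_nonneg_right h2 (by positivity)
  have b2 : ∏ w ∈ S, F w ≤ ((2 * (D : ℝ) + 1) / (2 * n)) ^ r := by
    rw [← hS2, ← Finset.prod_const]
    refine Finset.prod_le_prod (fun w _ => hF0 w) fun w hw => ?_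
    have hwv : w ≠ v := (Finset.mem_erase.1 (hS1 hw)).1
    rw [hF]
    have h1 : (N1_P H D c A B v T S w ω).card ≤ 2 * D + 1 := by
      unfold N1_P
      rw [if_neg hwv, if_pos hw]
      refine (card_window_le c (T - D) (T + D)).trans ?_
      omega
    have h2 : ((N1_P H D c A B v T S w ω).card : ℝ) ≤ 2 * (D : ℝ) + 1 := by exact_mod_cast h1
    exact div_le_div_of_nonneg_right h2 (by positivity)
  have b3 : ∏ w ∈ (A.erase v) \ S, F w ≤
      (1 / 2 : ℝ) ^ (n - 1 - r) * Real.exp (1 - T) := by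
    have h0 : ∏ w ∈ (A.erase v) \ S, F w ≤
        ∏ w ∈ (A.erase v) \ S, ((1 / 2 : ℝ) * Real.exp (-(T : ℝ) / n)) := by
      refine Finset.prod_le_prod (fun w _ => hF0 w) fun w hw => ?_
      rw [Finset.mem_sdiff, Finset.mem_erase] at hw
      rw [hF]
      have h1 : (N1_P H D c A B v T S w ω).card = n - T := by
        unfold N1_P
        rw [if_neg hw.1.1, if_neg hw.2, if_pos hw.1.2]
        exact card_ge c T
      show ((N1_P H D c A B v T S w ω).card : ℝ) / (2 * n) ≤ _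
      rw [h1, Nat.cast_sub hTn]
      have h2 : 1 - (T : ℝ) / n ≤ Real.exp (-(T : ℝ) / n) := by
        have := Real.add_one_le_exp (-(T : ℝ) / n)
        have h3 : -(T : ℝ) / n = -((T : ℝ) / n) := by ring
        rw [h3] at this ⊢
        linarith
      calc ((n : ℝ) - T) / (2 * n) = 1 / 2 * (1 - (T : ℝ) / n) := by field_simp
        _ ≤ _ := mul_le_mul_of_nonneg_left h2 (by norm_num)
    refine h0.trans ?_
    rw [Finset.prod_const, hcR, mul_pow, ← Real.exp_nat_mul]
    refine mul_le_mul_of_nonneg_left (Real.exp_le_exp.2 ?_) (by positivity)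
    have h4 : ((n - 1 - r : ℕ) : ℝ) = (n : ℝ) - (r + 1) := by
      rw [Nat.cast_sub hr1, Nat.cast_sub hn]
      push_cast
      ring
    rw [h4]
    have h5 : (T : ℝ) * (r + 1) ≤ n := by exact_mod_cast hT
    have h6 : (T : ℝ) * (r + 1) / n ≤ 1 := by
      rw [div_le_one hn0]
      exact h5
    have h7 : ((n : ℝ) - (r + 1)) * (-(T : ℝ) / n) = -(T : ℝ) + (T : ℝ) * (r + 1) / n := by
      field_simp
      ring
    rw [h7]
    linarith
  have b4 : ∏ w ∈ B.erase v, F w ≤ (1 / 2 : ℝ) ^ (n - 1) *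
      Real.exp ((T : ℝ) + 1 - s + ∑ j ∈ range s, ff H D c A B v S j ω) := by
    set a : ℝ := (T : ℝ) + 1 - s with ha
    have hsT : s ≤ T + 1 := by omega
    have ha0 : 0 ≤ a := by
      rw [ha]
      have : (s : ℝ) ≤ (T : ℝ) + 1 := by exact_mod_cast hsT
      linarith
    have h0 : ∏ w ∈ B.erase v, F w ≤ ∏ w ∈ B.erase v, ((1 / 2 : ℝ) * Real.exp (a / n +
        (((range s).filter (fun j => UU H D c A B S w j ω)).card : ℝ) / n)) := by
      refine Finset.prod_le_prod (fun w _ => hF0 w) fun w hw => ?_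
      have hw' := Finset.mem_erase.1 hw
      have hwA : w ∉ A := fun h => Finset.disjoint_left.1 hdis h hw
      have hwS : w ∉ S := fun h => hwA (hSA h)
      have h1 : (N1_P H D c A B v T S w ω).card ≤
          n + ((T + 1 - s) + ((range s).filter (fun j => UU H D c A B S w j ω)).card) := by
        unfold N1_P
        rw [if_neg hw'.1, if_neg hwS, if_neg hwA]
        exact N1_card H D c A B T S w ω
      have h2 : ((N1_P H D c A B v T S w ω).card : ℝ) ≤
          n + (a + (((range s).filter (fun j => UU H D c A B S w j ω)).card : ℝ)) := by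
        have h3 : ((N1_P H D c A B v T S w ω).card : ℝ) ≤ ((n + ((T + 1 - s) +
          ((range s).filter (fun j => UU H D c A B S w j ω)).card) : ℕ) : ℝ) := by
          exact_mod_cast h1
        refine h3.trans (le_of_eq ?_)
        rw [Nat.cast_add, Nat.cast_add, Nat.cast_sub hsT, ha]
        push_cast
        ring
      rw [hF]
      show ((N1_P H D c A B v T S w ω).card : ℝ) / (2 * n) ≤ _
      have h4 := Real.add_one_le_exp (a / n +
        (((range s).filter (fun j => UU H D c A B S w j ω)).card : ℝ) / n)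
      calc ((N1_P H D c A B v T S w ω).card : ℝ) / (2 * n)
          ≤ (n + (a + (((range s).filter (fun j => UU H D c A B S w j ω)).card : ℝ))) /
            (2 * n) := div_le_div_of_nonneg_right h2 (by positivity)
        _ = 1 / 2 * (a / n +
            (((range s).filter (fun j => UU H D c A B S w j ω)).card : ℝ) / n + 1) := by
            field_simp
            ring
        _ ≤ _ := mul_le_mul_of_nonneg_left h4 (by norm_num)
    refine h0.trans ?_
    rw [Finset.prod_mul_distrib, Finset.prod_const, hcB, ← Real.exp_sum]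
    refine mul_le_mul_of_nonneg_left (Real.exp_le_exp.2 ?_) (by positivity)
    rw [Finset.sum_add_distrib, N1_sum, Finset.sum_const, hcB, nsmul_eq_mul]
    have h5 : ((n - 1 : ℕ) : ℝ) * (a / n) ≤ a := by
      have h6 : ((n - 1 : ℕ) : ℝ) ≤ n := by exact_mod_cast Nat.sub_le n 1
      calc ((n - 1 : ℕ) : ℝ) * (a / n) ≤ n * (a / n) :=
            mul_le_mul_of_nonneg_right h6 (div_nonneg ha0 hn0.le)
        _ = a := by field_simp
    linarith
  rw [e1]
  have p2 : 0 ≤ ∏ w ∈ S, F w := Finset.prod_nonneg fun w _ => hF0 w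
  have p3 : 0 ≤ ∏ w ∈ (A.erase v) \ S, F w := Finset.prod_nonneg fun w _ => hF0 w
  have p4 : 0 ≤ ∏ w ∈ B.erase v, F w := Finset.prod_nonneg fun w _ => hF0 w
  have c1 : F v * (∏ w ∈ S, F w) ≤ 1 / (2 * n) * ((2 * (D : ℝ) + 1) / (2 * n)) ^ r :=
    mul_le_mul b1 b2 p2 (by positivity)
  have c2 : F v * (∏ w ∈ S, F w) * (∏ w ∈ (A.erase v) \ S, F w) ≤
      1 / (2 * n) * ((2 * (D : ℝ) + 1) / (2 * n)) ^ r *
        ((1 / 2 : ℝ) ^ (n - 1 - r) * Real.exp (1 - T)) :=
    mul_le_mul c1 b3 p3 (by positivity)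
  have c3 := mul_le_mul c2 b4 p4 (by positivity)
  refine c3.trans (le_of_eq ?_)
  have hsum : -∑ j ∈ range s, (1 - ff H D c A B v S j ω) =
      -(s : ℝ) + ∑ j ∈ range s, ff H D c A B v S j ω := by
    rw [Finset.sum_sub_distrib, Finset.sum_const, Finset.card_range, nsmul_eq_mul]
    ring
  rw [hsum]
  set Y : ℝ := ∑ j ∈ range s, ff H D c A B v S j ω with hY
  have hexp : Real.exp (1 - T) * Real.exp ((T : ℝ) + 1 - s + Y) =
      Real.exp 2 * Real.exp (-(s : ℝ) + Y) := by
    rw [← Real.exp_add, ← Real.exp_add]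
    congr 1
    ring
  have hpow : (1 / 2 : ℝ) ^ r * (1 / 2 : ℝ) ^ (n - 1 - r) * (1 / 2 : ℝ) ^ (n - 1) =
      4 * (1 / 2 ^ n) ^ 2 := by
    have h1 : (1 / 2 : ℝ) ^ r * (1 / 2 : ℝ) ^ (n - 1 - r) = (1 / 2 : ℝ) ^ (n - 1) := by
      rw [← pow_add]
      congr 1
      omega
    have h2 : (1 / 2 : ℝ) ^ (n - 1) = 2 * (1 / 2) ^ n := by
      obtain ⟨m, rfl⟩ : ∃ m, n = m + 1 := ⟨n - 1, by omega⟩
      rw [Nat.add_sub_cancel, pow_succ]
      ring
    rw [h1, h2, one_div_pow]
    ring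
  have hD : ((2 * (D : ℝ) + 1) / (2 * n)) ^ r = ((2 * (D : ℝ) + 1) / n) ^ r * (1 / 2 : ℝ) ^ r := by
    rw [← mul_pow]
    congr 1
    field_simp
  rw [hD]
  calc 1 / (2 * (n : ℝ)) * (((2 * (D : ℝ) + 1) / n) ^ r * (1 / 2 : ℝ) ^ r) *
        ((1 / 2 : ℝ) ^ (n - 1 - r) * Real.exp (1 - T)) *
        ((1 / 2 : ℝ) ^ (n - 1) * Real.exp ((T : ℝ) + 1 - s + Y))
      = 1 / (2 * (n : ℝ)) * ((2 * (D : ℝ) + 1) / n) ^ r *
        ((1 / 2 : ℝ) ^ r * (1 / 2 : ℝ) ^ (n - 1 - r) * (1 / 2 : ℝ) ^ (n - 1)) *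
        (Real.exp (1 - T) * Real.exp ((T : ℝ) + 1 - s + Y)) := by ring
    _ = _ := by
      rw [hpow, hexp]
      field_simp
      ring

theorem Pr_NormalAt (hn : 0 < n) (H : Finset (Finset V)) (hH : ∀ A ∈ H, A.card = n) (r D : ℕ)
    (Q : ℝ) (c : Bool) (A B : Finset V) (v : V) (T : ℕ) (S : Finset V) (hA : A ∈ H) (hB : B ∈ H)
    (hAB : A ∩ B = {v}) (hS : S ∈ (A.erase v).powersetCard r) (hT : T * (r + 1) ≤ n) :
    Pr (fun ω : Cfg V n => NormalAt H D Q c A B v T S ω) ≤
      (2 * Real.exp 2 / (n : ℝ)) * ((1 : ℝ) / 2 ^ n) ^ 2 * ((2 * (D : ℝ) + 1) / (n : ℝ)) ^ r *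
        Ex (fun ω : Cfg V n => if (NN H D c A B (T - D) ω : ℝ) ≤ (n : ℝ) * Q then
          Real.exp (-∑ j ∈ range (T - D), (1 - ff H D c A B v S j ω)) else 0) := by
  have hSA : S ⊆ A := (Finset.mem_powersetCard.1 hS).1.trans (Finset.erase_subset _ _)
  have h1 := Pr_le_prod (A ∪ B) (fun ω : Cfg V n => NormalAt H D Q c A B v T S ω)
    (fun ω => if (NN H D c A B (T - D) ω : ℝ) ≤ (n : ℝ) * Q then (1 : ℝ) else 0)
    (fun ω => by split_ifs <;> norm_num)
    (fun ω ω' h => by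
      have : NN H D c A B (T - D) ω = NN H D c A B (T - D) ω' := N1_NN_congr H D c A B (T - D) h
      simp only [this])
    (fun w ω => N1_P H D c A B v T S w ω) (fun w _ => N1_P_indep H D c A B v T S w)
    (fun ω hω => ⟨by rw [if_pos (N1_NN_le H D Q c A B v T S ω hω)], N1_mem H D Q c A B v T S hSA ω hω⟩)
  refine h1.trans ?_
  rw [← Ex_const_mul]
  refine Ex_mono fun ω => ?_
  have h2 := N1_prod hn H hH r D c A B v T S hA hB hAB hS hT ω
  split_ifs
  · rw [one_mul]
    exact h2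
  · rw [zero_mul, mul_zero]

end

end PropB
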